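import Pool.Agent.H14.SQ.Df

/-!
# A: a face of a cube in the support of a cycle is a face of another cube in the support
-/

set_option autoImplicit false

namespace Pool.Agent.H14.SQ

variable {n : ℕ}

theorem face_inj {Q : Cube n} {i i' : Fin n × Bool} {ε ε' : Bool} (hi : i ∈ Q.s) (hi' : i' ∈ Q.s)
    (h : Q.face i' ε' = Q.face i ε) : i' = i ∧ ε' = ε := by
  have h1 := congrArg Cube.s h
  have h2 := congrArg Cube.a h
  simp only [Cube.face] at h1 h2
  have h3 : i' = i := by
    by_contra hne
    have h4 : i ∈ Q.s.erase i' := Finset.mem_erase.2 ⟨fun h => hne h.symm, hi⟩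
    rw [h1] at h4
    exact (Finset.mem_erase.1 h4).1 rfl
  subst h3
  refine ⟨rfl, ?_⟩
  have h5 := congrFun h2 i'
  cases ε <;> cases ε' <;> simp at h5 ⊢

theorem bdCube_apply (Q τ : Cube n) : bdCube Q τ = ∑ i ∈ Q.s, sgn Q.s i *
    ((if Q.face i true = τ then 1 else 0) - (if Q.face i false = τ then 1 else 0)) := by
  rw [bdCube, Finsupp.finset_sum_apply]
  refine Finset.sum_congr rfl fun i _ => ?_
  rw [Finsupp.smul_apply, Finsupp.sub_apply, Finsupp.single_apply, Finsupp.single_apply, smul_eq_mul]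

theorem bd_apply (z : Cube n →₀ ℤ) (τ : Cube n) : bd z τ = ∑ Q ∈ z.support, z Q * bdCube Q τ := by
  rw [bd, Finsupp.sum, Finsupp.finset_sum_apply]
  refine Finset.sum_congr rfl fun i _ => ?_
  rw [Finsupp.smul_apply, smul_eq_mul]

theorem other_coface {z : Cube n →₀ ℤ} (hz : bd z = 0) {σ : Cube n} (hσ : σ ∈ z.support)
    {i : Fin n × Bool} (hi : i ∈ σ.s) (ε : Bool) :
    ∃ σ' ∈ z.support, σ' ≠ σ ∧ ∃ i' ∈ σ'.s, ∃ ε', σ'.face i' ε' = σ.face i ε := by
  by_contra hcon
  push Not at hcon
  have h0 : bd z (σ.face i ε) = 0 := by rw [hz]; rfl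
  rw [bd_apply, Finset.sum_eq_single σ] at h0
  · have h1 : bdCube σ (σ.face i ε) = sgn σ.s i * (if ε then 1 else -1) := by
      rw [bdCube_apply, Finset.sum_eq_single i]
      · congr 1
        cases ε
        · have h2 : σ.face i true ≠ σ.face i false := fun h => by
            have := (face_inj hi hi h).2
            simp at this
          simp [h2]
        · have h2 : σ.face i false ≠ σ.face i true := fun h => by
            have := (face_inj hi hi h).2
            simp at this
          simp [h2]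
      · intro i' hi' hne
        have h2 : ∀ ε', σ.face i' ε' ≠ σ.face i ε := fun ε' h => hne (face_inj hi hi' h).1
        simp [h2]
      · intro h
        exact absurd hi h
    rw [h1] at h0
    have h2 : z σ ≠ 0 := Finsupp.mem_support_iff.1 hσ
    have h3 : sgn σ.s i ≠ 0 := by
      unfold sgn
      exact pow_ne_zero _ (by norm_num)
    have h4 : (if ε then (1 : ℤ) else -1) ≠ 0 := by
      cases ε <;> simp
    exact mul_ne_zero h2 (mul_ne_zero h3 h4) h0
  · intro Q hQ hne
    rw [bdCube_apply]
    have h2 : ∀ i' ∈ Q.s, ∀ ε', Q.face i' ε' ≠ σ.face i ε := fun i' hi' ε' h => hcon Q hQ hne i' hi' ε' h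
    rw [Finset.sum_eq_zero, mul_zero]
    intro i' hi'
    rw [if_neg (h2 i' hi' true), if_neg (h2 i' hi' false), sub_zero, mul_zero]
  · intro h
    exact absurd hσ h

end Pool.Agent.H14.SQ
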