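import Pool.Agent.H14.SQ.Df

/-!
# B: the cubes contained in `C(n; p, q)` as packings of the rectangle
-/

set_option autoImplicit false

namespace Pool.Agent.H14.SQ

variable {n p q : ℕ}

theorem w_nonneg (Q : Cube n) (i : Fin n × Bool) : 0 ≤ Q.w i := by
  unfold Cube.w; split_ifs <;> norm_num

theorem w_le (Q : Cube n) (i : Fin n × Bool) : Q.w i ≤ 1 := by
  unfold Cube.w; split_ifs <;> norm_num

/-- the grid cell `(u, v)` is covered by the piece `k` -/
def Cov (Q : Cube n) (k : Fin n) (u v : ℤ) : Prop :=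
  Q.a (k, false) ≤ u ∧ u ≤ Q.a (k, false) + Q.w (k, false) ∧
    Q.a (k, true) ≤ v ∧ v ≤ Q.a (k, true) + Q.w (k, true)

theorem rng {Q : Cube n} (h : Q.set ⊆ Cfg n p q) (k : Fin n) :
    1 ≤ Q.a (k, false) ∧ Q.a (k, false) + Q.w (k, false) ≤ p ∧
      1 ≤ Q.a (k, true) ∧ Q.a (k, true) + Q.w (k, true) ≤ q := by
  have h1 : (fun i => (Q.a i : ℝ)) ∈ Q.set := fun i =>
    ⟨le_rfl, by
      have : (0 : ℝ) ≤ (Q.w i : ℝ) := by exact_mod_cast w_nonneg Q i
      linarith⟩
  have h2 : (fun i => (Q.a i : ℝ) + Q.w i) ∈ Q.set := fun i =>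
    ⟨by
      have : (0 : ℝ) ≤ (Q.w i : ℝ) := by exact_mod_cast w_nonneg Q i
      linarith, le_rfl⟩
  obtain ⟨a1, -, a2, -⟩ := (h h1).1 k
  obtain ⟨-, b1, -, b2⟩ := (h h2).1 k
  simp only at a1 a2 b1 b2
  exact ⟨by exact_mod_cast a1, by exact_mod_cast b1, by exact_mod_cast a2, by exact_mod_cast b2⟩

theorem disj {Q : Cube n} (h : Q.set ⊆ Cfg n p q) {k l : Fin n} {u v : ℤ} (hk : Cov Q k u v)
    (hl : Cov Q l u v) : k = l := by
  by_contra hkl
  obtain ⟨k1, k2, k3, k4⟩ := hk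
  obtain ⟨l1, l2, l3, l4⟩ := hl
  have h1 : (fun i : Fin n × Bool => if i.1 = k ∨ i.1 = l then (if i.2 then (v : ℝ) else u) else (Q.a i : ℝ)) ∈ Q.set := by
    rintro ⟨m, d⟩
    simp only
    split_ifs with h2 h3
    · subst h3
      rcases h2 with rfl | rfl
      · exact ⟨by exact_mod_cast k3, by exact_mod_cast k4⟩
      · exact ⟨by exact_mod_cast l3, by exact_mod_cast l4⟩
    · have h4 : d = false := by simpa using h3
      subst h4
      rcases h2 with rfl | rfl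
      · exact ⟨by exact_mod_cast k1, by exact_mod_cast k2⟩
      · exact ⟨by exact_mod_cast l1, by exact_mod_cast l2⟩
    · refine ⟨le_rfl, ?_⟩
      have : (0 : ℝ) ≤ (Q.w (m, d) : ℝ) := by exact_mod_cast w_nonneg Q (m, d)
      linarith
  rcases (h h1).2 k l hkl with h2 | h2
  · simp at h2
    norm_num at h2
  · simp at h2
    norm_num at h2

/-- the cells of the piece `k` -/
noncomputable def cells (Q : Cube n) (k : Fin n) : Finset (ℤ × ℤ) :=
  Finset.Icc (Q.a (k, false)) (Q.a (k, false) + Q.w (k, false)) ×ˢ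
    Finset.Icc (Q.a (k, true)) (Q.a (k, true) + Q.w (k, true))

theorem mem_cells {Q : Cube n} {k : Fin n} {c : ℤ × ℤ} : c ∈ cells Q k ↔ Cov Q k c.1 c.2 := by
  simp only [cells, Finset.mem_product, Finset.mem_Icc, Cov, and_assoc]

theorem card_cells (Q : Cube n) (k : Fin n) :
    ((cells Q k).card : ℤ) = (1 + Q.w (k, false)) * (1 + Q.w (k, true)) := by
  have h1 := w_nonneg Q (k, false)
  have h2 := w_nonneg Q (k, true)
  rw [cells, Finset.card_product, Int.card_Icc, Int.card_Icc]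
  push_cast
  rw [Int.toNat_of_nonneg (by omega), Int.toNat_of_nonneg (by omega)]
  ring

/-- `Q` is a tiling of the rectangle by monominoes and dominoes -/
structure Tl (p q : ℕ) (Q : Cube n) : Prop where
  rng : ∀ k, 1 ≤ Q.a (k, false) ∧ Q.a (k, false) + Q.w (k, false) ≤ p ∧
      1 ≤ Q.a (k, true) ∧ Q.a (k, true) + Q.w (k, true) ≤ q
  disj : ∀ k l u v, Cov Q k u v → Cov Q l u v → k = l
  full : ∀ u v : ℤ, 1 ≤ u → u ≤ p → 1 ≤ v → v ≤ q → ∃ k, Cov Q k u v
  thin : ∀ k, ¬ ((k, false) ∈ Q.s ∧ (k, true) ∈ Q.s)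

theorem card_s (Q : Cube n) : (Q.s.card : ℤ) = ∑ k, (Q.w (k, false) + Q.w (k, true)) := by
  have h1 : (Q.s.card : ℤ) = ∑ i : Fin n × Bool, Q.w i := by
    simp only [Cube.w]
    rw [Finset.sum_ite_mem, Finset.univ_inter]
    simp
  rw [h1, Fintype.sum_prod_type]
  refine Finset.sum_congr rfl fun k _ => ?_
  rw [Fintype.sum_bool, add_comm]

theorem area {Q : Cube n} (h : Q.set ⊆ Cfg n p q) :
    (n : ℤ) + Q.s.card + ∑ k, Q.w (k, false) * Q.w (k, true) =
      ((Finset.univ.biUnion (cells Q)).card : ℤ) ∧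
      Finset.univ.biUnion (cells Q) ⊆ Finset.Icc (1 : ℤ) p ×ˢ Finset.Icc (1 : ℤ) q := by
  constructor
  · rw [Finset.card_biUnion]
    · push_cast
      simp only [card_cells]
      have : ∀ k, (1 + Q.w (k, false)) * (1 + Q.w (k, true)) =
          1 + (Q.w (k, false) + Q.w (k, true)) + Q.w (k, false) * Q.w (k, true) := fun k => by ring
      simp only [this]
      rw [Finset.sum_add_distrib, Finset.sum_add_distrib, ← card_s]
      simp
    · intro k _ l _ hkl
      change Disjoint (cells Q k) (cells Q l)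
      rw [Finset.disjoint_left]
      intro c h1 h2
      exact hkl (disj h (mem_cells.1 h1) (mem_cells.1 h2))
  · intro c hc
    obtain ⟨k, -, hk⟩ := Finset.mem_biUnion.1 hc
    obtain ⟨k1, k2, k3, k4⟩ := mem_cells.1 hk
    obtain ⟨r1, r2, r3, r4⟩ := rng h k
    rw [Finset.mem_product, Finset.mem_Icc, Finset.mem_Icc]
    exact ⟨⟨by omega, by omega⟩, by omega, by omega⟩

theorem card_rect (p q : ℕ) : ((Finset.Icc (1 : ℤ) p ×ˢ Finset.Icc (1 : ℤ) q).card : ℤ) = p * q := by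
  rw [Finset.card_product, Int.card_Icc, Int.card_Icc]
  push_cast
  rw [Int.toNat_of_nonneg (by omega), Int.toNat_of_nonneg (by omega)]
  ring

theorem card_le {Q : Cube n} (h : Q.set ⊆ Cfg n p q) : n + Q.s.card ≤ p * q := by
  obtain ⟨h1, h2⟩ := area h
  have h3 := Finset.card_le_card h2
  have h4 := card_rect p q
  have h5 : 0 ≤ ∑ k, Q.w (k, false) * Q.w (k, true) :=
    Finset.sum_nonneg fun k _ => mul_nonneg (w_nonneg _ _) (w_nonneg _ _)
  have h6 : ((n + Q.s.card : ℕ) : ℤ) ≤ ((p * q : ℕ) : ℤ) := by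
    push_cast
    have : ((Finset.univ.biUnion (cells Q)).card : ℤ) ≤
        ((Finset.Icc (1 : ℤ) p ×ˢ Finset.Icc (1 : ℤ) q).card : ℤ) := by exact_mod_cast h3
    linarith
  exact_mod_cast h6

theorem tl_of {Q : Cube n} (h : Q.set ⊆ Cfg n p q) (hc : p * q ≤ n + Q.s.card) : Tl p q Q := by
  obtain ⟨h1, h2⟩ := area h
  have h3 := Finset.card_le_card h2
  have h4 := card_rect p q
  have h3' : ((Finset.univ.biUnion (cells Q)).card : ℤ) ≤
        ((Finset.Icc (1 : ℤ) p ×ˢ Finset.Icc (1 : ℤ) q).card : ℤ) := by exact_mod_cast h3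
  have h5 : ∀ k, 0 ≤ Q.w (k, false) * Q.w (k, true) := fun k => mul_nonneg (w_nonneg _ _) (w_nonneg _ _)
  have h5' : 0 ≤ ∑ k, Q.w (k, false) * Q.w (k, true) := Finset.sum_nonneg fun k _ => h5 k
  have hc' : (p : ℤ) * q ≤ n + Q.s.card := by exact_mod_cast hc
  have h6 : ∑ k, Q.w (k, false) * Q.w (k, true) = 0 := by linarith
  have h7 : Finset.univ.biUnion (cells Q) = Finset.Icc (1 : ℤ) p ×ˢ Finset.Icc (1 : ℤ) q := by
    apply Finset.eq_of_subset_of_card_le h2
    have : ((Finset.Icc (1 : ℤ) p ×ˢ Finset.Icc (1 : ℤ) q).card : ℤ) ≤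
        ((Finset.univ.biUnion (cells Q)).card : ℤ) := by linarith
    exact_mod_cast this
  refine ⟨fun k => rng h k, fun k l u v => disj h, ?_, ?_⟩
  · intro u v u1 u2 v1 v2
    have h8 : ((u, v) : ℤ × ℤ) ∈ Finset.univ.biUnion (cells Q) := by
      rw [h7, Finset.mem_product, Finset.mem_Icc, Finset.mem_Icc]
      exact ⟨⟨u1, u2⟩, v1, v2⟩
    obtain ⟨k, -, hk⟩ := Finset.mem_biUnion.1 h8
    exact ⟨k, mem_cells.1 hk⟩
  · rintro k ⟨k1, k2⟩
    have h8 := (Finset.sum_eq_zero_iff_of_nonneg fun k _ => h5 k).1 h6 k (Finset.mem_univ k)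
    simp only [Cube.w] at h8
    rw [if_pos k1, if_pos k2] at h8
    norm_num at h8

end Pool.Agent.H14.SQ
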