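import Pool.Agent.H14.SQ.A
import Pool.Agent.H14.SQ.B

/-!
# C: the pivot move
-/

set_option autoImplicit false

namespace Pool.Agent.H14.SQ

variable {n p q : ℕ}

theorem Cube.w_of_mem {Q : Cube n} {i : Fin n × Bool} (h : i ∈ Q.s) : Q.w i = 1 := if_pos h
theorem Cube.w_of_notMem {Q : Cube n} {i : Fin n × Bool} (h : i ∉ Q.s) : Q.w i = 0 := if_neg h

/-- the cell removed from the piece `i.1` in the face `(i, ε)`: coordinate `e` -/
def hole (σ : Cube n) (i : Fin n × Bool) (ε : Bool) (e : Bool) : ℤ :=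
  σ.a (i.1, e) + if e = i.2 ∧ ε = false then 1 else 0

theorem cov_iff {Q : Cube n} {k : Fin n} {c : Bool → ℤ} :
    Cov Q k (c false) (c true) ↔ ∀ e, Q.a (k, e) ≤ c e ∧ c e ≤ Q.a (k, e) + Q.w (k, e) := by
  unfold Cov
  constructor
  · rintro ⟨h1, h2, h3, h4⟩ e
    cases e
    · exact ⟨h1, h2⟩
    · exact ⟨h3, h4⟩
  · intro h
    exact ⟨(h false).1, (h false).2, (h true).1, (h true).2⟩

/-- the coordinates of the pieces in the face -/
theorem face_a (σ : Cube n) (i : Fin n × Bool) (ε : Bool) (j : Fin n × Bool) :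
    (σ.face i ε).a j = σ.a j + if j = i ∧ ε = true then 1 else 0 := by
  unfold Cube.face
  cases ε
  · simp
  · by_cases hj : j = i
    · subst hj; simp
    · simp [hj]

theorem face_s (σ : Cube n) (i : Fin n × Bool) (ε : Bool) : (σ.face i ε).s = σ.s.erase i := rfl

theorem hole_cov {σ : Cube n} {k : Fin n} {d : Bool} (hk : (k, d) ∈ σ.s) (ε : Bool) (e : Bool) :
    σ.a (k, e) ≤ hole σ (k, d) ε e ∧ hole σ (k, d) ε e ≤ σ.a (k, e) + σ.w (k, e) := by
  have h0 := w_nonneg σ (k, e)
  unfold hole
  simp only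
  split_ifs with h1
  · obtain ⟨h2, -⟩ := h1
    subst h2
    rw [Cube.w_of_mem hk]
    constructor <;> omega
  · constructor <;> omega

/-- the pivot move -/
theorem pivot {z : Cube n →₀ ℤ} (hz : bd z = 0) (hT : ∀ σ ∈ z.support, Tl p q σ) {σ : Cube n}
    (hσ : σ ∈ z.support) {k : Fin n} {d : Bool} (hk : (k, d) ∈ σ.s) (ε : Bool) :
    ∃ σ' ∈ z.support, ∃ k', k' ≠ k ∧ ∃ d' ε', (∀ e, (k', e) ∉ σ.s) ∧ (∀ e, (k, e) ∉ σ'.s) ∧
      σ'.s = insert (k', d') (σ.s.erase (k, d)) ∧
      (∀ j, σ'.a j = σ.a j + (if j = (k, d) ∧ ε = true then 1 else 0) -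
        (if j = (k', d') ∧ ε' = true then 1 else 0)) ∧
      ∀ e, σ.a (k, e) + (if e = d ∧ ε = false then 1 else 0) =
        σ.a (k', e) + (if e = d' then (if ε' = true then -1 else 1) else 0) := by
  obtain ⟨σ', hσ', hne, ⟨k', d'⟩, hi', ε', hf⟩ := other_coface hz hσ hk ε
  have hTσ := hT σ hσ
  have hTσ' := hT σ' hσ'
  have hs : σ'.s.erase (k', d') = σ.s.erase (k, d) := by
    rw [← face_s σ' (k', d') ε', hf, face_s]
  have ha : ∀ j, σ'.a j + (if j = (k', d') ∧ ε' = true then 1 else 0) =
      σ.a j + (if j = (k, d) ∧ ε = true then 1 else 0) := by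
    intro j
    rw [← face_a, hf, face_a]
  have hs' : σ'.s = insert (k', d') (σ.s.erase (k, d)) := by
    rw [← hs, Finset.insert_erase hi']
  have hsk : σ.s = insert (k, d) (σ.s.erase (k, d)) := (Finset.insert_erase hk).symm
  -- the new cell of `k'`
  obtain ⟨N, hN⟩ : ∃ N : Bool → ℤ, ∀ e, N e = hole σ' (k', d') ε' e := ⟨_, fun _ => rfl⟩
  -- the common position of `k'` in the face
  obtain ⟨H, hH⟩ : ∃ H : Bool → ℤ, ∀ e, H e = hole σ (k, d) ε e := ⟨_, fun _ => rfl⟩
  have hNcov : Cov σ' k' (N false) (N true) := cov_iff.2 fun e => by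
    rw [hN]; exact hole_cov hi' ε' e
  obtain ⟨r1, r2, r3, r4⟩ := hTσ'.rng k'
  obtain ⟨c1, c2, c3, c4⟩ := hNcov
  obtain ⟨l, hl⟩ := hTσ.full (N false) (N true) (by omega) (by omega) (by omega) (by omega)
  -- pieces other than `k`, `k'` are equal
  have hsame : ∀ m e, m ≠ k → m ≠ k' → σ'.a (m, e) = σ.a (m, e) ∧ σ'.w (m, e) = σ.w (m, e) := by
    intro m e h1 h2
    constructor
    · have := ha (m, e)
      rw [if_neg (fun h => h2 (congrArg Prod.fst h.1)), if_neg (fun h => h1 (congrArg Prod.fst h.1))] at this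
      simpa using this
    · unfold Cube.w
      have : (m, e) ∈ σ'.s ↔ (m, e) ∈ σ.s := by
        rw [hs', Finset.mem_insert, Finset.mem_erase]
        constructor
        · rintro (h | h)
          · exact absurd (congrArg Prod.fst h) h2
          · exact h.2
        · intro h
          exact Or.inr ⟨fun h' => h1 (congrArg Prod.fst h'), h⟩
      simp only [this]
  -- `k'` is a monomino in the face
  have hk'm : ∀ e, (k', e) ∉ σ.s.erase (k, d) := by
    intro e he
    rw [← hs] at he
    have h1 := Finset.mem_erase.1 he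
    have h2 : e ≠ d' := fun h => h1.1 (by rw [h])
    apply hTσ'.thin k'
    cases e <;> cases d' <;> first | exact absurd rfl h2 | exact ⟨h1.2, hi'⟩ | exact ⟨hi', h1.2⟩
  have hkm : ∀ e, (k, e) ∉ σ.s.erase (k, d) := by
    intro e he
    have h1 := Finset.mem_erase.1 he
    have h2 : e ≠ d := fun h => h1.1 (by rw [h])
    apply hTσ.thin k
    cases e <;> cases d <;> first | exact absurd rfl h2 | exact ⟨h1.2, hk⟩ | exact ⟨hk, h1.2⟩
  have hNa : ∀ e, N e = σ'.a (k', e) + if e = d' ∧ ε' = false then 1 else 0 := fun e => by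
    rw [hN]; rfl
  have hHa : ∀ e, H e = σ.a (k, e) + if e = d ∧ ε = false then 1 else 0 := fun e => by
    rw [hH]; rfl
  have hk'a : k' ≠ k → ∀ e, σ'.a (k', e) = σ.a (k', e) - if e = d' ∧ ε' = true then 1 else 0 := by
    intro h e
    have h1 := ha (k', e)
    have h2 : ¬ ((k', e) = (k, d) ∧ ε = true) := fun h3 => h (congrArg Prod.fst h3.1)
    rw [if_neg h2, add_zero] at h1
    have h3 : ((k', e) = (k', d') ∧ ε' = true) ↔ (e = d' ∧ ε' = true) := by
      simp
    simp only [h3] at h1
    omega
  have hka : k' ≠ k → ∀ e, σ'.a (k, e) = σ.a (k, e) + if e = d ∧ ε = true then 1 else 0 := by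
    intro h e
    have h1 := ha (k, e)
    have h2 : ¬ ((k, e) = (k', d') ∧ ε' = true) := fun h3 => h (congrArg Prod.fst h3.1).symm
    rw [if_neg h2, add_zero] at h1
    have h3 : ((k, e) = (k, d) ∧ ε = true) ↔ (e = d ∧ ε = true) := by
      simp
    simp only [h3] at h1
    exact h1
  have hk'σ : k' ≠ k → ∀ e, (k', e) ∉ σ.s := fun h e he =>
    hk'm e (Finset.mem_erase.2 ⟨fun h3 => h (congrArg Prod.fst h3), he⟩)
  have hkσ' : k' ≠ k → ∀ e, (k, e) ∉ σ'.s := by
    intro h e he
    rw [hs', Finset.mem_insert] at he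
    rcases he with he | he
    · exact h (congrArg Prod.fst he).symm
    · exact hkm e he
  have hNcov' : ∀ e, σ'.a (k', e) ≤ N e ∧ N e ≤ σ'.a (k', e) + σ'.w (k', e) := by
    intro e; rw [hN]; exact hole_cov hi' ε' e
  have hl' := cov_iff.1 hl
  have hNH : ∀ e, N e = H e := by
    by_cases hlk : l = k
    · subst hlk
      have h1 : ∀ e, e ≠ d → N e = σ.a (l, e) := by
        intro e he
        have h2 : (l, e) ∉ σ.s := fun h3 => hkm e (Finset.mem_erase.2 ⟨fun h4 => he (congrArg Prod.snd h4), h3⟩)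
        have h3 := hl' e
        rw [Cube.w_of_notMem h2] at h3
        omega
      have h2 := hl' d
      rw [Cube.w_of_mem hk] at h2
      by_contra hcon
      have h3 : N d ≠ H d := by
        intro h3
        apply hcon
        intro e
        by_cases he : e = d
        · rw [he, h3]
        · rw [h1 e he, hHa, if_neg (fun h4 => he h4.1), add_zero]
      have h4 : N d = σ.a (l, d) + if ε = true then 1 else 0 := by
        rw [hHa] at h3
        cases ε
        · simp at h3 ⊢
          omega
        · simp at h3 ⊢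
          omega
      have h5 : ∀ e, N e = σ.a (l, e) + if e = d ∧ ε = true then 1 else 0 := by
        intro e
        by_cases he : e = d
        · subst he
          rw [h4]
          simp
        · rw [h1 e he, if_neg (fun h4 => he h4.1), add_zero]
      by_cases hkk : k' = l
      · subst hkk
        have h6 := ha (k', d')
        have h7 := h5 d'
        rw [hNa] at h7
        have h8 : ((k', d') = (k', d) ∧ ε = true) ↔ (d' = d ∧ ε = true) := by simp
        simp only [h8] at h6
        cases ε' <;> simp at h6 h7 <;> omega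
      · apply hkk
        refine hTσ'.disj k' l (N false) (N true) ⟨c1, c2, c3, c4⟩ (cov_iff.2 fun e => ?_)
        rw [hka hkk, Cube.w_of_notMem (hkσ' hkk e), h5]
        constructor <;> omega
    · exfalso
      by_cases hlk' : l = k'
      · subst hlk'
        have h1 := hl' d'
        rw [Cube.w_of_notMem (hk'σ hlk d')] at h1
        have h2 := hk'a hlk d'
        have h3 := hNa d'
        cases ε' <;> simp at h2 h3 <;> omega
      · apply hlk'
        refine hTσ'.disj l k' (N false) (N true) (cov_iff.2 fun e => ?_) ⟨c1, c2, c3, c4⟩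
        rw [(hsame l e hlk hlk').1, (hsame l e hlk hlk').2]
        exact hl' e
  have hkk : k' ≠ k := by
    rintro rfl
    apply hne
    have h1 : ∀ e, σ'.a (k', e) + (if e = d' ∧ ε' = true then 1 else 0) =
        σ.a (k', e) + (if e = d ∧ ε = true then 1 else 0) := by
      intro e
      have := ha (k', e)
      simpa using this
    have h2 : d' = d := by
      by_contra hdd
      have h3 := hNH d
      have h4 := h1 d
      rw [hNa, hHa] at h3
      have h5 : d ≠ d' := fun h => hdd h.symm
      cases ε <;> simp [h5] at h3 h4 <;> omega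
    subst h2
    have h3 := hNH d'
    have h4 := h1 d'
    rw [hNa, hHa] at h3
    have h5 : ε' = ε := by
      cases ε <;> cases ε' <;> simp at h3 h4 ⊢ <;> omega
    subst h5
    apply Cube.ext
    · funext j
      have := ha j
      omega
    · rw [hs', Finset.insert_erase hk]
  refine ⟨σ', hσ', k', hkk, d', ε', hk'σ hkk, hkσ' hkk, hs', ?_, ?_⟩
  · intro j
    have := ha j
    omega
  · intro e
    have h1 := hNH e
    rw [hNa, hHa, hk'a hkk] at h1
    rw [← h1]
    cases ε' <;> by_cases he : e = d' <;> simp [he] <;> ring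

end Pool.Agent.H14.SQ
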