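import Pool.Agent.H14.SQ.C

/-!
# D: the extremal tiling
-/

set_option autoImplicit false

namespace Pool.Agent.H14.SQ

variable {n p q : ℕ}

/-- twice the sum of the `e`-coordinates of the centres of the pieces -/
def Z (e : Bool) (σ : Cube n) : ℤ := ∑ k, (2 * σ.a (k, e) + σ.w (k, e))

/-- the conclusion of `pivot` -/
structure Pv (σ σ' : Cube n) (k : Fin n) (d : Bool) (ε : Bool) (k' : Fin n) (d' ε' : Bool) : Prop where
  ne : k' ≠ k
  mono : ∀ e, (k', e) ∉ σ.s
  mono' : ∀ e, (k, e) ∉ σ'.s
  s_eq : σ'.s = insert (k', d') (σ.s.erase (k, d))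
  a_eq : ∀ j, σ'.a j = σ.a j + (if j = (k, d) ∧ ε = true then 1 else 0) -
        (if j = (k', d') ∧ ε' = true then 1 else 0)
  pos : ∀ e, σ.a (k, e) + (if e = d ∧ ε = false then 1 else 0) =
        σ.a (k', e) + (if e = d' then (if ε' = true then -1 else 1) else 0)

theorem pivot' {z : Cube n →₀ ℤ} (hz : bd z = 0) (hT : ∀ σ ∈ z.support, Tl p q σ) {σ : Cube n}
    (hσ : σ ∈ z.support) {k : Fin n} {d : Bool} (hk : (k, d) ∈ σ.s) (ε : Bool) :
    ∃ σ' ∈ z.support, ∃ k' d' ε', Pv σ σ' k d ε k' d' ε' := by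
  obtain ⟨σ', h1, k', h2, d', ε', h3, h4, h5, h6, h7⟩ := pivot hz hT hσ hk ε
  exact ⟨σ', h1, k', d', ε', h2, h3, h4, h5, h6, h7⟩

theorem Pv.same {σ σ' : Cube n} {k : Fin n} {d ε : Bool} {k' : Fin n} {d' ε' : Bool}
    (h : Pv σ σ' k d ε k' d' ε') {m : Fin n} (h1 : m ≠ k) (h2 : m ≠ k') (e : Bool) :
    σ'.a (m, e) = σ.a (m, e) ∧ ((m, e) ∈ σ'.s ↔ (m, e) ∈ σ.s) := by
  constructor
  · rw [h.a_eq, if_neg (fun h3 => h1 (congrArg Prod.fst h3.1)),
      if_neg (fun h3 => h2 (congrArg Prod.fst h3.1))]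
    ring
  · rw [h.s_eq, Finset.mem_insert, Finset.mem_erase]
    constructor
    · rintro (h3 | h3)
      · exact absurd (congrArg Prod.fst h3) h2
      · exact h3.2
    · intro h3
      exact Or.inr ⟨fun h' => h1 (congrArg Prod.fst h'), h3⟩

theorem Pv.mem {σ σ' : Cube n} {k : Fin n} {d ε : Bool} {k' : Fin n} {d' ε' : Bool}
    (h : Pv σ σ' k d ε k' d' ε') : (k', d') ∈ σ'.s := by
  rw [h.s_eq]; exact Finset.mem_insert_self _ _

theorem Pv.mem_iff {σ σ' : Cube n} {k : Fin n} {d ε : Bool} {k' : Fin n} {d' ε' : Bool}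
    (h : Pv σ σ' k d ε k' d' ε') (e : Bool) : (k', e) ∈ σ'.s ↔ e = d' := by
  rw [h.s_eq, Finset.mem_insert, Finset.mem_erase]
  constructor
  · rintro (h3 | h3)
    · exact congrArg Prod.snd h3
    · exact absurd h3.2 (h.mono e)
  · rintro rfl
    exact Or.inl rfl

/-- the change of `Z` in a pivot move -/
theorem Pv.Z_eq {σ σ' : Cube n} (hT : Tl p q σ) {k : Fin n} {d ε : Bool} {k' : Fin n} {d' ε' : Bool}
    (hk : (k, d) ∈ σ.s) (h : Pv σ σ' k d ε k' d' ε') (e : Bool) :
    Z e σ' - Z e σ = (if e = d then (if ε = true then 1 else -1) else 0) +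
      (if e = d' then (if ε' = true then -1 else 1) else 0) := by
  unfold Z
  rw [← Finset.sum_sub_distrib, Finset.sum_eq_add k k' (Ne.symm h.ne)]
  · congr 1
    · have h1 := h.a_eq (k, e)
      rw [if_neg (fun h3 : (k, e) = (k', d') ∧ ε' = true => h.ne (congrArg Prod.fst h3.1).symm)] at h1
      have h2 : σ'.w (k, e) = 0 := Cube.w_of_notMem (h.mono' e)
      by_cases he : e = d
      · subst he
        rw [h1, h2, Cube.w_of_mem hk]
        cases ε <;> simp <;> ring
      · have h3 : (k, e) ∉ σ.s := by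
          intro h3
          apply hT.thin k
          cases e <;> cases d <;> first | exact absurd rfl he | exact ⟨h3, hk⟩ | exact ⟨hk, h3⟩
        rw [h1, h2, Cube.w_of_notMem h3]
        simp [he]
    · have h1 := h.a_eq (k', e)
      rw [if_neg (fun h3 : (k', e) = (k, d) ∧ ε = true => h.ne (congrArg Prod.fst h3.1))] at h1
      have h2 : σ.w (k', e) = 0 := Cube.w_of_notMem (h.mono e)
      by_cases he : e = d'
      · subst he
        rw [h1, h2, Cube.w_of_mem h.mem]
        cases ε' <;> simp <;> ring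
      · have h3 : (k', e) ∉ σ'.s := fun h3 => he ((h.mem_iff e).1 h3)
        rw [h1, h2, Cube.w_of_notMem h3]
        simp [he]
  · intro m _ ⟨h1, h2⟩
    obtain ⟨h3, h4⟩ := h.same h1 h2 e
    unfold Cube.w
    simp only [h3, h4, sub_self]
  · intro h1; exact absurd (Finset.mem_univ _) h1
  · intro h1; exact absurd (Finset.mem_univ _) h1

/-- the cell `(u, v)` is a monomino -/
def Mono (σ : Cube n) (u v : ℤ) : Prop :=
  ∃ l, σ.a (l, false) = u ∧ σ.a (l, true) = v ∧ ∀ e, (l, e) ∉ σ.s

/-- two pieces with a common cell are equal -/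
theorem Tl.eq_of {σ : Cube n} (h : Tl p q σ) {k l : Fin n} (u v : ℤ)
    (h1 : σ.a (k, false) ≤ u) (h2 : u ≤ σ.a (k, false) + σ.w (k, false))
    (h3 : σ.a (k, true) ≤ v) (h4 : v ≤ σ.a (k, true) + σ.w (k, true))
    (h5 : σ.a (l, false) ≤ u) (h6 : u ≤ σ.a (l, false) + σ.w (l, false))
    (h7 : σ.a (l, true) ≤ v) (h8 : v ≤ σ.a (l, true) + σ.w (l, true)) : k = l :=
  h.disj k l u v ⟨h1, h2, h3, h4⟩ ⟨h5, h6, h7, h8⟩

section
variable {z : Cube n →₀ ℤ} (hz : bd z = 0) (hT : ∀ σ ∈ z.support, Tl p q σ)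
include hz hT

/-- no horizontal dominoes -/
theorem no_hor {σ : Cube n} (hσ : σ ∈ z.support) (hmin : ∀ σ' ∈ z.support, Z false σ ≤ Z false σ')
    (k : Fin n) : (k, false) ∉ σ.s := by
  intro hk
  obtain ⟨σ', hσ', k', d', ε', hP⟩ := pivot' hz hT hσ hk false
  have h1 := hP.Z_eq (hT σ hσ) hk false
  have h2 := hmin σ' hσ'
  have h3 := hP.pos false
  have h4 := hP.pos true
  have hd : d' = false ∧ ε' = false := by
    cases d' <;> cases ε' <;> simp at h1 ⊢ <;> omega
  obtain ⟨rfl, rfl⟩ := hd
  simp at h3 h4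
  have w0 := w_nonneg σ (k, false)
  have w1 := w_nonneg σ (k, true)
  have w2 := w_nonneg σ (k', false)
  have w3 := w_nonneg σ (k', true)
  exact hP.ne ((hT σ hσ).eq_of (σ.a (k, false)) (σ.a (k, true)) (by omega) (by omega) (by omega)
    (by omega) (by omega) (by omega) (by omega) (by omega))

/-- the left neighbour of the top of a vertical domino -/
theorem top_left {σ : Cube n} (hσ : σ ∈ z.support) (hmin : ∀ σ' ∈ z.support, Z false σ ≤ Z false σ')
    (hmin2 : ∀ σ' ∈ z.support, Z false σ' = Z false σ → Z true σ ≤ Z true σ')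
    {k : Fin n} (hk : (k, true) ∈ σ.s) : Mono σ (σ.a (k, false) - 1) (σ.a (k, true) + 1) := by
  obtain ⟨σ', hσ', k', d', ε', hP⟩ := pivot' hz hT hσ hk false
  have h1 := hP.Z_eq (hT σ hσ) hk false
  have h1' := hP.Z_eq (hT σ hσ) hk true
  have h2 := hmin σ' hσ'
  have h2' := hmin2 σ' hσ'
  have h3 := hP.pos false
  have h4 := hP.pos true
  have w0 := w_nonneg σ (k, false)
  have w1 := w_nonneg σ (k, true)
  have w2 := w_nonneg σ (k', false)
  have w3 := w_nonneg σ (k', true)
  have hd : d' = false ∧ ε' = false := by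
    cases d'
    · refine ⟨rfl, ?_⟩
      cases ε'
      · rfl
      · simp at h1
        omega
    · exfalso
      simp at h1
      have h5 := h2' (by omega)
      cases ε'
      · simp at h3 h4
        exact hP.ne ((hT σ hσ).eq_of (σ.a (k, false)) (σ.a (k, true)) (by omega) (by omega) (by omega)
          (by omega) (by omega) (by omega) (by omega) (by omega))
      · simp at h1'
        omega
  obtain ⟨rfl, rfl⟩ := hd
  simp at h3 h4
  exact ⟨k', by omega, by omega, hP.mono⟩

/-- below a vertical domino there is a column of monominoes down to a cell whose left neighbour is a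
monomino -/
theorem bot_left {σ : Cube n} (hσ : σ ∈ z.support) (hmin : ∀ σ' ∈ z.support, Z false σ ≤ Z false σ')
    {k : Fin n} (hk : (k, true) ∈ σ.s) :
    ∃ i : ℕ, (∀ j : ℕ, 1 ≤ j → j ≤ i → Mono σ (σ.a (k, false)) (σ.a (k, true) - j)) ∧
      Mono σ (σ.a (k, false) - 1) (σ.a (k, true) - i) := by
  obtain ⟨u, hu⟩ : ∃ u, u = σ.a (k, false) := ⟨_, rfl⟩
  obtain ⟨v, hv⟩ : ∃ v, v = σ.a (k, true) := ⟨_, rfl⟩
  rw [← hu, ← hv]
  by_contra hcon
  push Not at hcon
  have key : ∀ i : ℕ, ∃ τ ∈ z.support, ∃ m, Z false τ = Z false σ ∧ (m, true) ∈ τ.s ∧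
      τ.a (m, false) = u ∧ τ.a (m, true) = v - i ∧
      (∀ x y : ℤ, ¬ (x = u ∧ v - i ≤ y ∧ y ≤ v + 1) → Mono τ x y → Mono σ x y) ∧
      ∀ j : ℕ, 1 ≤ j → j ≤ i → Mono σ u (v - j) := by
    intro i
    induction i with
    | zero =>
      exact ⟨σ, hσ, k, rfl, hk, hu.symm, by rw [hv]; simp, fun x y _ h => h, fun j h1 h2 => by omega⟩
    | succ i ih =>
      obtain ⟨τ, hτ, m, hZ, hm, hmu, hmv, hM, hj⟩ := ih
      obtain ⟨σ', hσ', k', d', ε', hP⟩ := pivot' hz hT hτ hm true
      have h1 := hP.Z_eq (hT τ hτ) hm false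
      have h2 := hmin σ' hσ'
      have h3 := hP.pos false
      have h4 := hP.pos true
      have w0 := w_nonneg τ (m, false)
      have w1 := w_nonneg τ (m, true)
      have w2 := w_nonneg τ (k', false)
      have w3 := w_nonneg τ (k', true)
      have wm : τ.w (m, true) = 1 := Cube.w_of_mem hm
      cases d'
      · exfalso
        have hε : ε' = false := by
          cases ε'
          · rfl
          · simp at h1
            omega
        subst hε
        simp at h3 h4
        refine hcon i hj (hM _ _ (by omega) ⟨k', by omega, by omega, hP.mono⟩)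
      · simp at h1
        have hε : ε' = false := by
          cases ε'
          · rfl
          · exfalso
            simp at h3 h4
            exact hP.ne ((hT τ hτ).eq_of (τ.a (m, false)) (τ.a (m, true) + 1) (by omega) (by omega) (by omega)
              (by omega) (by omega) (by omega) (by omega) (by omega))
        subst hε
        simp at h3 h4
        have hk'u : τ.a (k', false) = u := by omega
        have hk'v : τ.a (k', true) = v - (i + 1 : ℕ) := by push_cast; omega
        have hnew : Mono σ u (v - (i + 1 : ℕ)) := by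
          refine hM _ _ (by push_cast; omega) ⟨k', hk'u, hk'v, hP.mono⟩
        have hMnew : ∀ e, σ'.a (k', e) = τ.a (k', e) := by
          intro e
          rw [hP.a_eq, if_neg (fun h3 => hP.ne (congrArg Prod.fst h3.1)), if_neg (fun h3 => by simp at h3)]
          ring
        refine ⟨σ', hσ', k', by omega, hP.mem, by rw [hMnew, hk'u], by rw [hMnew, hk'v], ?_, ?_⟩
        · rintro x y hxy ⟨l, l1, l2, l3⟩
          have hlk' : l ≠ k' := fun h => l3 true (h ▸ hP.mem)
          have hlm : l ≠ m := by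
            rintro rfl
            have a1 := hP.a_eq (l, false)
            have a2 := hP.a_eq (l, true)
            simp [hlk'] at a1 a2
            apply hxy
            push_cast
            omega
          refine hM x y (by push_cast at hxy; omega) ⟨l, ?_, ?_, fun e he => l3 e ?_⟩
          · rw [← (hP.same hlm hlk' false).1, l1]
          · rw [← (hP.same hlm hlk' true).1, l2]
          · exact (hP.same hlm hlk' e).2.2 he
        · intro j j1 j2
          rcases Nat.lt_or_ge i j with h5 | h5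
          · obtain rfl : j = i + 1 := by omega
            exact hnew
          · exact hj j j1 h5
  obtain ⟨τ, hτ, m, -, -, -, hmv, -, -⟩ := key v.toNat
  have h1 := ((hT τ hτ).rng m).2.2.1
  have h2 := Int.self_le_toNat v
  omega

end

end Pool.Agent.H14.SQ
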