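import Mathlib

/-!
# MP_2fbb8b: the cubical complex of hard squares in a rectangle

A point of `(ℝ²)ⁿ` is a function `z` on `Fin n × Bool`, with `x_k = z (k, false)` and `y_k = z (k, true)`.
-/

set_option autoImplicit false

namespace Pool.Agent.H14.SQ

/-- The configuration space `C(n; p, q)` of `n` labelled unit squares in a `p × q` rectangle. -/
def Cfg (n p q : ℕ) : Set (Fin n × Bool → ℝ) :=
  {z | (∀ k, 1 ≤ z (k, false) ∧ z (k, false) ≤ p ∧ 1 ≤ z (k, true) ∧ z (k, true) ≤ q) ∧
    ∀ k l, k ≠ l → 1 ≤ |z (k, false) - z (l, false)| ∨ 1 ≤ |z (k, true) - z (l, true)|}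

/-- An elementary cube of `(ℝ²)ⁿ` with integer vertices: its least vertex `a` and the set `s` of the
coordinates in which it has length `1` (it has length `0` in the other coordinates). -/
@[ext] structure Cube (n : ℕ) where
  /-- the least vertex -/
  a : Fin n × Bool → ℤ
  /-- the coordinates of length `1` -/
  s : Finset (Fin n × Bool)
deriving DecidableEq

variable {n : ℕ}

/-- the length of `Q` in the coordinate `i` -/
def Cube.w (Q : Cube n) (i : Fin n × Bool) : ℤ := if i ∈ Q.s then 1 else 0

/-- the points of the cube `Q` -/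
def Cube.set (Q : Cube n) : Set (Fin n × Bool → ℝ) :=
  {z | ∀ i, (Q.a i : ℝ) ≤ z i ∧ z i ≤ Q.a i + Q.w i}

/-- the face of `Q` in which the coordinate `i` is `a i + 1` (`ε = true`) or `a i` (`ε = false`) -/
def Cube.face (Q : Cube n) (i : Fin n × Bool) (ε : Bool) : Cube n :=
  ⟨if ε then Function.update Q.a i (Q.a i + 1) else Q.a, Q.s.erase i⟩

/-- the order of the coordinates: `x₁, y₁, x₂, y₂, …` -/
def ord (i : Fin n × Bool) : ℕ := 2 * (i.1 : ℕ) + (if i.2 then 1 else 0)

/-- the sign of the coordinate `i` in the boundary of a cube with set of coordinates `s` -/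
def sgn (s : Finset (Fin n × Bool)) (i : Fin n × Bool) : ℤ :=
  (-1) ^ (s.filter fun j => ord j < ord i).card

/-- the cubical boundary of a cube -/
noncomputable def bdCube (Q : Cube n) : Cube n →₀ ℤ :=
  ∑ i ∈ Q.s, sgn Q.s i • (Finsupp.single (Q.face i true) 1 - Finsupp.single (Q.face i false) 1)

/-- the cubical boundary of a chain -/
noncomputable def bd (z : Cube n →₀ ℤ) : Cube n →₀ ℤ := z.sum fun Q c => c • bdCube Q

/-- `z` is a chain of dimension `j` of the cubical complex of the cubes contained in `C(n; p, q)` -/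
def IsChain (p q j : ℕ) (z : Cube n →₀ ℤ) : Prop :=
  ∀ Q ∈ z.support, Q.set ⊆ Cfg n p q ∧ Q.s.card = j

/-- the `j`-th integral homology group of the cubical complex of the cubes contained in `C(n; p, q)`
is not zero -/
def HomologyNonzero (n p q j : ℕ) : Prop :=
  ∃ z : Cube n →₀ ℤ, IsChain p q j z ∧ bd z = 0 ∧ ¬ ∃ w : Cube n →₀ ℤ, IsChain p q (j + 1) w ∧ bd w = z

end Pool.Agent.H14.SQ
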