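import Pool.Agent.H14.SQ.D

/-!
# E: counting the monominoes of the extremal tiling
-/

set_option autoImplicit false

namespace Pool.Agent.H14.SQ

variable {n p q : ℕ}

theorem not_mono {σ : Cube n} (hT : Tl p q σ) {k : Fin n} (hk : (k, true) ∈ σ.s) {y : ℤ}
    (h1 : σ.a (k, true) ≤ y) (h2 : y ≤ σ.a (k, true) + 1) : ¬ Mono σ (σ.a (k, false)) y := by
  rintro ⟨l, l1, l2, l3⟩
  have w0 := w_nonneg σ (k, false)
  have w1 : σ.w (k, true) = 1 := Cube.w_of_mem hk
  have w2 := w_nonneg σ (l, false)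
  have w3 := w_nonneg σ (l, true)
  have h3 : k = l := hT.eq_of (σ.a (k, false)) y (by omega) (by omega) (by omega) (by omega)
    (by omega) (by omega) (by omega) (by omega)
  subst h3
  exact l3 true hk

theorem base_inj {σ : Cube n} (hT : Tl p q σ) {k l : Fin n} (h1 : σ.a (k, false) = σ.a (l, false))
    (h2 : σ.a (k, true) = σ.a (l, true)) : k = l := by
  have w0 := w_nonneg σ (k, false)
  have w1 := w_nonneg σ (k, true)
  have w2 := w_nonneg σ (l, false)
  have w3 := w_nonneg σ (l, true)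
  exact hT.eq_of (σ.a (k, false)) (σ.a (k, true)) (by omega) (by omega) (by omega) (by omega)
    (by omega) (by omega) (by omega) (by omega)

theorem main {z : Cube n →₀ ℤ} (hz : bd z = 0) (hT : ∀ σ ∈ z.support, Tl p q σ) (h0 : z ≠ 0) :
    ∃ σ ∈ z.support, 3 * σ.s.card ≤ n := by
  classical
  obtain ⟨σ, hσ, hmin⟩ := Finset.exists_min_image z.support
    (fun σ => toLex (Z false σ, Z true σ)) (Finsupp.support_nonempty_iff.2 h0)
  refine ⟨σ, hσ, ?_⟩
  have hm1 : ∀ σ' ∈ z.support, Z false σ ≤ Z false σ' := by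
    intro σ' h'
    have := hmin σ' h'
    rw [Prod.Lex.toLex_le_toLex] at this
    rcases this with h | ⟨h, -⟩
    · exact h.le
    · exact h.le
  have hm2 : ∀ σ' ∈ z.support, Z false σ' = Z false σ → Z true σ ≤ Z true σ' := by
    intro σ' h' heq
    have := hmin σ' h'
    rw [Prod.Lex.toLex_le_toLex] at this
    rcases this with h | ⟨-, h⟩
    · simp only at h
      omega
    · exact h
  have hTσ := hT σ hσ
  have hnh : ∀ k, (k, false) ∉ σ.s := fun k => no_hor hz hT hσ hm1 k
  obtain ⟨Dm, hDm⟩ : ∃ Dm : Finset (Fin n), Dm = Finset.univ.filter fun k => (k, true) ∈ σ.s := ⟨_, rfl⟩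
  obtain ⟨Mn, hMn⟩ : ∃ Mn : Finset (Fin n), Mn = Finset.univ.filter fun k => (k, true) ∉ σ.s := ⟨_, rfl⟩
  have hD : ∀ k, k ∈ Dm ↔ (k, true) ∈ σ.s := fun k => by simp [hDm]
  have hM : ∀ k, k ∈ Mn ↔ (k, true) ∉ σ.s := fun k => by simp [hMn]
  have hcard : Dm.card + Mn.card = n := by
    rw [hDm, hMn, Finset.card_filter_add_card_filter_not]
    simp
  have hcs : σ.s.card = Dm.card := by
    have h1 := card_s σ
    have h2 : ∀ k, σ.w (k, false) = 0 := fun k => Cube.w_of_notMem (hnh k)
    simp only [h2, zero_add] at h1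
    have h3 : ∑ k, σ.w (k, true) = (Dm.card : ℤ) := by
      rw [hDm, Finset.card_filter]
      push_cast
      rfl
    rw [h3] at h1
    exact_mod_cast h1
  choose T hT1 hT2 hT3 using fun k : Dm => top_left hz hT hσ hm1 hm2 ((hD k).1 k.2)
  choose i hcol B hB1 hB2 hB3 using fun k : Dm => bot_left hz hT hσ hm1 ((hD k).1 k.2)
  have hbb : ∀ k l : Dm, σ.a (k, true) < σ.a (l, true) → B k ≠ B l := by
    intro k l hlt h
    have e1 := hB1 k
    have e2 := hB2 k
    have e3 := hB1 l
    have e4 := hB2 l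
    rw [h] at e1 e2
    obtain ⟨j, hj⟩ : ∃ j : ℕ, (j : ℤ) = σ.a (l, true) - σ.a (k, true) :=
      ⟨(σ.a (l, true) - σ.a (k, true)).toNat, Int.toNat_of_nonneg (by omega)⟩
    have h1 := hcol l j (by omega) (by omega)
    have h2 : σ.a (l, false) = σ.a (k, false) := by omega
    have h3 : σ.a (l, true) - j = σ.a (k, true) := by omega
    rw [h2, h3] at h1
    exact not_mono hTσ ((hD k).1 k.2) (by omega) (by omega) h1
  have htb : ∀ k l : Dm, T k ≠ B l := by
    intro k l h
    have e1 := hT1 k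
    have e2 := hT2 k
    have e3 := hB1 l
    have e4 := hB2 l
    rw [h] at e1 e2
    rcases Nat.eq_zero_or_pos (i l) with h5 | h5
    · rw [h5] at e4
      have w0 := w_nonneg σ ((k : Fin n), false)
      have w1 : σ.w ((k : Fin n), true) = 1 := Cube.w_of_mem ((hD k).1 k.2)
      have w2 := w_nonneg σ ((l : Fin n), false)
      have w3 := w_nonneg σ ((l : Fin n), true)
      have h6 : (k : Fin n) = l := hTσ.eq_of (σ.a (k, false)) (σ.a (k, true) + 1) (by omega) (by omega)
        (by omega) (by omega) (by omega) (by omega) (by omega) (by omega)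
      rw [h6] at e2
      omega
    · have h1 := hcol l (i l) h5 le_rfl
      have h2 : σ.a (l, false) = σ.a (k, false) := by omega
      have h3 : σ.a (l, true) - i l = σ.a (k, true) + 1 := by omega
      rw [h2, h3] at h1
      exact not_mono hTσ ((hD k).1 k.2) (by omega) (by omega) h1
  have hinj : Function.Injective (fun x : Dm × Bool =>
      (if x.2 = true then (⟨T x.1, (hM _).2 (hT3 x.1 true)⟩ : Mn) else ⟨B x.1, (hM _).2 (hB3 x.1 true)⟩)) := by
    rintro ⟨k, e⟩ ⟨l, e'⟩ h
    cases e <;> cases e'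
    · have h1 : B k = B l := by simpa using h
      congr 1
      rcases lt_trichotomy (σ.a (k, true)) (σ.a (l, true)) with h2 | h2 | h2
      · exact absurd h1 (hbb k l h2)
      · apply Subtype.ext
        apply base_inj hTσ _ h2
        have e1 := hB1 k
        have e2 := hB1 l
        rw [h1] at e1
        omega
      · exact absurd h1.symm (hbb l k h2)
    · have h1 : B k = T l := by simpa using h
      exact absurd h1.symm (htb l k)
    · have h1 : T k = B l := by simpa using h
      exact absurd h1 (htb k l)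
    · have h1 : T k = T l := by simpa using h
      congr 1
      apply Subtype.ext
      have e1 := hT1 k
      have e2 := hT1 l
      have e3 := hT2 k
      have e4 := hT2 l
      rw [h1] at e1 e3
      exact base_inj hTσ (by omega) (by omega)
  have h1 := Fintype.card_le_of_injective _ hinj
  rw [Fintype.card_prod, Fintype.card_coe, Fintype.card_coe, Fintype.card_bool] at h1
  omega

/-- the bound for a non-zero cycle of dimension `j ≥ pq - n` -/
theorem bound {j : ℕ} {z : Cube n →₀ ℤ} (hz : bd z = 0) (hc : IsChain p q j z) (h0 : z ≠ 0)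
    (hj : p * q ≤ n + j) : n + j = p * q ∧ 4 * j ≤ p * q := by
  have hT : ∀ σ ∈ z.support, Tl p q σ := fun σ hσ => tl_of (hc σ hσ).1 (by rw [(hc σ hσ).2]; exact hj)
  obtain ⟨σ, hσ, h1⟩ := main hz hT h0
  have h2 := card_le (hc σ hσ).1
  rw [(hc σ hσ).2] at h1 h2
  omega

theorem real_bound {n p q j : ℕ} (hp : 0 < p) (hq : 0 < q) (h1 : n + j = p * q) (h2 : 4 * j ≤ p * q) :
    (j : ℝ) / (p * q) ≤ min ((n : ℝ) / (p * q) - 8 / 9 * ((n : ℝ) / (p * q)) ^ 2)
      (min (1 - (n : ℝ) / (p * q)) (1 / 4)) := by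
  have hA : (0 : ℝ) < p * q := by positivity
  obtain ⟨A, hAe⟩ : ∃ A : ℝ, A = p * q := ⟨_, rfl⟩
  rw [← hAe] at hA ⊢
  have h3 : (n : ℝ) + j = A := by rw [hAe]; exact_mod_cast h1
  have h4 : 4 * (j : ℝ) ≤ A := by rw [hAe]; exact_mod_cast h2
  have h5 : (n : ℝ) / A = 1 - j / A := by
    rw [eq_sub_iff_add_eq, ← add_div, h3, div_self hA.ne']
  have h6 : (j : ℝ) / A ≤ 1 / 4 := by
    rw [div_le_div_iff₀ hA (by norm_num)]
    linarith
  have h7 : 0 ≤ (j : ℝ) / A := by positivity
  rw [h5]
  refine le_min ?_ (le_min ?_ h6)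
  · nlinarith
  · linarith

end Pool.Agent.H14.SQ
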