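import Pool.Agent.H14.SQ.C

/-!
# G1: cubes contained in `C(n; p, q)`; pieces which can be extended to the right
-/

set_option autoImplicit false

namespace Pool.Agent.H14.SQ

variable {n p q : ℕ}

/-- `Q` is a packing of the rectangle -/
structure Pk (p q : ℕ) (Q : Cube n) : Prop where
  rng : ∀ k, 1 ≤ Q.a (k, false) ∧ Q.a (k, false) + Q.w (k, false) ≤ p ∧
      1 ≤ Q.a (k, true) ∧ Q.a (k, true) + Q.w (k, true) ≤ q
  disj : ∀ k l u v, Cov Q k u v → Cov Q l u v → k = l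

theorem inX_iff {Q : Cube n} : Q.set ⊆ Cfg n p q ↔ Pk p q Q := by
  constructor
  · intro h
    exact ⟨rng h, fun k l u v => disj h⟩
  · rintro ⟨h1, h2⟩ z hz
    refine ⟨fun k => ?_, fun k l hkl => ?_⟩
    · obtain ⟨r1, r2, r3, r4⟩ := h1 k
      obtain ⟨z1, z2⟩ := hz (k, false)
      obtain ⟨z3, z4⟩ := hz (k, true)
      have r1' : (1 : ℝ) ≤ Q.a (k, false) := by exact_mod_cast r1
      have r2' : (Q.a (k, false) : ℝ) + Q.w (k, false) ≤ p := by exact_mod_cast r2
      have r3' : (1 : ℝ) ≤ Q.a (k, true) := by exact_mod_cast r3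
      have r4' : (Q.a (k, true) : ℝ) + Q.w (k, true) ≤ q := by exact_mod_cast r4
      exact ⟨by linarith, by linarith, by linarith, by linarith⟩
    · have key : ∀ e, (Q.a (k, e) + Q.w (k, e) < Q.a (l, e) ∨ Q.a (l, e) + Q.w (l, e) < Q.a (k, e)) →
          1 ≤ |z (k, e) - z (l, e)| := by
        intro e he
        obtain ⟨z1, z2⟩ := hz (k, e)
        obtain ⟨z3, z4⟩ := hz (l, e)
        rcases he with he | he
        · have he' : (Q.a (k, e) : ℝ) + Q.w (k, e) + 1 ≤ Q.a (l, e) := by exact_mod_cast he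
          rw [abs_sub_comm]
          exact le_trans (by linarith) (le_abs_self _)
        · have he' : (Q.a (l, e) : ℝ) + Q.w (l, e) + 1 ≤ Q.a (k, e) := by exact_mod_cast he
          exact le_trans (by linarith) (le_abs_self _)
      by_cases hx : Q.a (k, false) + Q.w (k, false) < Q.a (l, false) ∨ Q.a (l, false) + Q.w (l, false) < Q.a (k, false)
      · exact Or.inl (key false hx)
      by_cases hy : Q.a (k, true) + Q.w (k, true) < Q.a (l, true) ∨ Q.a (l, true) + Q.w (l, true) < Q.a (k, true)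
      · exact Or.inr (key true hy)
      exfalso
      push Not at hx hy
      have w0 := w_nonneg Q (k, false)
      have w1 := w_nonneg Q (k, true)
      have w2 := w_nonneg Q (l, false)
      have w3 := w_nonneg Q (l, true)
      apply hkl
      apply h2 k l (max (Q.a (k, false)) (Q.a (l, false))) (max (Q.a (k, true)) (Q.a (l, true)))
      · exact ⟨by omega, by omega, by omega, by omega⟩
      · exact ⟨by omega, by omega, by omega, by omega⟩

/-- vertical overlap of two pieces -/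
def VO (Q : Cube n) (k l : Fin n) : Prop :=
  Q.a (k, true) ≤ Q.a (l, true) + Q.w (l, true) ∧ Q.a (l, true) ≤ Q.a (k, true) + Q.w (k, true)

/-- there is room on the right of the left column of the piece `k` (the pieces being shrunk to their left columns) -/
def Ef (p : ℕ) (Q : Cube n) (k : Fin n) : Prop :=
  Q.a (k, false) + 1 ≤ p ∧ ∀ l, Q.a (l, false) = Q.a (k, false) + 1 → ¬ VO Q k l

theorem Pk.ef {Q : Cube n} (h : Pk p q Q) {k : Fin n} (hk : (k, false) ∈ Q.s) : Ef p Q k := by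
  have w0 : Q.w (k, false) = 1 := Cube.w_of_mem hk
  have w1 := w_nonneg Q (k, true)
  obtain ⟨r1, r2, r3, r4⟩ := h.rng k
  refine ⟨by omega, ?_⟩
  rintro l hl ⟨h1, h2⟩
  have w2 := w_nonneg Q (l, false)
  have w3 := w_nonneg Q (l, true)
  have h3 : k = l := h.disj k l (Q.a (l, false)) (max (Q.a (k, true)) (Q.a (l, true)))
    ⟨by omega, by omega, by omega, by omega⟩ ⟨by omega, by omega, by omega, by omega⟩
  rw [h3] at hl
  omega

/-- extend the piece `k` to the right -/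
def exR (Q : Cube n) (k : Fin n) : Cube n := ⟨Q.a, insert (k, false) Q.s⟩

theorem exR_w (Q : Cube n) (k : Fin n) (i : Fin n × Bool) (hi : i ≠ (k, false)) : (exR Q k).w i = Q.w i := by
  unfold Cube.w exR
  simp [hi]

theorem Pk.exR {Q : Cube n} (h : Pk p q Q) {k : Fin n} (hk : Ef p Q k) : Pk p q (exR Q k) := by
  have wk : (SQ.exR Q k).w (k, false) = 1 := by
    unfold Cube.w SQ.exR
    simp
  have wt : ∀ l, (SQ.exR Q k).w (l, true) = Q.w (l, true) := fun l => exR_w Q k _ (by simp)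
  have wf : ∀ l, l ≠ k → (SQ.exR Q k).w (l, false) = Q.w (l, false) := fun l hl => exR_w Q k _ (by simp [hl])
  have ha : (SQ.exR Q k).a = Q.a := rfl
  have hkey : ∀ l u v, l ≠ k → Cov (SQ.exR Q k) k u v → Cov Q l u v → False := by
    rintro l u v hlk ⟨c1, c2, c3, c4⟩ ⟨d1, d2, d3, d4⟩
    rw [ha] at c1 c2 c3 c4
    rw [wk] at c2
    rw [wt] at c4
    have w0 := w_nonneg Q (k, false)
    have w2 := w_le Q (l, false)
    have w2' := w_nonneg Q (l, false)
    by_cases hu : u = Q.a (k, false)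
    · exact hlk (h.disj l k u v ⟨d1, d2, d3, d4⟩ ⟨by omega, by omega, by omega, by omega⟩)
    · by_cases hl : Q.a (l, false) = Q.a (k, false) + 1
      · exact hk.2 l hl ⟨by omega, by omega⟩
      · exact hlk (h.disj l k (Q.a (k, false)) v ⟨by omega, by omega, by omega, by omega⟩
          ⟨by omega, by omega, by omega, by omega⟩)
  have hcov : ∀ l u v, l ≠ k → Cov (SQ.exR Q k) l u v → Cov Q l u v := by
    rintro l u v hl ⟨c1, c2, c3, c4⟩
    rw [ha] at c1 c2 c3 c4
    rw [wf l hl] at c2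
    rw [wt] at c4
    exact ⟨c1, c2, c3, c4⟩
  constructor
  · intro l
    obtain ⟨r1, r2, r3, r4⟩ := h.rng l
    rw [ha, wt]
    by_cases hl : l = k
    · subst hl
      rw [wk]
      exact ⟨r1, hk.1, r3, r4⟩
    · rw [wf l hl]
      exact ⟨r1, r2, r3, r4⟩
  · intro m l u v h1 h2
    by_cases hm : m = k
    · by_cases hl : l = k
      · rw [hm, hl]
      · subst hm
        exact absurd (hkey l u v hl h1 (hcov l u v hl h2)) id
    · by_cases hl : l = k
      · subst hl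
        exact absurd (hkey m u v hm h2 (hcov m u v hm h1)) id
      · exact h.disj m l u v (hcov m u v hm h1) (hcov l u v hl h2)

theorem ef_congr {Q Q' : Cube n} (ha : Q'.a = Q.a) (hs : ∀ l, (l, true) ∈ Q'.s ↔ (l, true) ∈ Q.s) (k : Fin n) :
    Ef p Q' k ↔ Ef p Q k := by
  have hw : ∀ l, Q'.w (l, true) = Q.w (l, true) := by
    intro l
    unfold Cube.w
    simp only [hs]
  unfold Ef VO
  simp only [ha, hw]

/-- the first piece with room on the right -/
def Fst (p : ℕ) (Q : Cube n) (k : Fin n) : Prop := Ef p Q k ∧ ∀ l < k, ¬ Ef p Q l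

theorem exists_fst {Q : Cube n} (h : ∃ k, Ef p Q k) : ∃ k, Fst p Q k := by
  classical
  obtain ⟨k, hk, hmin⟩ := WellFounded.has_min (wellFounded_lt (α := Fin n)) {k | Ef p Q k} h
  exact ⟨k, hk, fun l hl h1 => hmin l h1 hl⟩

theorem Fst.unique {Q : Cube n} {k l : Fin n} (hk : Fst p Q k) (hl : Fst p Q l) : k = l := by
  rcases lt_trichotomy k l with h | h | h
  · exact absurd hk.1 (hl.2 k h)
  · exact h
  · exact absurd hl.1 (hk.2 l h)

theorem fst_congr {Q Q' : Cube n} (ha : Q'.a = Q.a) (hs : ∀ l, (l, true) ∈ Q'.s ↔ (l, true) ∈ Q.s) (k : Fin n) :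
    Fst p Q' k ↔ Fst p Q k := by
  unfold Fst
  simp only [ef_congr ha hs]

/-- first key -/
def K1 (p : ℕ) (Q : Cube n) : ℕ := ∑ k, ((p : ℤ) - Q.a (k, false)).toNat

/-- second key -/
def K2 (Q : Cube n) : ℕ := (Q.s.filter fun i => i.2 = true).card

open Classical in
/-- third key -/
noncomputable def K3 (p : ℕ) (Q : Cube n) : ℕ :=
  if ∃ k, Fst p Q k ∧ (k, false) ∈ Q.s then 0 else if ∃ k, Ef p Q k then 1 else 2

/-- the order -/
noncomputable def key (p : ℕ) (K4 : Cube n → ℕ) (Q : Cube n) : ℕ ×ₗ ℕ ×ₗ ℕ ×ₗ ℕ :=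
  toLex (K1 p Q, toLex (K2 Q, toLex (K3 p Q, K4 Q)))

theorem key_lt1 {K4 : Cube n → ℕ} {Q Q' : Cube n} (h : K1 p Q < K1 p Q') : key p K4 Q < key p K4 Q' := by
  unfold key
  rw [Prod.Lex.toLex_lt_toLex]
  exact Or.inl h

theorem key_lt2 {K4 : Cube n → ℕ} {Q Q' : Cube n} (h1 : K1 p Q = K1 p Q') (h : K2 Q < K2 Q') :
    key p K4 Q < key p K4 Q' := by
  unfold key
  rw [Prod.Lex.toLex_lt_toLex]
  refine Or.inr ⟨h1, ?_⟩
  rw [Prod.Lex.toLex_lt_toLex]
  exact Or.inl h

theorem key_lt3 {K4 : Cube n → ℕ} {Q Q' : Cube n} (h1 : K1 p Q = K1 p Q') (h2 : K2 Q = K2 Q')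
    (h : K3 p Q < K3 p Q') : key p K4 Q < key p K4 Q' := by
  unfold key
  rw [Prod.Lex.toLex_lt_toLex]
  refine Or.inr ⟨h1, ?_⟩
  rw [Prod.Lex.toLex_lt_toLex]
  refine Or.inr ⟨h2, ?_⟩
  rw [Prod.Lex.toLex_lt_toLex]
  exact Or.inl h

theorem key_lt4 {K4 : Cube n → ℕ} {Q Q' : Cube n} (h1 : K1 p Q = K1 p Q') (h2 : K2 Q = K2 Q')
    (h3 : K3 p Q = K3 p Q') (h : K4 Q < K4 Q') : key p K4 Q < key p K4 Q' := by
  unfold key
  rw [Prod.Lex.toLex_lt_toLex]
  refine Or.inr ⟨h1, ?_⟩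
  rw [Prod.Lex.toLex_lt_toLex]
  refine Or.inr ⟨h2, ?_⟩
  rw [Prod.Lex.toLex_lt_toLex]
  exact Or.inr ⟨h3, h⟩

end Pool.Agent.H14.SQ
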