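import Pool.Agent.H14.SQ.V

/-!
# V2: a matching principle for the cubical complex
-/

set_option autoImplicit false

namespace Pool.Agent.H14.SQ

variable {n p q : ℕ} {α : Type} [LinearOrder α]

/-- `σ` is matched with a larger or a smaller cube, for the order given by `f` -/
def Good (p q : ℕ) (f : Cube n → α) (σ : Cube n) : Prop :=
  (∃ ρ : Cube n, ρ.set ⊆ Cfg n p q ∧ (∃ i ∈ ρ.s, ∃ ε, ρ.face i ε = σ) ∧
    ∀ i ∈ ρ.s, ∀ ε, ρ.face i ε ≠ σ → f (ρ.face i ε) < f σ) ∨
  (∃ i ∈ σ.s, ∃ ε, ∀ σ' : Cube n, σ'.set ⊆ Cfg n p q → ∀ i' ∈ σ'.s, ∀ ε', σ'.face i' ε' = σ.face i ε → σ' ≠ σ →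
    f σ < f σ')

/-- ROW V2a. `⟨_, _⟩`: the face has fewer points. -/
theorem face_set_subset (Q : Cube n) {i : Fin n × Bool} (hi : i ∈ Q.s) (ε : Bool) :
    (Q.face i ε).set ⊆ Q.set := by
  intro z hz j
  have hj := hz j
  by_cases hji : j = i
  · subst hji
    have hw : Q.w j = 1 := by rw [Cube.w, if_pos hi]
    have hw' : (Q.face j ε).w j = 0 := by
      rw [Cube.w, if_neg]
      intro h
      exact (Finset.mem_erase.1 h).1 rfl
    rw [hw'] at hj
    rw [hw]
    cases ε
    · have ha : (Q.face j false).a j = Q.a j := by simp [Cube.face]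
      rw [ha] at hj
      push_cast at hj ⊢
      constructor <;> linarith [hj.1, hj.2]
    · have ha : (Q.face j true).a j = Q.a j + 1 := by simp [Cube.face]
      rw [ha] at hj
      push_cast at hj ⊢
      constructor <;> linarith [hj.1, hj.2]
  · have hw : (Q.face i ε).w j = Q.w j := by
      have : (j ∈ Q.s.erase i) = (j ∈ Q.s) := by
        rw [Finset.mem_erase]
        simp [hji]
      simp only [Cube.w, Cube.face, this]
    have ha : (Q.face i ε).a j = Q.a j := by
      cases ε
      · simp [Cube.face]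
      · simp [Cube.face, Function.update_of_ne hji]
    rw [hw, ha] at hj
    exact hj

/-- ROW V2b. The value of the boundary at a face is `1` or `-1` (see the proof of `other_coface` in A). -/
theorem bdCube_face {Q : Cube n} {i : Fin n × Bool} (hi : i ∈ Q.s) (ε : Bool) :
    bdCube Q (Q.face i ε) * bdCube Q (Q.face i ε) = 1 := by
  have h1 : bdCube Q (Q.face i ε) = sgn Q.s i * (if ε then 1 else -1) := by
    rw [bdCube_apply, Finset.sum_eq_single i]
    · congr 1
      cases ε
      · have h2 : Q.face i true ≠ Q.face i false := fun h => by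
          have := (face_inj hi hi h).2
          simp at this
        simp [h2]
      · have h2 : Q.face i false ≠ Q.face i true := fun h => by
          have := (face_inj hi hi h).2
          simp at this
        simp [h2]
    · intro i' hi' hne
      have h2 : ∀ ε', Q.face i' ε' ≠ Q.face i ε := fun ε' h => hne (face_inj hi hi' h).1
      simp [h2]
    · intro h
      exact absurd hi h
  have h2 : sgn Q.s i * sgn Q.s i = 1 := by
    unfold sgn
    rw [← pow_add, ← two_mul, pow_mul]
    norm_num
  rw [h1]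
  have h3 : (if ε then (1 : ℤ) else -1) * (if ε then (1 : ℤ) else -1) = 1 := by
    cases ε <;> simp
  calc sgn Q.s i * (if ε then (1 : ℤ) else -1) * (sgn Q.s i * (if ε then (1 : ℤ) else -1))
      = (sgn Q.s i * sgn Q.s i) * ((if ε then (1 : ℤ) else -1) * (if ε then (1 : ℤ) else -1)) := by
        ring
    _ = 1 := by rw [h2, h3, one_mul]

/-- ROW V2c. `bdCube_apply`. -/
theorem bdCube_ne {Q τ : Cube n} (h : bdCube Q τ ≠ 0) : ∃ i ∈ Q.s, ∃ ε, Q.face i ε = τ := by
  by_contra hcon
  push Not at hcon
  apply h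
  rw [bdCube_apply]
  refine Finset.sum_eq_zero fun i hi => ?_
  rw [if_neg (hcon i hi true), if_neg (hcon i hi false), sub_zero, mul_zero]

end Pool.Agent.H14.SQ
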