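import Pool.Agent.H14.SQ.G1
import Pool.Agent.H14.SQ.V2

/-!
# G2: a cube with a piece which can be extended to the right is matched
-/

set_option autoImplicit false

namespace Pool.Agent.H14.SQ

variable {n p q : ℕ}

theorem K1_congr {Q Q' : Cube n} (h : ∀ k, Q'.a (k, false) = Q.a (k, false)) : K1 p Q' = K1 p Q := by
  unfold K1
  simp only [h]

theorem K1_face_f (Q : Cube n) (i : Fin n × Bool) : K1 p (Q.face i false) = K1 p Q :=
  K1_congr fun k => by rw [face_a]; simp

theorem K1_face_t (Q : Cube n) (l : Fin n) (ε : Bool) : K1 p (Q.face (l, true) ε) = K1 p Q :=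
  K1_congr fun k => by rw [face_a]; simp

theorem K1_face_lt {Q : Cube n} (h : Pk p q Q) {l : Fin n} (hl : (l, false) ∈ Q.s) :
    K1 p (Q.face (l, false) true) < K1 p Q := by
  unfold K1
  apply Finset.sum_lt_sum
  · intro k _
    rw [face_a]
    split_ifs
    · omega
    · simp
  · refine ⟨l, Finset.mem_univ _, ?_⟩
    rw [face_a, if_pos ⟨rfl, rfl⟩]
    have h1 := (h.rng l).2.1
    have h2 : Q.w (l, false) = 1 := Cube.w_of_mem hl
    omega

theorem K2_face_f (Q : Cube n) (l : Fin n) (ε : Bool) : K2 (Q.face (l, false) ε) = K2 Q := by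
  unfold K2
  rw [face_s]
  congr 1
  ext i
  simp only [Finset.mem_filter, Finset.mem_erase]
  constructor
  · rintro ⟨⟨-, h2⟩, h3⟩
    exact ⟨h2, h3⟩
  · rintro ⟨h2, h3⟩
    exact ⟨⟨fun h => by rw [h] at h3; simp at h3, h2⟩, h3⟩

theorem K2_face_t {Q : Cube n} {l : Fin n} (hl : (l, true) ∈ Q.s) (ε : Bool) :
    K2 (Q.face (l, true) ε) + 1 = K2 Q := by
  unfold K2
  rw [face_s]
  have h1 : ((Q.s.erase (l, true)).filter fun i => i.2 = true) = (Q.s.filter fun i => i.2 = true).erase (l, true) := by
    ext i
    simp only [Finset.mem_filter, Finset.mem_erase]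
    tauto
  rw [h1]
  exact Finset.card_erase_add_one (Finset.mem_filter.2 ⟨hl, rfl⟩)

theorem K3_zero {Q : Cube n} {k : Fin n} (h1 : Fst p Q k) (h2 : (k, false) ∈ Q.s) : K3 p Q = 0 := by
  unfold K3
  rw [if_pos ⟨k, h1, h2⟩]

theorem K3_one {Q : Cube n} {k : Fin n} (h1 : Fst p Q k) (h2 : (k, false) ∉ Q.s) : K3 p Q = 1 := by
  unfold K3
  rw [if_neg, if_pos ⟨k, h1.1⟩]
  rintro ⟨l, hl, hl2⟩
  rw [hl.unique h1] at hl2
  exact h2 hl2

theorem K3_two {Q : Cube n} (h1 : ∀ k, ¬ Ef p Q k) : K3 p Q = 2 := by
  unfold K3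
  rw [if_neg, if_neg]
  · rintro ⟨k, hk⟩; exact h1 k hk
  · rintro ⟨k, hk, -⟩; exact h1 k hk.1

theorem K3_lt_two {Q : Cube n} {k : Fin n} (h1 : Ef p Q k) : K3 p Q < 2 := by
  obtain ⟨l, hl⟩ := exists_fst ⟨k, h1⟩
  by_cases h2 : (l, false) ∈ Q.s
  · rw [K3_zero hl h2]; norm_num
  · rw [K3_one hl h2]; norm_num

theorem good_of_ef (K4 : Cube n → ℕ) {σ : Cube n} (hσ : Pk p q σ) (hE : ∃ k, Ef p σ k) :
    Good p q (key p K4) σ := by
  obtain ⟨k, hk⟩ := exists_fst hE
  by_cases hks : (k, false) ∈ σ.s
  · right
    refine ⟨(k, false), hks, false, ?_⟩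
    rintro σ' hσ' ⟨l, d⟩ hl ε' hf hne
    rw [inX_iff] at hσ'
    have e1 : K1 p (σ'.face (l, d) ε') = K1 p σ := by rw [hf, K1_face_f]
    have e2 : K2 (σ'.face (l, d) ε') = K2 σ := by rw [hf, K2_face_f]
    cases d
    · cases ε'
      · rw [K1_face_f] at e1
        rw [K2_face_f] at e2
        have ha : σ'.a = σ.a := by
          funext j
          have := congrFun (congrArg Cube.a hf) j
          rwa [face_a, face_a, if_neg (by simp), if_neg (by simp), add_zero, add_zero] at this
        have hs : σ'.s.erase (l, false) = σ.s.erase (k, false) := congrArg Cube.s hf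
        have hlk : l ≠ k := by
          rintro rfl
          apply hne
          apply Cube.ext ha
          rw [← Finset.insert_erase hl, hs, Finset.insert_erase hks]
        have hks' : (k, false) ∉ σ'.s := by
          intro h
          have h1 : (k, false) ∈ σ'.s.erase (l, false) := Finset.mem_erase.2 ⟨by simpa using hlk.symm, h⟩
          rw [hs] at h1
          exact (Finset.mem_erase.1 h1).1 rfl
        have hst : ∀ m, (m, true) ∈ σ'.s ↔ (m, true) ∈ σ.s := by
          intro m
          have h1 : (m, true) ∈ σ'.s.erase (l, false) ↔ (m, true) ∈ σ.s.erase (k, false) := by rw [hs]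
          simpa using h1
        refine key_lt3 e1.symm e2.symm ?_
        rw [K3_zero hk hks, K3_one ((fst_congr ha hst k).2 hk) hks']
        norm_num
      · refine key_lt1 ?_
        rw [← e1]
        exact K1_face_lt hσ' hl
    · rw [K1_face_t] at e1
      refine key_lt2 e1.symm ?_
      have := K2_face_t hl ε'
      omega
  · left
    refine ⟨exR σ k, inX_iff.2 (hσ.exR hk.1), ⟨(k, false), Finset.mem_insert_self _ _, false, ?_⟩, ?_⟩
    · apply Cube.ext
      · rfl
      · exact Finset.erase_insert hks
    · have e1 : K1 p (exR σ k) = K1 p σ := K1_congr fun _ => rfl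
      have e2 : K2 (exR σ k) = K2 σ := by
        have h1 := K2_face_f (exR σ k) k false
        have h2 : (exR σ k).face (k, false) false = σ := by
          apply Cube.ext
          · rfl
          · exact Finset.erase_insert hks
        rw [← h1, h2]
      rintro ⟨l, d⟩ hl ε hne
      cases d
      · cases ε
        · have hlk : l ≠ k := by
            rintro rfl
            apply hne
            apply Cube.ext
            · rfl
            · exact Finset.erase_insert hks
          refine key_lt3 (by rw [K1_face_f, e1]) (by rw [K2_face_f, e2]) ?_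
          have hks' : (k, false) ∈ ((exR σ k).face (l, false) false).s := by
            rw [face_s]
            exact Finset.mem_erase.2 ⟨by simpa using hlk.symm, Finset.mem_insert_self _ _⟩
          have hst : ∀ m, (m, true) ∈ ((exR σ k).face (l, false) false).s ↔ (m, true) ∈ σ.s := by
            intro m
            rw [face_s]
            simp [exR]
          rw [K3_zero ((fst_congr (by rfl) hst k).2 hk) hks', K3_one hk hks]
          norm_num
        · refine key_lt1 ?_
          rw [← e1]
          exact K1_face_lt (hσ.exR hk.1) hl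
      · refine key_lt2 (by rw [K1_face_t, e1]) ?_
        have := K2_face_t hl ε
        omega

end Pool.Agent.H14.SQ
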