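import Mathlib

/-!
# K: the order on the states of the columns (height 2)

`E`: empty, `L`, `U`: one monomino (below, above), `D`: a vertical domino, `B`: two monominoes (or the wall, column `p + 1`).
-/

set_option autoImplicit false

namespace Pool.Agent.H14.SQ

/-- the states of a column -/
inductive St where
  | E | L | U | D | B
deriving DecidableEq

/-- the column `c` contains one piece, and the column on its left is empty or a domino -/
def op (s : ℕ → St) (c : ℕ) : Prop :=
  (s c = .L ∨ s c = .U ∨ s c = .D) ∧ (s (c - 1) = .E ∨ s (c - 1) = .D)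

/-- the column `c` is a toggle column -/
def tg (s : ℕ → St) (c : ℕ) : Prop := op s c ∧ ¬ (s c = .U ∧ (s (c + 1) = .D ∨ s (c + 1) = .B))

open Classical in
/-- the key of the columns `c, …, c + m - 1` -/
noncomputable def KK (s : ℕ → St) : ℕ → ℕ → ℕ
  | 0, _ => 0
  | m + 1, c => if op s c then
      (if s (c + 1) = .L ∨ s (c + 1) = .U then (if s c = .D then 0 else 6 ^ m)
        else if s c = .U then 2 * 6 ^ m + KK s m (c + 1)
        else if s c = .D then 4 * 6 ^ m else 5 * 6 ^ m)
      else KK s m (c + 1)

/-- the states of a configuration in which no piece can move to the right -/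
structure Sk (p : ℕ) (s : ℕ → St) : Prop where
  s0 : s 0 = .E
  sp : s (p + 1) = .B
  nE : ∀ c, 1 ≤ c → c ≤ p → s c ≠ .E → s (c + 1) ≠ .E
  nB : ∀ c, 1 ≤ c → c ≤ p → s c = .B → s (c + 1) = .B ∨ s (c + 1) = .D
  nL : ∀ c, 1 ≤ c → c ≤ p → s c = .L → s (c + 1) ≠ .U
  nU : ∀ c, 1 ≤ c → c ≤ p → s c = .U → s (c + 1) ≠ .L

open Classical in
theorem KK_succ (s : ℕ → St) (m c : ℕ) : KK s (m + 1) c = if op s c then
      (if s (c + 1) = .L ∨ s (c + 1) = .U then (if s c = .D then 0 else 6 ^ m)
        else if s c = .U then 2 * 6 ^ m + KK s m (c + 1)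
        else if s c = .D then 4 * 6 ^ m else 5 * 6 ^ m)
      else KK s m (c + 1) := rfl

/-- ROW K1. Induction on `m`. -/
theorem KK_lt (s : ℕ → St) (m c : ℕ) : KK s m c < 6 ^ m := by
  induction m generalizing c with
  | zero => simp [KK]
  | succ m ih =>
    have h1 := ih (c + 1)
    have h2 : 0 < 6 ^ m := by positivity
    have h3 : 6 ^ (m + 1) = 6 * 6 ^ m := by rw [pow_succ]; ring
    rw [h3]
    unfold KK
    split_ifs <;> omega

/-- ROW K2. `KK s m c` depends only on the values of `s` at `c - 1, …, c + m`; here: prefix. If `s`, `s'` agree at the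
indices `< d`, there is no toggle column of `s` in `[1, d - 1)` and the column `d - 1` is not `op` for `s`, then the keys
are the same up to the column `d`. (Induction on `d - c` from `c = 1`: at a column `c < d - 1` the digit depends on
`s (c - 1), s c, s (c + 1)`, all at indices `< d`, and it is not terminal since `c` is not a toggle column: if `op s c`
then `s c = U` and `s (c + 1)` is `D` or `B`; the column `d - 1` is not `op` for both.) -/
theorem KK_prefix {s s' : ℕ → St} {d p : ℕ} (hd : 1 ≤ d) (hdp : d ≤ p) (hag : ∀ c, c < d → s' c = s c)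
    (htg : ∀ c, 1 ≤ c → c < d → ¬ tg s c) (hop : d = 1 ∨ ¬ op s (d - 1)) :
    ∃ A, KK s p 1 = A + KK s (p + 1 - d) d ∧ KK s' p 1 = A + KK s' (p + 1 - d) d := by
  have key : ∀ j c, d - c = j → 1 ≤ c → c ≤ d →
      ∃ A, KK s (p + 1 - c) c = A + KK s (p + 1 - d) d ∧
        KK s' (p + 1 - c) c = A + KK s' (p + 1 - d) d := by
    intro j
    induction j with
    | zero =>
      intro c hj _ hcd
      have hc : c = d := by omega
      subst hc
      exact ⟨0, by simp, by simp⟩
    | succ j ih =>
      intro c hj hc1 hcd
      obtain ⟨A, hA, hA'⟩ := ih (c + 1) (by omega) (by omega) (by omega)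
      obtain ⟨m, hm⟩ : ∃ m, m = p + 1 - (c + 1) := ⟨_, rfl⟩
      have hm' : p + 1 - c = m + 1 := by omega
      rw [← hm] at hA hA'
      rw [hm']
      have e0 : s' c = s c := hag c (by omega)
      have e1 : s' (c - 1) = s (c - 1) := hag (c - 1) (by omega)
      have hiff : op s' c ↔ op s c := by
        unfold op
        rw [e0, e1]
      by_cases ho : op s c
      · have hne : c + 1 < d := by
          rcases hop with h | h
          · omega
          · by_contra h1
            have h2 : c = d - 1 := by omega
            rw [← h2] at h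
            exact h ho
        have e2 : s' (c + 1) = s (c + 1) := hag (c + 1) hne
        have ht := htg c hc1 (by omega)
        have hU : s c = .U ∧ (s (c + 1) = .D ∨ s (c + 1) = .B) := by
          by_contra h1
          exact ht ⟨ho, h1⟩
        have hLU : ¬ (s (c + 1) = .L ∨ s (c + 1) = .U) := by
          rcases hU.2 with h | h <;> rw [h] <;> simp
        refine ⟨2 * 6 ^ m + A, ?_, ?_⟩
        · rw [KK_succ, if_pos ho, if_neg hLU, if_pos hU.1, hA]
          ring
        · rw [KK_succ, if_pos (hiff.2 ho), e2, if_neg hLU, e0, if_pos hU.1, hA']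
          ring
      · refine ⟨A, ?_, ?_⟩
        · rw [KK_succ, if_neg ho, hA]
        · rw [KK_succ, if_neg (fun h => ho (hiff.1 h)), hA']
  have h1 := key (d - 1) 1 rfl le_rfl hd
  simpa using h1

/-- ROW K3. Before the first toggle column the columns `L`, `U` are `op` (strong induction on `c`): if `c` is not `op`
then `s (c - 1)` is `L`, `U` or `B`; `B` contradicts `nB`; if `L`, `U`, then `c - 1` is `op` by induction, not a toggle
column, so `s c` is `D` or `B`. -/
theorem op_of_mono {s : ℕ → St} {p d : ℕ} (hs : Sk p s) (hdp : d ≤ p) (htg : ∀ c, 1 ≤ c → c < d → ¬ tg s c) :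
    ∀ c, 1 ≤ c → c < d → (s c = .L ∨ s c = .U) → op s c := by
  intro c
  induction c using Nat.strong_induction_on with
  | _ c ih =>
    intro hc1 hcd hLU
    refine ⟨?_, ?_⟩
    · rcases hLU with h | h
      · exact Or.inl h
      · exact Or.inr (Or.inl h)
    · rcases Nat.lt_or_ge 1 c with h2 | h2
      · have hc' : c - 1 + 1 = c := by omega
        have hno : ¬ (s (c - 1) = .L ∨ s (c - 1) = .U) := by
          intro h3
          have h4 := ih (c - 1) (by omega) (by omega) (by omega) h3
          have h5 := htg (c - 1) (by omega) (by omega)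
          apply h5
          refine ⟨h4, ?_⟩
          rintro ⟨-, h6⟩
          rw [hc'] at h6
          rcases hLU with h7 | h7 <;> rw [h7] at h6 <;> simp at h6
        have hnB : s (c - 1) ≠ .B := by
          intro h3
          have h4 := hs.nB (c - 1) (by omega) (by omega) h3
          rw [hc'] at h4
          rcases hLU with h7 | h7 <;> rw [h7] at h4 <;> simp at h4
        cases h8 : s (c - 1) with
        | E => exact Or.inl rfl
        | D => exact Or.inr rfl
        | L => exact absurd (Or.inl h8) hno
        | U => exact absurd (Or.inr h8) hno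
        | B => exact absurd h8 hnB
      · have hc0 : c - 1 = 0 := by omega
        rw [hc0, hs.s0]
        exact Or.inl rfl

end Pool.Agent.H14.SQ
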