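import Pool.Agent.H14.SQ.G2
import Pool.Agent.H14.SQ.K

/-!
# G3: the states of the columns of a configuration in a rectangle of height 2
-/

set_option autoImplicit false

namespace Pool.Agent.H14.SQ

variable {n p : ℕ}

/-- some piece of the column `c` has its bottom in the row `r` -/
def Pr (Q : Cube n) (c : ℕ) (r : ℤ) : Prop := ∃ k, Q.a (k, false) = c ∧ Q.a (k, true) = r

/-- the column `c` contains a vertical domino -/
def PD (Q : Cube n) (c : ℕ) : Prop := ∃ k, Q.a (k, false) = c ∧ (k, true) ∈ Q.s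

open Classical in
/-- the state of the column `c` -/
noncomputable def stt (p : ℕ) (Q : Cube n) (c : ℕ) : St :=
  if c = 0 then .E else if p < c then .B else if PD Q c then .D
    else if Pr Q c 1 then (if Pr Q c 2 then .B else .L) else if Pr Q c 2 then .U else .E

theorem row12 {Q : Cube n} (h : Pk p 2 Q) (k : Fin n) : Q.a (k, true) = 1 ∨ Q.a (k, true) = 2 := by
  obtain ⟨-, -, r3, r4⟩ := h.rng k
  have := w_nonneg Q (k, true)
  push_cast at r4
  omega

theorem dom1 {Q : Cube n} (h : Pk p 2 Q) {k : Fin n} (hk : (k, true) ∈ Q.s) : Q.a (k, true) = 1 := by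
  obtain ⟨-, -, r3, r4⟩ := h.rng k
  have : Q.w (k, true) = 1 := Cube.w_of_mem hk
  push_cast at r4
  omega

/-- two pieces of a column with a common row are equal -/
theorem col_eq {Q : Cube n} (h : Pk p 2 Q) {k l : Fin n} (hc : Q.a (k, false) = Q.a (l, false)) (r : ℤ)
    (h1 : Q.a (k, true) ≤ r) (h2 : r ≤ Q.a (k, true) + Q.w (k, true))
    (h3 : Q.a (l, true) ≤ r) (h4 : r ≤ Q.a (l, true) + Q.w (l, true)) : k = l := by
  have w0 := w_nonneg Q (k, false)
  have w1 := w_nonneg Q (l, false)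
  exact h.disj k l (Q.a (k, false)) r ⟨by omega, by omega, h1, h2⟩ ⟨by omega, by omega, h3, h4⟩

theorem col_dom {Q : Cube n} (h : Pk p 2 Q) {k l : Fin n} (hk : (k, true) ∈ Q.s)
    (hc : Q.a (l, false) = Q.a (k, false)) : l = k := by
  have h1 := dom1 h hk
  have h2 : Q.w (k, true) = 1 := Cube.w_of_mem hk
  have h3 := w_nonneg Q (l, true)
  rcases row12 h l with h4 | h4
  · exact col_eq h hc 1 (by omega) (by omega) (by omega) (by omega)
  · exact col_eq h hc 2 (by omega) (by omega) (by omega) (by omega)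

section
variable {Q : Cube n} {c : ℕ}

theorem stt_E (h : Pk p 2 Q) (h1 : 1 ≤ c) (h2 : c ≤ p) : stt p Q c = .E ↔ ∀ k, Q.a (k, false) ≠ c := by
  unfold stt
  rw [if_neg (by omega), if_neg (by omega)]
  constructor
  · intro h3 k hk
    split_ifs at h3 with a1 a2 a3 a4
    rcases row12 h k with h4 | h4
    · exact a2 ⟨k, hk, h4⟩
    · exact a4 ⟨k, hk, h4⟩
  · intro h3
    have b1 : ¬ PD Q c := fun ⟨k, hk, _⟩ => h3 k hk
    have b2 : ∀ r, ¬ Pr Q c r := fun r ⟨k, hk, _⟩ => h3 k hk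
    rw [if_neg b1, if_neg (b2 1), if_neg (b2 2)]

theorem stt_D (h1 : 1 ≤ c) (h2 : c ≤ p) : stt p Q c = .D ↔ PD Q c := by
  unfold stt
  rw [if_neg (by omega), if_neg (by omega)]
  constructor
  · intro h3
    split_ifs at h3 with a1 a2 a3 a4
    exact a1
  · intro h3
    rw [if_pos h3]

theorem stt_B (h1 : 1 ≤ c) (h2 : c ≤ p) : stt p Q c = .B ↔ ¬ PD Q c ∧ Pr Q c 1 ∧ Pr Q c 2 := by
  unfold stt
  rw [if_neg (by omega), if_neg (by omega)]
  constructor
  · intro h3
    split_ifs at h3 with a1 a2 a3 a4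
    exact ⟨a1, a2, a3⟩
  · rintro ⟨h3, h4, h5⟩
    rw [if_neg h3, if_pos h4, if_pos h5]

theorem stt_L (h1 : 1 ≤ c) (h2 : c ≤ p) : stt p Q c = .L ↔ ¬ PD Q c ∧ Pr Q c 1 ∧ ¬ Pr Q c 2 := by
  unfold stt
  rw [if_neg (by omega), if_neg (by omega)]
  constructor
  · intro h3
    split_ifs at h3 with a1 a2 a3 a4
    exact ⟨a1, a2, a3⟩
  · rintro ⟨h3, h4, h5⟩
    rw [if_neg h3, if_pos h4, if_neg h5]

theorem stt_U (h1 : 1 ≤ c) (h2 : c ≤ p) : stt p Q c = .U ↔ ¬ PD Q c ∧ ¬ Pr Q c 1 ∧ Pr Q c 2 := by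
  unfold stt
  rw [if_neg (by omega), if_neg (by omega)]
  constructor
  · intro h3
    split_ifs at h3 with a1 a2 a3 a4
    exact ⟨a1, a2, a4⟩
  · rintro ⟨h3, h4, h5⟩
    rw [if_neg h3, if_neg h4, if_pos h5]

end

theorem stt_zero (Q : Cube n) : stt p Q 0 = .E := by
  unfold stt; rw [if_pos rfl]

theorem stt_wall (Q : Cube n) : stt p Q (p + 1) = .B := by
  unfold stt; rw [if_neg (by omega), if_pos (by omega)]

/-- the states of a configuration in which no piece can move to the right -/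
theorem sk_of {Q : Cube n} (h : Pk p 2 Q) (hE : ∀ k, ¬ Ef p Q k) : Sk p (stt p Q) := by
  have key : ∀ c : ℕ, 1 ≤ c → c < p → ∀ k, Q.a (k, false) = c →
      ∃ l, Q.a (l, false) = ((c + 1 : ℕ) : ℤ) ∧ VO Q k l := by
    intro c h1 h2 k hk
    by_contra hcon
    push Not at hcon
    refine hE k ⟨by omega, fun l hl => hcon l ?_⟩
    rw [hl, hk]; push_cast; ring
  refine ⟨stt_zero Q, stt_wall Q, ?_, ?_, ?_, ?_⟩
  · intro c h1 h2 h3
    rcases Nat.lt_or_ge c p with h4 | h4
    · rw [Ne, stt_E h h1 h2] at h3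
      push Not at h3
      obtain ⟨k, hk⟩ := h3
      obtain ⟨l, hl, -⟩ := key c h1 h4 k hk
      rw [Ne, stt_E h (by omega) (by omega)]
      exact fun h5 => h5 l hl
    · obtain rfl : c = p := by omega
      rw [stt_wall]; simp
  · intro c h1 h2 h3
    rcases Nat.lt_or_ge c p with h4 | h4
    · rw [stt_B h1 h2] at h3
      obtain ⟨a1, ⟨k1, b1, b2⟩, ⟨k2, b3, b4⟩⟩ := h3
      obtain ⟨l1, d1, v1, v2⟩ := key c h1 h4 k1 b1
      obtain ⟨l2, d2, v3, v4⟩ := key c h1 h4 k2 b3
      have n1 : Q.w (k1, true) = 0 := Cube.w_of_notMem fun h5 => a1 ⟨k1, b1, h5⟩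
      have n2 : Q.w (k2, true) = 0 := Cube.w_of_notMem fun h5 => a1 ⟨k2, b3, h5⟩
      by_cases h5 : PD Q (c + 1)
      · right
        exact (stt_D (by omega) (by omega)).2 h5
      · left
        have m2 : Q.w (l2, true) = 0 := Cube.w_of_notMem fun h6 => h5 ⟨l2, d2, h6⟩
        refine (stt_B (by omega) (by omega)).2 ⟨h5, ⟨l1, d1, ?_⟩, ⟨l2, d2, ?_⟩⟩
        · rcases row12 h l1 with h6 | h6 <;> omega
        · rcases row12 h l2 with h6 | h6 <;> omega
    · obtain rfl : c = p := by omega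
      left; exact stt_wall Q
  · intro c h1 h2 h3
    rcases Nat.lt_or_ge c p with h4 | h4
    · rw [stt_L h1 h2] at h3
      obtain ⟨a1, ⟨k1, b1, b2⟩, -⟩ := h3
      obtain ⟨l1, d1, v1, v2⟩ := key c h1 h4 k1 b1
      have n1 : Q.w (k1, true) = 0 := Cube.w_of_notMem fun h5 => a1 ⟨k1, b1, h5⟩
      rw [Ne, stt_U (by omega) (by omega)]
      rintro ⟨-, h5, -⟩
      apply h5
      refine ⟨l1, d1, ?_⟩
      rcases row12 h l1 with h6 | h6 <;> omega
    · obtain rfl : c = p := by omega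
      rw [stt_wall]; simp
  · intro c h1 h2 h3
    rcases Nat.lt_or_ge c p with h4 | h4
    · rw [stt_U h1 h2] at h3
      obtain ⟨a1, -, ⟨k1, b1, b2⟩⟩ := h3
      obtain ⟨l1, d1, v1, v2⟩ := key c h1 h4 k1 b1
      rw [Ne, stt_L (by omega) (by omega)]
      rintro ⟨h6, -, h5⟩
      apply h5
      have m2 : Q.w (l1, true) = 0 := Cube.w_of_notMem fun h7 => h6 ⟨l1, d1, h7⟩
      refine ⟨l1, d1, ?_⟩
      rcases row12 h l1 with h6 | h6 <;> omega
    · obtain rfl : c = p := by omega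
      rw [stt_wall]; simp

/-- the states of a vertical face -/
theorem stt_face {Q : Cube n} (h : Pk p 2 Q) {l : Fin n} (hl : (l, true) ∈ Q.s) (ε : Bool) {c' : ℕ}
    (hc' : Q.a (l, false) = c') (c : ℕ) :
    stt p (Q.face (l, true) ε) c = if c = c' then (if ε = true then .U else .L) else stt p Q c := by
  have r0 := h.rng l
  have hc1 : 1 ≤ c' := by
    have := r0.1
    rw [hc'] at this
    exact_mod_cast this
  have hc2 : c' ≤ p := by
    have h1 := r0.2.1
    have h2 := w_nonneg Q (l, false)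
    rw [hc'] at h1
    have : (c' : ℤ) ≤ p := by omega
    exact_mod_cast this
  have haf : ∀ k, (Q.face (l, true) ε).a (k, false) = Q.a (k, false) := fun k => by
    rw [face_a]; simp
  have hat : ∀ k, k ≠ l → (Q.face (l, true) ε).a (k, true) = Q.a (k, true) := fun k hk => by
    rw [face_a]; simp [hk]
  have hal : (Q.face (l, true) ε).a (l, true) = if ε = true then 2 else 1 := by
    rw [face_a, dom1 h hl]; cases ε <;> simp
  have hst : ∀ k, (k, true) ∈ (Q.face (l, true) ε).s ↔ k ≠ l ∧ (k, true) ∈ Q.s := fun k => by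
    rw [face_s]; simp
  by_cases hcc : c = c'
  · subst hcc
    rw [if_pos rfl]
    have huniq : ∀ k, Q.a (k, false) = c → k = l := fun k hk => col_dom h hl (by rw [hk, hc'])
    have b1 : ¬ PD (Q.face (l, true) ε) c := by
      rintro ⟨k, h1, h2⟩
      rw [haf] at h1
      exact ((hst k).1 h2).1 (huniq k h1)
    cases ε
    · rw [if_neg (by simp), stt_L hc1 hc2]
      refine ⟨b1, ⟨l, by rw [haf, hc'], by rw [hal]; simp⟩, ?_⟩
      rintro ⟨k, h1, h2⟩
      rw [haf] at h1
      rw [huniq k h1, hal] at h2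
      simp at h2
    · rw [if_pos rfl, stt_U hc1 hc2]
      refine ⟨b1, ?_, ⟨l, by rw [haf, hc'], by rw [hal]; simp⟩⟩
      rintro ⟨k, h1, h2⟩
      rw [haf] at h1
      rw [huniq k h1, hal] at h2
      simp at h2
  · rw [if_neg hcc]
    have hkl : ∀ k, Q.a (k, false) = c → k ≠ l := by
      rintro k hk rfl
      apply hcc
      have : (c : ℤ) = c' := by rw [← hk, hc']
      exact_mod_cast this
    have e1 : PD (Q.face (l, true) ε) c ↔ PD Q c := by
      constructor
      · rintro ⟨k, h1, h2⟩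
        rw [haf] at h1
        exact ⟨k, h1, ((hst k).1 h2).2⟩
      · rintro ⟨k, h1, h2⟩
        exact ⟨k, by rw [haf, h1], (hst k).2 ⟨hkl k h1, h2⟩⟩
    have e2 : ∀ r, Pr (Q.face (l, true) ε) c r ↔ Pr Q c r := by
      intro r
      constructor
      · rintro ⟨k, h1, h2⟩
        rw [haf] at h1
        rw [hat k (hkl k h1)] at h2
        exact ⟨k, h1, h2⟩
      · rintro ⟨k, h1, h2⟩
        exact ⟨k, by rw [haf, h1], by rw [hat k (hkl k h1), h2]⟩
    have e3 := propext e1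
    have e4 := propext (e2 1)
    have e5 := propext (e2 2)
    unfold stt
    rw [e3, e4, e5]

/-- a column of type `L`, `U` or `D` contains exactly one piece -/
theorem single_of {Q : Cube n} (h : Pk p 2 Q) {c : ℕ} (h1 : 1 ≤ c) (h2 : c ≤ p)
    (h3 : stt p Q c = .L ∨ stt p Q c = .U ∨ stt p Q c = .D) :
    ∃ k, Q.a (k, false) = c ∧ ∀ l, Q.a (l, false) = c → l = k := by
  rcases h3 with h3 | h3 | h3
  · rw [stt_L h1 h2] at h3
    obtain ⟨a1, ⟨k, b1, b2⟩, a3⟩ := h3
    refine ⟨k, b1, fun l hl => ?_⟩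
    have w1 := w_nonneg Q (k, true)
    have w2 := w_nonneg Q (l, true)
    rcases row12 h l with h4 | h4
    · exact col_eq h (by rw [hl, b1]) 1 (by omega) (by omega) (by omega) (by omega)
    · exact absurd ⟨l, hl, h4⟩ a3
  · rw [stt_U h1 h2] at h3
    obtain ⟨a1, a3, ⟨k, b1, b2⟩⟩ := h3
    refine ⟨k, b1, fun l hl => ?_⟩
    have w1 := w_nonneg Q (k, true)
    have w2 := w_nonneg Q (l, true)
    rcases row12 h l with h4 | h4
    · exact absurd ⟨l, hl, h4⟩ a3
    · exact col_eq h (by rw [hl, b1]) 2 (by omega) (by omega) (by omega) (by omega)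
  · rw [stt_D h1 h2] at h3
    obtain ⟨k, b1, b2⟩ := h3
    exact ⟨k, b1, fun l hl => col_dom h b2 (by rw [hl, b1])⟩

end Pool.Agent.H14.SQ
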