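import Pool.Agent.H14.SQ.K

/-!
# KD: the key increases
-/

set_option autoImplicit false

namespace Pool.Agent.H14.SQ

theorem key_down {s φ : ℕ → St} {p d c' : ℕ} (hs : Sk p s) (hd : 1 ≤ d) (hdp : d ≤ p)
    (htg : ∀ c, 1 ≤ c → c < d → ¬ tg s c) (hd' : tg s d) (hsd : s d = .D) (hc' : 1 ≤ c') (hc'p : c' ≤ p)
    (hne : c' ≠ d) (hm : s c' = .L ∨ s c' = .U)
    (hφe : ∀ c, φ c = if c = c' then .D else if c = d then (if s (d + 1) = .U then .U else .L) else s c) :
    KK s p 1 < KK φ p 1 := by
  classical
  have hpre : ∀ e, 1 ≤ e → e ≤ d → op s e → (e = 1 ∨ ¬ op s (e - 1)) := by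
    intro e he hed hop
    rcases Nat.lt_or_ge 1 e with h | h
    · right
      intro h1
      have h2 : s (e - 1) = .D := by
        rcases hop.2 with h3 | h3
        · exfalso
          rcases h1.1 with h4 | h4 | h4 <;> rw [h3] at h4 <;> simp at h4
        · exact h3
      exact htg (e - 1) (by omega) (by omega) ⟨h1, fun h5 => by
        have h6 := h5.1
        rw [h2] at h6
        simp at h6⟩
    · left; omega
  have hlt : ∀ c, c < d → c ≠ c' → φ c = s c := by
    intro c hc hcc
    rw [hφe, if_neg hcc, if_neg (by omega)]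
  have hdop : op s d := hd'.1
  have hpow : ∀ m : ℕ, 0 < 6 ^ m := fun m => by positivity
  rcases lt_trichotomy c' d with hc | hc | hc
  · have hopc : op s c' := op_of_mono hs hdp htg c' hc' hc hm
    have hU : s c' = .U ∧ (s (c' + 1) = .D ∨ s (c' + 1) = .B) := by
      by_contra h
      exact htg c' hc' hc ⟨hopc, h⟩
    have hnd : c' + 1 ≠ d := by
      intro h
      have h1 : d - 1 = c' := by omega
      have h2 := hdop.2
      rw [h1, hU.1] at h2
      simp at h2
    obtain ⟨A, hA, hA'⟩ := KK_prefix (s := s) (s' := φ) (d := c') (p := p) hc' hc'p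
      (fun c hce => hlt c (by omega) (by omega)) (fun c h1 h2 => htg c h1 (by omega))
      (hpre c' hc' (by omega) hopc)
    have hmm : p + 1 - c' = (p - c') + 1 := by omega
    rw [hA, hA', hmm]
    have hφc : φ c' = .D := by rw [hφe, if_pos rfl]
    have hφ1 : φ (c' + 1) = s (c' + 1) := by rw [hφe, if_neg (by omega), if_neg hnd]
    have hLU : ¬ (s (c' + 1) = .L ∨ s (c' + 1) = .U) := by
      rcases hU.2 with h | h <;> rw [h] <;> simp
    have hopφ : op φ c' := by
      unfold op
      rw [hφc, hlt (c' - 1) (by omega) (by omega)]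
      exact ⟨Or.inr (Or.inr rfl), hopc.2⟩
    have k1 : KK s (p - c' + 1) c' = 2 * 6 ^ (p - c') + KK s (p - c') (c' + 1) := by
      rw [KK_succ, if_pos hopc, if_neg hLU, if_pos hU.1]
    have k2 : KK φ (p - c' + 1) c' = 4 * 6 ^ (p - c') := by
      rw [KK_succ, if_pos hopφ, hφ1, if_neg hLU, hφc, if_neg (by simp), if_pos rfl]
    rw [k1, k2]
    have := KK_lt s (p - c') (c' + 1)
    omega
  · exact absurd hc hne
  · obtain ⟨v, hv⟩ : ∃ v, v = (if s (d + 1) = St.U then St.U else St.L) := ⟨_, rfl⟩
    have hvLU : v = .L ∨ v = .U := by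
      rw [hv]
      split_ifs
      · exact Or.inr rfl
      · exact Or.inl rfl
    have hvD : v ≠ .D := by
      rcases hvLU with h | h <;> rw [h] <;> simp
    have hφd : φ d = v := by rw [hφe, if_neg (by omega), if_pos rfl, hv]
    obtain ⟨A, hA, hA'⟩ := KK_prefix (s := s) (s' := φ) (d := d) (p := p) hd hdp
      (fun c hce => hlt c hce (by omega)) htg (hpre d hd le_rfl hdop)
    have hmm : p + 1 - d = (p - d) + 1 := by omega
    rw [hA, hA', hmm]
    have hopφ : op φ d := by
      unfold op
      rw [hφd, hlt (d - 1) (by omega) (by omega)]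
      refine ⟨?_, hdop.2⟩
      rcases hvLU with h | h
      · exact Or.inl h
      · exact Or.inr (Or.inl h)
    have hp := hpow (p - d)
    rcases Nat.lt_or_ge (d + 1) c' with h | h
    · have hφ1 : φ (d + 1) = s (d + 1) := by rw [hφe, if_neg (by omega), if_neg (by omega)]
      by_cases hLU : s (d + 1) = .L ∨ s (d + 1) = .U
      · have k1 : KK s (p - d + 1) d = 0 := by
          rw [KK_succ, if_pos hdop, if_pos hLU, if_pos hsd]
        have k2 : KK φ (p - d + 1) d = 6 ^ (p - d) := by
          rw [KK_succ, if_pos hopφ, hφ1, if_pos hLU, hφd, if_neg hvD]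
        rw [k1, k2]
        omega
      · have hvL : v = .L := by
          rw [hv, if_neg (fun h => hLU (Or.inr h))]
        have k1 : KK s (p - d + 1) d = 4 * 6 ^ (p - d) := by
          rw [KK_succ, if_pos hdop, if_neg hLU, hsd, if_neg (by simp), if_pos rfl]
        have k2 : KK φ (p - d + 1) d = 5 * 6 ^ (p - d) := by
          rw [KK_succ, if_pos hopφ, hφ1, if_neg hLU, hφd, hvL, if_neg (by simp), if_neg (by simp)]
        rw [k1, k2]
        omega
    · have hcd : c' = d + 1 := by omega
      have hLU : s (d + 1) = .L ∨ s (d + 1) = .U := by rw [← hcd]; exact hm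
      have hφ1 : φ (d + 1) = .D := by rw [hφe, if_pos hcd.symm]
      have k1 : KK s (p - d + 1) d = 0 := by
        rw [KK_succ, if_pos hdop, if_pos hLU, if_pos hsd]
      rw [k1]
      rcases hvLU with h1 | h1
      · have k2 : KK φ (p - d + 1) d = 5 * 6 ^ (p - d) := by
          rw [KK_succ, if_pos hopφ, hφ1, if_neg (by simp), hφd, h1, if_neg (by simp), if_neg (by simp)]
        rw [k2]
        omega
      · have k2 : KK φ (p - d + 1) d = 2 * 6 ^ (p - d) + KK φ (p - d) (d + 1) := by
          rw [KK_succ, if_pos hopφ, hφ1, if_neg (by simp), hφd, h1, if_pos rfl]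
        rw [k2]
        omega

end Pool.Agent.H14.SQ
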