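import Pool.Agent.H14.SQ.K

/-!
# KU: the key decreases
-/

set_option autoImplicit false

namespace Pool.Agent.H14.SQ

/-- ROW K4 (matched up). `d` is the first toggle column, `s d` is `L` or `U`; `φ` is the configuration `s` with the
column `d` replaced by `D` and then one column `c'` of `D`'s (possibly `d`) replaced by `x = L` or `U`; `φ ≠ s`. Cases
`c' > d + 1`, `c' = d + 1`, `c' = d`, `c' < d`. In the first three use `KK_prefix` at `d` (`s (d - 1)` is `E` or `D`, so not
`op`, else it would be a toggle column). `c' = d`: `x ≠ s d`; if `s (d + 1)` is `L` or `U` then `φ` contradicts `nL`, `nU`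
(`s d = L` gives `s (d + 1) = L` or ...), else `s d = L` (as `d` is a toggle column), `x = U`: digits `2 < 5`. `c' < d`: `s c' = D` is
not `op` (it would be a toggle column), so `s (c' - 1)` is `L`, `U`, `B`; `B` contradicts `nB` for `φ`; by `op_of_mono` and no
toggle `s (c' - 1) = U` is `op`: `KK_prefix` at `c' - 1`: digit `2` for `s`, and `1` for `φ` (the next column is `x`). -/
theorem key_up {s φ : ℕ → St} {p d c' : ℕ} {x : St} (hs : Sk p s) (hφ : Sk p φ) (hd : 1 ≤ d) (hdp : d ≤ p)
    (htg : ∀ c, 1 ≤ c → c < d → ¬ tg s c) (hd' : tg s d) (hsd : s d = .L ∨ s d = .U)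
    (hx : x = .L ∨ x = .U) (hc' : 1 ≤ c') (hc'p : c' ≤ p) (hD : c' = d ∨ s c' = .D)
    (hφe : ∀ c, φ c = if c = c' then x else if c = d then .D else s c) (hne : ∃ c, φ c ≠ s c) :
    KK φ p 1 < KK s p 1 := by
  classical
  have hpre : ∀ e, 1 ≤ e → e ≤ d → op s e → (e = 1 ∨ ¬ op s (e - 1)) := by
    intro e he hed hop
    rcases Nat.lt_or_ge 1 e with h | h
    · right
      intro h1
      have h2 : s (e - 1) = .D := by
        rcases hop.2 with h3 | h3
        · exfalso
          rcases h1.1 with h4 | h4 | h4 <;> rw [h3] at h4 <;> simp at h4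
        · exact h3
      exact htg (e - 1) (by omega) (by omega) ⟨h1, fun h5 => by
        have h6 := h5.1
        rw [h2] at h6
        simp at h6⟩
    · left; omega
  have hlt : ∀ c, c < d → c ≠ c' → φ c = s c := by
    intro c hc hcc
    rw [hφe, if_neg hcc, if_neg (by omega)]
  have hdop : op s d := hd'.1
  have hdE : s (d + 1) ≠ .E := by
    refine hs.nE d hd hdp ?_
    rcases hsd with h | h <;> rw [h] <;> simp
  -- the column `d` of `s`
  have hdig : ∀ m, (s (d + 1) = .L ∨ s (d + 1) = .U) ∧ KK s (m + 1) d = 6 ^ m ∨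
      (¬ (s (d + 1) = .L ∨ s (d + 1) = .U) ∧ s d = .L ∧ KK s (m + 1) d = 5 * 6 ^ m) := by
    intro m
    by_cases h : s (d + 1) = .L ∨ s (d + 1) = .U
    · left
      refine ⟨h, ?_⟩
      rw [KK_succ, if_pos hdop, if_pos h, if_neg]
      rcases hsd with h1 | h1 <;> rw [h1] <;> simp
    · right
      have hL : s d = .L := by
        rcases hsd with h1 | h1
        · exact h1
        · exfalso
          apply hd'.2
          refine ⟨h1, ?_⟩
          cases h2 : s (d + 1) with
          | E => exact absurd h2 hdE
          | L => exact absurd (Or.inl h2) h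
          | U => exact absurd (Or.inr h2) h
          | D => exact Or.inl rfl
          | B => exact Or.inr rfl
      refine ⟨h, hL, ?_⟩
      rw [KK_succ, if_pos hdop, if_neg h, if_neg (by rw [hL]; simp), if_neg (by rw [hL]; simp)]
  have hpow : ∀ m : ℕ, 0 < 6 ^ m := fun m => by positivity
  rcases lt_trichotomy c' d with hc | hc | hc
  · -- `c' < d`
    have hsc : s c' = .D := by
      rcases hD with h | h
      · omega
      · exact h
    have hnop : ¬ op s c' := fun h => htg c' hc' hc ⟨h, fun h5 => by
      have h6 := h5.1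
      rw [hsc] at h6
      simp at h6⟩
    have hnED : ¬ (s (c' - 1) = .E ∨ s (c' - 1) = .D) := fun h =>
      hnop ⟨Or.inr (Or.inr hsc), h⟩
    have hc2 : 2 ≤ c' := by
      by_contra h
      have h1 : c' - 1 = 0 := by omega
      apply hnED
      left
      rw [h1]
      exact hs.s0
    obtain ⟨e, he⟩ : ∃ e, e = c' - 1 := ⟨_, rfl⟩
    have hec : c' = e + 1 := by omega
    rw [← he] at hnED
    have hφe' : φ e = s e := hlt e (by omega) (by omega)
    have hφc : φ (e + 1) = x := by rw [← hec, hφe, if_pos rfl]
    have hnB : s e ≠ .B := by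
      intro h
      have h1 := hφ.nB e (by omega) (by omega) (by rw [hφe']; exact h)
      rw [hφc] at h1
      rcases hx with h2 | h2 <;> rw [h2] at h1 <;> simp at h1
    have hLU : s e = .L ∨ s e = .U := by
      cases h : s e with
      | E => exact absurd (Or.inl h) hnED
      | D => exact absurd (Or.inr h) hnED
      | L => exact Or.inl rfl
      | U => exact Or.inr rfl
      | B => exact absurd h hnB
    have hope : op s e := op_of_mono hs hdp htg e (by omega) (by omega) hLU
    have hU : s e = .U := by
      by_contra h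
      exact htg e (by omega) (by omega) ⟨hope, fun h5 => h h5.1⟩
    obtain ⟨A, hA, hA'⟩ := KK_prefix (s := s) (s' := φ) (d := e) (p := p) (by omega) (by omega)
      (fun c hce => hlt c (by omega) (by omega)) (fun c h1 h2 => htg c h1 (by omega))
      (hpre e (by omega) (by omega) hope)
    have hm : p + 1 - e = (p - e) + 1 := by omega
    rw [hA, hA', hm]
    have hopφ : op φ e := by
      unfold op
      rw [hφe', hlt (e - 1) (by omega) (by omega)]
      exact hope
    have k1 : KK φ (p - e + 1) e = 6 ^ (p - e) := by
      rw [KK_succ, if_pos hopφ, if_pos (by rw [hφc]; exact hx), if_neg (by rw [hφe', hU]; simp)]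
    have k2 : KK s (p - e + 1) e = 2 * 6 ^ (p - e) + KK s (p - e) (e + 1) := by
      rw [KK_succ, if_pos hope, if_neg (by rw [← hec, hsc]; simp), if_pos hU]
    rw [k1, k2]
    have := hpow (p - e)
    omega
  · -- `c' = d`
    subst hc
    have hφd : φ c' = x := by rw [hφe, if_pos rfl]
    have hφo : ∀ c, c ≠ c' → φ c = s c := by
      intro c hcc
      rw [hφe, if_neg hcc, if_neg hcc]
    have hxs : x ≠ s c' := by
      intro h
      obtain ⟨c, hcne⟩ := hne
      by_cases h1 : c = c'
      · rw [h1, hφd, h] at hcne
        exact hcne rfl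
      · exact hcne (hφo c h1)
    obtain ⟨A, hA, hA'⟩ := KK_prefix (s := s) (s' := φ) (d := c') (p := p) hd hdp
      (fun c hce => hφo c (by omega)) htg (hpre c' hd le_rfl hdop)
    have hm : p + 1 - c' = (p - c') + 1 := by omega
    rw [hA, hA', hm]
    have hφ1 : φ (c' + 1) = s (c' + 1) := hφo _ (by omega)
    have hopφ : op φ c' := by
      unfold op
      rw [hφd, hφo (c' - 1) (by omega)]
      refine ⟨?_, hdop.2⟩
      rcases hx with h | h
      · exact Or.inl h
      · exact Or.inr (Or.inl h)
    rcases hdig (p - c') with ⟨h1, h2⟩ | ⟨h1, h2, h3⟩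
    · exfalso
      rcases hsd with h3 | h3
      · -- `s d = L`, `x = U`
        have hxU : x = .U := by
          rcases hx with h4 | h4
          · rw [h4, h3] at hxs
            exact absurd rfl hxs
          · exact h4
        have h5 := hs.nL c' hd hdp h3
        have h6 : s (c' + 1) = .L := h1.resolve_right h5
        have h7 := hφ.nU c' hd hdp (by rw [hφd]; exact hxU)
        rw [hφ1] at h7
        exact h7 h6
      · have hxL : x = .L := by
          rcases hx with h4 | h4
          · exact h4
          · rw [h4, h3] at hxs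
            exact absurd rfl hxs
        have h5 := hs.nU c' hd hdp h3
        have h6 : s (c' + 1) = .U := h1.resolve_left h5
        have h7 := hφ.nL c' hd hdp (by rw [hφd]; exact hxL)
        rw [hφ1] at h7
        exact h7 h6
    · have hxU : x = .U := by
        rcases hx with h4 | h4
        · rw [h4, h2] at hxs
          exact absurd rfl hxs
        · exact h4
      have k1 : KK φ (p - c' + 1) c' = 2 * 6 ^ (p - c') + KK φ (p - c') (c' + 1) := by
        rw [KK_succ, if_pos hopφ, if_neg (by rw [hφ1]; exact h1), if_pos (by rw [hφd]; exact hxU)]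
      rw [k1, h3]
      have h4 := KK_lt φ (p - c') (c' + 1)
      omega
  · -- `d < c'`
    have hφd : φ d = .D := by rw [hφe, if_neg (by omega), if_pos rfl]
    obtain ⟨A, hA, hA'⟩ := KK_prefix (s := s) (s' := φ) (d := d) (p := p) hd hdp
      (fun c hce => hlt c hce (by omega)) htg (hpre d hd le_rfl hdop)
    have hm : p + 1 - d = (p - d) + 1 := by omega
    rw [hA, hA', hm]
    have hopφ : op φ d := by
      unfold op
      rw [hφd, hlt (d - 1) (by omega) (by omega)]
      exact ⟨Or.inr (Or.inr rfl), hdop.2⟩
    have hp := hpow (p - d)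
    rcases Nat.lt_or_ge (d + 1) c' with h | h
    · have hφ1 : φ (d + 1) = s (d + 1) := by rw [hφe, if_neg (by omega), if_neg (by omega)]
      rcases hdig (p - d) with ⟨h1, h2⟩ | ⟨h1, h2, h3⟩
      · have k1 : KK φ (p - d + 1) d = 0 := by
          rw [KK_succ, if_pos hopφ, if_pos (by rw [hφ1]; exact h1), if_pos hφd]
        rw [k1, h2]
        omega
      · have k1 : KK φ (p - d + 1) d = 4 * 6 ^ (p - d) := by
          rw [KK_succ, if_pos hopφ, if_neg (by rw [hφ1]; exact h1), if_neg (by rw [hφd]; simp),
            if_pos hφd]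
        rw [k1, h3]
        omega
    · have hcd : c' = d + 1 := by omega
      have hφ1 : φ (d + 1) = x := by rw [← hcd, hφe, if_pos rfl]
      have k1 : KK φ (p - d + 1) d = 0 := by
        rw [KK_succ, if_pos hopφ, if_pos (by rw [hφ1]; exact hx), if_pos hφd]
      rw [k1]
      rcases hdig (p - d) with ⟨h1, h2⟩ | ⟨h1, h2, h3⟩
      · rw [h2]; omega
      · rw [h3]; omega

end Pool.Agent.H14.SQ
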