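import Pool.Agent.H14.SQ.G3
import Pool.Agent.H14.SQ.KU
import Pool.Agent.H14.SQ.KD

/-!
# G4: a configuration with a toggle column is matched
-/

set_option autoImplicit false

namespace Pool.Agent.H14.SQ

variable {n p : ℕ}

/-- fourth key -/
noncomputable def K4 (p : ℕ) (Q : Cube n) : ℕ := KK (stt p Q) p 1

theorem Pk.face {q : ℕ} {Q : Cube n} (h : Pk p q Q) {i : Fin n × Bool} (hi : i ∈ Q.s) (ε : Bool) :
    Pk p q (Q.face i ε) :=
  inX_iff.1 ((face_set_subset Q hi ε).trans (inX_iff.2 h))

theorem col_nat {q : ℕ} {Q : Cube n} (h : Pk p q Q) (l : Fin n) :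
    ∃ c : ℕ, Q.a (l, false) = c ∧ 1 ≤ c ∧ c ≤ p := by
  obtain ⟨r1, r2, -, -⟩ := h.rng l
  have := w_nonneg Q (l, false)
  refine ⟨(Q.a (l, false)).toNat, ?_, ?_, ?_⟩
  · rw [Int.toNat_of_nonneg (by omega)]
  · omega
  · omega

/-- extend the monomino `k` to the vertical domino of its column -/
def exV (Q : Cube n) (k : Fin n) : Cube n := ⟨Function.update Q.a (k, true) 1, insert (k, true) Q.s⟩

theorem exV_face {Q : Cube n} {k : Fin n} (hk : (k, true) ∉ Q.s) {ε : Bool}
    (h : Q.a (k, true) = if ε = true then 2 else 1) : (exV Q k).face (k, true) ε = Q := by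
  apply Cube.ext
  · funext j
    rw [face_a]
    by_cases hj : j = (k, true)
    · subst hj
      rw [h]
      unfold exV
      cases ε <;> simp
    · unfold exV
      simp [hj]
  · rw [face_s]
    exact Finset.erase_insert hk

theorem Pk.exV {Q : Cube n} (h : Pk p 2 Q) (hH : ∀ m, (m, false) ∉ Q.s) {k : Fin n}
    (hu : ∀ l, Q.a (l, false) = Q.a (k, false) → l = k) : Pk p 2 (exV Q k) := by
  have haf : ∀ m, (SQ.exV Q k).a (m, false) = Q.a (m, false) := fun m => by unfold SQ.exV; simp
  have hat : ∀ m, m ≠ k → (SQ.exV Q k).a (m, true) = Q.a (m, true) := fun m hm => by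
    unfold SQ.exV; simp [hm]
  have hak : (SQ.exV Q k).a (k, true) = 1 := by unfold SQ.exV; simp
  have hwf : ∀ m, (SQ.exV Q k).w (m, false) = 0 := fun m => by
    apply Cube.w_of_notMem
    unfold SQ.exV
    simpa using hH m
  have hwf' : ∀ m, Q.w (m, false) = 0 := fun m => Cube.w_of_notMem (hH m)
  have hwk : (SQ.exV Q k).w (k, true) = 1 := Cube.w_of_mem (Finset.mem_insert_self _ _)
  have hwt : ∀ m, m ≠ k → (SQ.exV Q k).w (m, true) = Q.w (m, true) := fun m hm => by
    unfold Cube.w SQ.exV
    simp [hm]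
  constructor
  · intro m
    obtain ⟨r1, r2, r3, r4⟩ := h.rng m
    rw [haf, hwf]
    rw [hwf'] at r2
    by_cases hm : m = k
    · subst hm
      rw [hak, hwk]
      exact ⟨r1, r2, by norm_num, by norm_num⟩
    · rw [hat m hm, hwt m hm]
      exact ⟨r1, r2, r3, r4⟩
  · rintro m l u v ⟨c1, c2, c3, c4⟩ ⟨d1, d2, d3, d4⟩
    rw [haf, hwf] at c2 d2
    rw [haf] at c1 d1
    have hml : Q.a (m, false) = Q.a (l, false) := by omega
    by_cases hm : m = k
    · subst hm
      exact (hu l hml.symm).symm
    · by_cases hl : l = k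
      · subst hl
        exact hu m hml
      · rw [hat m hm] at c3 c4
        rw [hat l hl] at d3 d4
        rw [hwt m hm] at c4
        rw [hwt l hl] at d4
        have e1 := hwf' m
        have e2 := hwf' l
        exact h.disj m l u v ⟨by omega, by omega, c3, c4⟩ ⟨by omega, by omega, d3, d4⟩

theorem K2_exV {Q : Cube n} {k : Fin n} (hk : (k, true) ∉ Q.s) {ε : Bool}
    (h : Q.a (k, true) = if ε = true then 2 else 1) : K2 (exV Q k) = K2 Q + 1 := by
  have h1 := K2_face_t (Q := exV Q k) (l := k) (Finset.mem_insert_self _ _) ε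
  rw [exV_face hk h] at h1
  exact h1.symm

/-- matched up -/
theorem good_up {σ : Cube n} (hσ : Pk p 2 σ) (hE : ∀ k, ¬ Ef p σ k) {d : ℕ} (hd : 1 ≤ d) (hdp : d ≤ p)
    (htg : ∀ c, 1 ≤ c → c < d → ¬ tg (stt p σ) c) (hd' : tg (stt p σ) d)
    (hsd : stt p σ d = .L ∨ stt p σ d = .U) : Good p 2 (key p (K4 p)) σ := by
  have hH : ∀ m, (m, false) ∉ σ.s := fun m hm => hE m (hσ.ef hm)
  have hs := sk_of hσ hE
  obtain ⟨k, hk, hu⟩ := single_of hσ hd hdp (hsd.elim Or.inl fun h => Or.inr (Or.inl h))
  have hks : (k, true) ∉ σ.s := by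
    intro h
    have h1 : stt p σ d = .D := (stt_D hd hdp).2 ⟨k, hk, h⟩
    rw [h1] at hsd
    simp at hsd
  obtain ⟨ε₀, hε₀⟩ : ∃ ε₀ : Bool, σ.a (k, true) = if ε₀ = true then 2 else 1 := by
    rcases row12 hσ k with h | h
    · exact ⟨false, by simp [h]⟩
    · exact ⟨true, by simp [h]⟩
  have hu' : ∀ l, σ.a (l, false) = σ.a (k, false) → l = k := fun l hl => hu l (by rw [hl, hk])
  have hρ := hσ.exV hH hu'
  have hface := exV_face hks hε₀
  have hρa : ∀ m, (exV σ k).a (m, false) = σ.a (m, false) := fun m => by unfold exV; simp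
  left
  refine ⟨exV σ k, inX_iff.2 hρ, ⟨(k, true), Finset.mem_insert_self _ _, ε₀, hface⟩, ?_⟩
  rintro ⟨l, e⟩ hl ε hne
  have he : e = true := by
    cases e
    · exfalso
      unfold exV at hl
      simp at hl
      exact hH l hl
    · rfl
  subst he
  have hφ : Pk p 2 ((exV σ k).face (l, true) ε) := hρ.face hl ε
  have e1 : K1 p ((exV σ k).face (l, true) ε) = K1 p σ := by
    rw [K1_face_t]
    exact K1_congr hρa
  have e2 : K2 ((exV σ k).face (l, true) ε) = K2 σ := by
    have h1 := K2_face_t hl ε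
    have h2 := K2_exV hks hε₀
    omega
  by_cases hst : ∃ m, Ef p ((exV σ k).face (l, true) ε) m
  · obtain ⟨m, hm⟩ := hst
    refine key_lt3 e1 e2 ?_
    rw [K3_two hE]
    exact K3_lt_two hm
  · push Not at hst
    refine key_lt4 e1 e2 (by rw [K3_two hE, K3_two hst]) ?_
    obtain ⟨c', hc', hc1, hcp⟩ := col_nat hσ l
    have hcρ : (exV σ k).a (l, false) = c' := by rw [hρa, hc']
    have hkρ : (exV σ k).a (k, false) = d := by rw [hρa, hk]
    have hρd : stt p (exV σ k) d = .D := (stt_D hd hdp).2 ⟨k, hkρ, Finset.mem_insert_self _ _⟩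
    have hρs : ∀ c, c ≠ d → stt p (exV σ k) c = stt p σ c := by
      intro c hc
      have h1 := stt_face hρ (Finset.mem_insert_self _ _) ε₀ hkρ c
      rw [hface, if_neg hc] at h1
      exact h1.symm
    have hφe := stt_face hρ hl ε hcρ
    have hφe' : ∀ c, stt p ((exV σ k).face (l, true) ε) c =
        if c = c' then (if ε = true then .U else .L) else if c = d then .D else stt p σ c := by
      intro c
      rw [hφe]
      by_cases h1 : c = c'
      · rw [if_pos h1, if_pos h1]
      · rw [if_neg h1, if_neg h1]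
        by_cases h2 : c = d
        · rw [if_pos h2, h2, hρd]
        · rw [if_neg h2, hρs c h2]
    have hx : (if ε = true then St.U else St.L) = .L ∨ (if ε = true then St.U else St.L) = .U := by
      cases ε <;> simp
    refine key_up hs (sk_of hφ hst) hd hdp htg hd' hsd hx hc1 hcp ?_ hφe' ?_
    · by_cases hlk : l = k
      · left
        subst hlk
        have : (c' : ℤ) = d := by rw [← hc', hk]
        exact_mod_cast this
      · right
        refine (stt_D hc1 hcp).2 ⟨l, hc', ?_⟩
        unfold exV at hl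
        simpa [hlk] using hl
    · refine ⟨c', ?_⟩
      rw [hφe', if_pos rfl]
      by_cases hlk : l = k
      · subst hlk
        have hcd : c' = d := by
          have : (c' : ℤ) = d := by rw [← hc', hk]
          exact_mod_cast this
        subst hcd
        have hεε : ε ≠ ε₀ := by
          rintro rfl
          exact hne hface
        have h1 := stt_face hρ (Finset.mem_insert_self _ _) ε₀ hkρ c'
        rw [hface, if_pos rfl] at h1
        rw [h1]
        revert hεε
        cases ε <;> cases ε₀ <;> simp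
      · have h3 : stt p σ c' = .D := by
          refine (stt_D hc1 hcp).2 ⟨l, hc', ?_⟩
          unfold exV at hl
          simpa [hlk] using hl
        rw [h3]
        cases ε <;> simp

/-- matched down -/
theorem good_down {σ : Cube n} (hσ : Pk p 2 σ) (hE : ∀ k, ¬ Ef p σ k) {d : ℕ} (hd : 1 ≤ d) (hdp : d ≤ p)
    (htg : ∀ c, 1 ≤ c → c < d → ¬ tg (stt p σ) c) (hd' : tg (stt p σ) d)
    (hsd : stt p σ d = .D) : Good p 2 (key p (K4 p)) σ := by
  have hH : ∀ m, (m, false) ∉ σ.s := fun m hm => hE m (hσ.ef hm)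
  have hs := sk_of hσ hE
  obtain ⟨k, hk, hks⟩ := (stt_D hd hdp).1 hsd
  have hu : ∀ l, σ.a (l, false) = d → l = k := fun l hl => col_dom hσ hks (by rw [hl, hk])
  obtain ⟨ε, hε⟩ : ∃ ε : Bool, ε = true ↔ stt p σ (d + 1) = .U := by
    by_cases h : stt p σ (d + 1) = .U
    · exact ⟨true, by simp [h]⟩
    · exact ⟨false, by simp [h]⟩
  obtain ⟨τ, hτ⟩ : ∃ τ, τ = σ.face (k, true) ε := ⟨_, rfl⟩
  have hτP : Pk p 2 τ := by rw [hτ]; exact hσ.face hks ε
  have hτs := stt_face hσ hks ε hk
  rw [← hτ] at hτs
  have hτaf : ∀ m, τ.a (m, false) = σ.a (m, false) := fun m => by rw [hτ, face_a]; simp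
  have hτat : ∀ m, m ≠ k → τ.a (m, true) = σ.a (m, true) := fun m hm => by rw [hτ, face_a]; simp [hm]
  have hτak : τ.a (k, true) = if ε = true then 2 else 1 := by
    rw [hτ, face_a, dom1 hσ hks]; cases ε <;> simp
  have hτss : τ.s = σ.s.erase (k, true) := by rw [hτ]; rfl
  have hτwk : τ.w (k, true) = 0 := Cube.w_of_notMem (by rw [hτss]; simp)
  have hτw : ∀ m, m ≠ k → τ.w (m, true) = σ.w (m, true) := fun m hm => by
    unfold Cube.w
    rw [hτss]
    simp [hm]
  have hσwk : σ.w (k, true) = 1 := Cube.w_of_mem hks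
  have hσak := dom1 hσ hks
  -- no piece of `τ` can move to the right
  have hτE : ∀ m, ¬ Ef p τ m := by
    rintro m ⟨hm1, hm2⟩
    rw [hτaf] at hm1
    obtain ⟨c, hc, hc1, hcp⟩ := col_nat hσ m
    have h1 := hE m
    unfold Ef at h1
    push Not at h1
    obtain ⟨l, hl1, hl2, hl3⟩ := h1 hm1
    by_cases hmk : m = k
    · subst hmk
      have hcd : c = d := by
        have : (c : ℤ) = d := by rw [← hc, hk]
        exact_mod_cast this
      subst hcd
      have hdp' : c + 1 ≤ p := by rw [hc] at hm1; exact_mod_cast hm1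
      by_cases hU : stt p σ (c + 1) = .U
      · have hεt := hε.2 hU
        rw [if_pos hεt] at hτak
        obtain ⟨-, -, l', b1, b2⟩ := (stt_U (by omega) hdp').1 hU
        have hl'm : l' ≠ m := by
          rintro rfl
          rw [hc] at b1
          push_cast at b1
          omega
        refine hm2 l' (by rw [hτaf, hτaf, b1, hc]; push_cast; ring) ?_
        unfold VO
        rw [hτat l' hl'm, hτw l' hl'm, b2, hτak, hτwk]
        have := w_nonneg σ (l', true)
        constructor <;> omega
      · have hεf : ¬ (ε = true) := fun h => hU (hε.1 h)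
        rw [if_neg hεf] at hτak
        have hlk : l ≠ m := by
          rintro rfl
          omega
        have hP1 : ∃ l', σ.a (l', false) = ((c + 1 : ℕ) : ℤ) ∧ σ.a (l', true) = 1 := by
          by_contra hcon
          push Not at hcon
          apply hU
          refine (stt_U (by omega) hdp').2 ⟨?_, ?_, ?_⟩
          · rintro ⟨x, x1, x2⟩
            exact hcon x x1 (dom1 hσ x2)
          · rintro ⟨x, x1, x2⟩
            exact hcon x x1 x2
          · refine ⟨l, by rw [hl1, hc]; push_cast; ring, ?_⟩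
            rcases row12 hσ l with h5 | h5
            · exact absurd h5 (hcon l (by rw [hl1, hc]; push_cast; ring))
            · exact h5
        obtain ⟨l', b1, b2⟩ := hP1
        have hl'm : l' ≠ m := by
          rintro rfl
          rw [hc] at b1
          push_cast at b1
          omega
        refine hm2 l' (by rw [hτaf, hτaf, b1, hc]; push_cast; ring) ?_
        unfold VO
        rw [hτat l' hl'm, hτw l' hl'm, b2, hτak, hτwk]
        have := w_nonneg σ (l', true)
        constructor <;> omega
    · by_cases hlk : l = k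
      · subst hlk
        have hcd : c + 1 = d := by
          have : ((c + 1 : ℕ) : ℤ) = d := by rw [← hk, hl1, hc]; push_cast; ring
          exact_mod_cast this
        have hcD : stt p σ c = .D := by
          rcases hd'.1.2 with h5 | h5
          · have h6 : d - 1 = c := by omega
            rw [h6] at h5
            exact absurd hc ((stt_E hσ hc1 hcp).1 h5 m)
          · have h6 : d - 1 = c := by omega
            rwa [h6] at h5
        obtain ⟨m', b1, b2⟩ := (stt_D hc1 hcp).1 hcD
        have hmm : m = m' := col_dom hσ b2 (by rw [hc, b1])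
        subst hmm
        refine hm2 l (by rw [hτaf, hτaf, hl1]) ?_
        unfold VO
        rw [hτat m hmk, hτw m hmk, hτak, hτwk, dom1 hσ b2, Cube.w_of_mem b2]
        cases ε <;> simp
      · refine hm2 l (by rw [hτaf, hτaf, hl1]) ?_
        unfold VO
        rw [hτat m hmk, hτw m hmk, hτat l hlk, hτw l hlk]
        exact ⟨hl2, hl3⟩
  have hK1τ : K1 p τ = K1 p σ := by rw [hτ, K1_face_t]
  have hK2τ : K2 τ + 1 = K2 σ := by rw [hτ]; exact K2_face_t hks ε
  right
  refine ⟨(k, true), hks, ε, ?_⟩
  rintro σ' hσ' ⟨l, e⟩ hl ε' hf hne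
  rw [inX_iff] at hσ'
  rw [← hτ] at hf
  cases e
  · cases ε'
    · exfalso
      have h1 : Ef p σ' l := hσ'.ef hl
      apply hτE l
      have ha : τ.a = σ'.a := by
        rw [← hf]
        funext j
        rw [face_a]
        simp
      have hst : ∀ m, (m, true) ∈ τ.s ↔ (m, true) ∈ σ'.s := by
        intro m
        rw [← hf, face_s]
        simp
      exact (ef_congr ha hst l).2 h1
    · refine key_lt1 ?_
      rw [← hK1τ, ← hf]
      exact K1_face_lt hσ' hl
  · have e1 : K1 p σ' = K1 p σ := by rw [← hK1τ, ← hf, K1_face_t]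
    have e2 : K2 σ' = K2 σ := by
      rw [← hK2τ, ← hf]
      exact (K2_face_t hl ε').symm
    have haf' : ∀ m, σ'.a (m, false) = τ.a (m, false) := fun m => by rw [← hf, face_a]; simp
    have hat' : ∀ m, m ≠ l → σ'.a (m, true) = τ.a (m, true) := fun m hm => by
      rw [← hf, face_a]; simp [hm]
    have hs' : σ'.s = insert (l, true) τ.s := by rw [← hf, face_s, Finset.insert_erase hl]
    have hlτ : (l, true) ∉ τ.s := by rw [← hf, face_s]; simp
    have hal' : σ'.a (l, true) = 1 := dom1 hσ' hl
    have hwl' : σ'.w (l, true) = 1 := Cube.w_of_mem hl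
    have hw' : ∀ m, m ≠ l → σ'.w (m, true) = τ.w (m, true) := fun m hm => by
      unfold Cube.w
      rw [hs']
      simp [hm]
    have hσ'E : ∀ m, ¬ Ef p σ' m := by
      rintro m ⟨hm1, hm2⟩
      apply hτE m
      refine ⟨by rw [← haf']; exact hm1, fun x hx hvo => ?_⟩
      refine hm2 x (by rw [haf', haf', hx]) ?_
      have g1 := row12 hτP m
      have g2 := row12 hτP x
      have g3 := w_nonneg τ (m, true)
      have g4 := w_nonneg τ (x, true)
      unfold VO at hvo ⊢
      by_cases hml : m = l
      · subst hml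
        by_cases hxm : x = m
        · subst hxm
          rw [hal', hwl']; omega
        · rw [hal', hwl', hat' x hxm, hw' x hxm]
          omega
      · by_cases hxl : x = l
        · subst hxl
          rw [hal', hwl', hat' m hml, hw' m hml]
          omega
        · rw [hat' m hml, hw' m hml, hat' x hxl, hw' x hxl]
          exact hvo
    obtain ⟨c', hc', hc1, hcp⟩ := col_nat hσ' l
    have hc'τ : τ.a (l, false) = c' := by rw [← haf', hc']
    have hc'σ : σ.a (l, false) = c' := by rw [← hτaf, hc'τ]
    have hcd : c' ≠ d := by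
      rintro rfl
      have hlk := hu l hc'σ
      subst hlk
      apply hne
      apply Cube.ext
      · funext j
        by_cases hj : j = (l, true)
        · rw [hj, hal', hσak]
        · obtain ⟨m, e⟩ := j
          cases e
          · rw [haf', hτaf]
          · have hml : m ≠ l := fun h => hj (by rw [h])
            rw [hat' m hml, hτat m hml]
      · rw [hs', hτss, Finset.insert_erase hks]
    have hτs' := stt_face hσ' hl ε' hc'
    rw [hf] at hτs'
    have hm : stt p σ c' = .L ∨ stt p σ c' = .U := by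
      have h1 := hτs c'
      have h2 := hτs' c'
      rw [if_neg hcd] at h1
      rw [if_pos rfl] at h2
      rw [← h1, h2]
      cases ε' <;> simp
    refine key_lt4 e1.symm e2.symm (by rw [K3_two hE, K3_two hσ'E]) ?_
    refine key_down hs hd hdp htg hd' hsd hc1 hcp hcd hm ?_
    intro c
    by_cases h1 : c = c'
    · rw [if_pos h1, h1]
      exact (stt_D hc1 hcp).2 ⟨l, hc', hl⟩
    · rw [if_neg h1]
      have h2 := hτs c
      have h3 := hτs' c
      rw [if_neg h1] at h3
      rw [← h3, h2]
      by_cases h4 : c = d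
      · rw [if_pos h4, if_pos h4]
        by_cases h5 : stt p σ (d + 1) = .U
        · rw [if_pos (hε.2 h5), if_pos h5]
        · rw [if_neg (fun h => h5 (hε.1 h)), if_neg h5]
      · rw [if_neg h4, if_neg h4]

/-- a configuration with a toggle column is matched -/
theorem good_of_tg {σ : Cube n} (hσ : Pk p 2 σ) (hE : ∀ k, ¬ Ef p σ k)
    (ht : ∃ c, 1 ≤ c ∧ c ≤ p ∧ tg (stt p σ) c) : Good p 2 (key p (K4 p)) σ := by
  classical
  obtain ⟨d, ⟨hd, hdp, hd'⟩, hmin⟩ := WellFounded.has_min (wellFounded_lt (α := ℕ))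
    {c | 1 ≤ c ∧ c ≤ p ∧ tg (stt p σ) c} ht
  have htg : ∀ c, 1 ≤ c → c < d → ¬ tg (stt p σ) c := fun c h1 h2 h3 =>
    hmin c ⟨h1, by omega, h3⟩ h2
  rcases hd'.1.1 with h | h | h
  · exact good_up hσ hE hd hdp htg hd' (Or.inl h)
  · exact good_up hσ hE hd hdp htg hd' (Or.inr h)
  · exact good_down hσ hE hd hdp htg hd' h

end Pool.Agent.H14.SQ
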