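import Pool.Agent.H14.SQ.K

/-!
# N: the inequality of Q1 for height 2
-/

set_option autoImplicit false

namespace Pool.Agent.H14.SQ

/-- ROW N1. The columns `D` are at most as many as the columns `L`, `U`, `B` if no column is a toggle column: the column
before a column `D` is `L`, `U` or `B` (else it would be `op`, a toggle column); the map `c ↦ c - 1` is injective. -/
theorem card_D {s : ℕ → St} {p : ℕ} (hs : Sk p s) (htg : ∀ c, 1 ≤ c → c ≤ p → ¬ tg s c) :
    ((Finset.Icc 1 p).filter fun c => s c = .D).card ≤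
      ((Finset.Icc 1 p).filter fun c => s c = .L ∨ s c = .U).card +
        ((Finset.Icc 1 p).filter fun c => s c = .B).card := by
  have key : ∀ c, 1 ≤ c → c ≤ p → s c = .D → s (c - 1) ≠ .E ∧ s (c - 1) ≠ .D := by
    intro c h1 h2 h3
    have h4 : ¬ (s (c - 1) = .E ∨ s (c - 1) = .D) := by
      intro h5
      refine htg c h1 h2 ⟨⟨Or.inr (Or.inr h3), h5⟩, ?_⟩
      rintro ⟨h6, -⟩
      rw [h3] at h6
      exact absurd h6 (by decide)
    exact ⟨fun h => h4 (Or.inl h), fun h => h4 (Or.inr h)⟩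
  refine le_trans (Finset.card_le_card_of_injOn (fun c => c - 1) ?_ ?_) (Finset.card_union_le _ _)
  · intro c hc
    rw [Finset.mem_coe, Finset.mem_filter, Finset.mem_Icc] at hc
    obtain ⟨⟨h1, h2⟩, h3⟩ := hc
    obtain ⟨k1, k2⟩ := key c h1 h2 h3
    have h4 : 1 ≤ c - 1 := by
      by_contra hcon
      have h5 : c - 1 = 0 := by omega
      rw [h5] at k1
      exact k1 hs.s0
    have h5 : c - 1 ∈ Finset.Icc 1 p := Finset.mem_Icc.2 ⟨h4, by omega⟩
    rw [Finset.mem_coe, Finset.mem_union, Finset.mem_filter, Finset.mem_filter]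
    cases h6 : s (c - 1) with
    | E => exact absurd h6 k1
    | L => exact Or.inl ⟨h5, Or.inl rfl⟩
    | U => exact Or.inl ⟨h5, Or.inr rfl⟩
    | D => exact absurd h6 k2
    | B => exact Or.inr ⟨h5, rfl⟩
  · intro c hc c' hc' h
    rw [Finset.mem_coe, Finset.mem_filter, Finset.mem_Icc] at hc hc'
    have h1 : c - 1 = c' - 1 := h
    have h2 := hc.1.1
    have h3 := hc'.1.1
    omega

end Pool.Agent.H14.SQ
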