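import Mathlib

/-!
# NR: the inequality
-/

set_option autoImplicit false

namespace Pool.Agent.H14.SQ

/-- ROW N2. With `A = 2p`, `x = n / A`, `y = j / A`: `4 n² ≤ 9 p (n - j)`. Put `t = u + 2 b = n - j`. Then
`9 (u + j + b) t - 4 (t + j)² = 5 t² + j t - 4 j² - 9 b t`; if `2 j ≥ t` use `b ≤ t - j` (from `j ≤ u + b`): it is
`≥ 2 (2 t - j) (2 j - t) ≥ 0`; if `t ≥ 2 j` use `2 b ≤ t`: it is `≥ (t + 4 j) (t - 2 j) / 2 ≥ 0`. -/
theorem real_bound2 {n p j u b : ℕ} (hp : 0 < p) (h1 : n = u + j + 2 * b) (h2 : u + j + b ≤ p) (h3 : j ≤ u + b) :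
    (j : ℝ) / (p * 2) ≤ min ((n : ℝ) / (p * 2) - 8 / 9 * ((n : ℝ) / (p * 2)) ^ 2)
      (min (1 - (n : ℝ) / (p * 2)) (1 / 4)) := by
  have hp' : (0 : ℝ) < p := by exact_mod_cast hp
  have hA : (0 : ℝ) < (p : ℝ) * 2 := by linarith
  have e1 : (n : ℝ) = u + j + 2 * b := by exact_mod_cast h1
  have e2 : (u : ℝ) + j + b ≤ p := by exact_mod_cast h2
  have e3 : (j : ℝ) ≤ u + b := by exact_mod_cast h3
  have hj : (0 : ℝ) ≤ j := Nat.cast_nonneg j
  have hu : (0 : ℝ) ≤ u := Nat.cast_nonneg u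
  have hb : (0 : ℝ) ≤ b := Nat.cast_nonneg b
  have hmain : 4 * (n : ℝ) ^ 2 ≤ 9 * p * (n - j) := by
    have h4 : 4 * (n : ℝ) ^ 2 ≤ 9 * ((u : ℝ) + j + b) * (u + 2 * b) := by
      rw [e1]
      rcases le_total ((u : ℝ) + 2 * b) (2 * j) with h | h
      · have h5 : 0 ≤ (2 * ((u : ℝ) + 2 * b) - j) * (2 * j - (u + 2 * b)) :=
          mul_nonneg (by linarith) (by linarith)
        have h6 : 0 ≤ ((u : ℝ) + b - j) * (u + 2 * b) := mul_nonneg (by linarith) (by linarith)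
        nlinarith
      · have h5 : 0 ≤ (((u : ℝ) + 2 * b) + 4 * j) * ((u + 2 * b) - 2 * j) :=
          mul_nonneg (by linarith) (by linarith)
        have h6 : 0 ≤ (u : ℝ) * (u + 2 * b) := mul_nonneg hu (by linarith)
        nlinarith
    have h7 : 9 * ((u : ℝ) + j + b) * (u + 2 * b) ≤ 9 * p * (u + 2 * b) :=
      mul_le_mul_of_nonneg_right (by linarith) (by linarith)
    have h8 : (n : ℝ) - j = u + 2 * b := by rw [e1]; ring
    rw [h8]
    exact h4.trans h7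
  refine le_min ?_ (le_min ?_ ?_)
  · have h9 : (n : ℝ) / (p * 2) - 8 / 9 * ((n : ℝ) / (p * 2)) ^ 2 - (j : ℝ) / (p * 2) =
        (9 * p * ((n : ℝ) - j) - 4 * (n : ℝ) ^ 2) / (18 * (p : ℝ) ^ 2) := by
      field_simp
      ring
    have h10 : 0 ≤ (9 * p * ((n : ℝ) - j) - 4 * (n : ℝ) ^ 2) / (18 * (p : ℝ) ^ 2) :=
      div_nonneg (by linarith) (by positivity)
    linarith
  · rw [div_le_iff₀ hA, sub_mul, one_mul, div_mul_cancel₀ _ hA.ne']
    rw [e1]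
    linarith
  · rw [div_le_iff₀ hA]
    linarith

end Pool.Agent.H14.SQ
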