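import Pool.Agent.H14.SQ.V2

/-!
# V3: the matching principle
-/

set_option autoImplicit false

namespace Pool.Agent.H14.SQ

variable {n p q : ℕ} {α : Type} [LinearOrder α]

/-- ROW V2d. Suppose all cubes of dimension `j` of the complex are `Good`.  Claim: for each `M : α` every cycle `z`
(`IsChain p q j z`, `bd z = 0`) with `f σ ≤ M` on its support is the boundary of a chain of dimension `j + 1`.
Well-founded induction on `M`, and for given `M` induction on the number `c` of the `σ` in the support with `f σ = M`.
`c = 0`: `z = 0`, or use the claim for the maximum of `f` on the support, which is `< M`.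
`c + 1`: take such a `σ`. If the second alternative of `Good` holds then `other_coface` gives `σ' ≠ σ` in the support with
`f σ < f σ'`, contradiction. If the first holds with `ρ`, let `u = bdCube ρ σ` (`u * u = 1` by `bdCube_face`),
`z' = z - (z σ * u) • bdCube ρ`: a cycle by `bd_bdCube`, a chain by `bdCube_ne`, `face_set_subset`; `z' σ = 0`; at the
other `x` with `f x = M` we have `z' x = z x` as `bdCube ρ x = 0` (`bdCube_ne`); so `z'` has `c` such cubes, is a boundary
`bd w`, and `z = bd (w + (z σ * u) • Finsupp.single ρ 1)`. (`bd` is `Finsupp.linearCombination ℤ bdCube`.) -/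
theorem exists_bad [WellFoundedLT α] (f : Cube n → α) {j : ℕ} (h : HomologyNonzero n p q j) :
    ∃ σ : Cube n, σ.set ⊆ Cfg n p q ∧ σ.s.card = j ∧ ¬ Good p q f σ := by
  classical
  by_contra hcon
  push Not at hcon
  have hbd : ∀ z : Cube n →₀ ℤ, bd z = Finsupp.linearCombination ℤ bdCube z := fun z => by
    rw [Finsupp.linearCombination_apply]; rfl
  have hbd0 : bd (0 : Cube n →₀ ℤ) = 0 := by rw [hbd, map_zero]
  have key : ∀ M : α, ∀ z : Cube n →₀ ℤ, IsChain p q j z → bd z = 0 → (∀ σ ∈ z.support, f σ ≤ M) →
      ∃ w : Cube n →₀ ℤ, IsChain p q (j + 1) w ∧ bd w = z := by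
    intro M
    induction M using WellFoundedLT.induction with
    | ind M ih =>
    have inner : ∀ c : ℕ, ∀ z : Cube n →₀ ℤ, IsChain p q j z → bd z = 0 →
        (∀ σ ∈ z.support, f σ ≤ M) → (z.support.filter fun σ => f σ = M).card = c →
        ∃ w : Cube n →₀ ℤ, IsChain p q (j + 1) w ∧ bd w = z := by
      intro c
      induction c with
      | zero =>
        intro z hz1 hz2 hz3 hz4
        by_cases hne : z.support.Nonempty
        · obtain ⟨σ0, h1, h2⟩ := Finset.exists_max_image z.support f hne
          have h3 : f σ0 ≠ M := by
            intro h3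
            have h5 := Finset.card_eq_zero.1 hz4
            have h6 : σ0 ∈ z.support.filter fun σ => f σ = M := Finset.mem_filter.2 ⟨h1, h3⟩
            rw [h5] at h6
            exact absurd h6 (Finset.notMem_empty _)
          exact ih (f σ0) (lt_of_le_of_ne (hz3 σ0 h1) h3) z hz1 hz2 h2
        · have h1 : z = 0 := by
            rw [← Finsupp.support_eq_empty]
            exact Finset.not_nonempty_iff_eq_empty.1 hne
          refine ⟨0, fun Q hQ => absurd hQ (by simp), ?_⟩
          rw [h1, hbd0]
      | succ c ihc =>
        intro z hz1 hz2 hz3 hz4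
        have hpos : 0 < (z.support.filter fun σ => f σ = M).card := by omega
        obtain ⟨σ, hσ⟩ := Finset.card_pos.1 hpos
        obtain ⟨hσ1, hσ2⟩ := Finset.mem_filter.1 hσ
        obtain ⟨hσ3, hσ4⟩ := hz1 σ hσ1
        rcases hcon σ hσ3 hσ4 with ⟨ρ, hρ1, ⟨i, hi, ε, hiε⟩, hρ2⟩ | ⟨i, hi, ε, h1⟩
        · have hu : bdCube ρ σ * bdCube ρ σ = 1 := by
            have := bdCube_face hi ε
            rwa [hiε] at this
          have hρc : ∀ i' ∈ ρ.s, ∀ ε', (ρ.face i' ε').s.card = j := by
            intro i' hi' ε'
            have h2 : (ρ.s.erase i).card = j := by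
              rw [← hσ4, ← hiε]
              rfl
            have h3 : (ρ.face i' ε').s = ρ.s.erase i' := rfl
            rw [h3, Finset.card_erase_of_mem hi']
            rw [Finset.card_erase_of_mem hi] at h2
            exact h2
          have hρj : ρ.s.card = j + 1 := by
            have h2 : (ρ.s.erase i).card = j := by
              rw [← hσ4, ← hiε]
              rfl
            have h3 := Finset.card_erase_add_one hi
            omega
          have hz'1 : IsChain p q j (z - (z σ * bdCube ρ σ) • bdCube ρ) := by
            intro Q hQ
            by_cases h2 : z Q = 0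
            · have h3 : bdCube ρ Q ≠ 0 := by
                intro h3
                apply Finsupp.mem_support_iff.1 hQ
                rw [Finsupp.sub_apply, Finsupp.smul_apply, h2, h3, smul_zero, sub_zero]
              obtain ⟨i', hi', ε', rfl⟩ := bdCube_ne h3
              exact ⟨(face_set_subset ρ hi' ε').trans hρ1, hρc i' hi' ε'⟩
            · exact hz1 Q (Finsupp.mem_support_iff.2 h2)
          have hz'2 : bd (z - (z σ * bdCube ρ σ) • bdCube ρ) = 0 := by
            have h2 := bd_bdCube ρ
            rw [hbd] at h2 hz2 ⊢
            rw [map_sub, map_smul, h2, hz2, smul_zero, sub_zero]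
          have hz'3 : ∀ Q ∈ (z - (z σ * bdCube ρ σ) • bdCube ρ).support, f Q ≤ M := by
            intro Q hQ
            by_cases h2 : z Q = 0
            · have h3 : bdCube ρ Q ≠ 0 := by
                intro h3
                apply Finsupp.mem_support_iff.1 hQ
                rw [Finsupp.sub_apply, Finsupp.smul_apply, h2, h3, smul_zero, sub_zero]
              obtain ⟨i', hi', ε', rfl⟩ := bdCube_ne h3
              by_cases h4 : ρ.face i' ε' = σ
              · rw [h4, hσ2]
              · exact (hρ2 i' hi' ε' h4).le.trans hσ2.le
            · exact hz3 Q (Finsupp.mem_support_iff.2 h2)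
          have hz'4 : ((z - (z σ * bdCube ρ σ) • bdCube ρ).support.filter fun τ => f τ = M).card = c := by
            have h5 : ((z - (z σ * bdCube ρ σ) • bdCube ρ).support.filter fun τ => f τ = M) =
                (z.support.filter fun τ => f τ = M).erase σ := by
              ext Q
              rw [Finset.mem_filter, Finset.mem_erase, Finset.mem_filter, Finsupp.mem_support_iff,
                Finsupp.mem_support_iff, Finsupp.sub_apply, Finsupp.smul_apply, smul_eq_mul]
              by_cases hQσ : Q = σ
              · subst hQσ
                have h6 : z Q - z Q * bdCube ρ Q * bdCube ρ Q = 0 := by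
                  rw [mul_assoc, hu, mul_one, sub_self]
                simp [h6]
              · by_cases hQM : f Q = M
                · have h7 : bdCube ρ Q = 0 := by
                    by_contra h7
                    obtain ⟨i', hi', ε', h8⟩ := bdCube_ne h7
                    have h9 := hρ2 i' hi' ε' (by rw [h8]; exact hQσ)
                    rw [h8, hQM, hσ2] at h9
                    exact lt_irrefl _ h9
                  rw [h7, mul_zero, sub_zero]
                  tauto
                · simp [hQM]
            rw [h5, Finset.card_erase_of_mem hσ, hz4]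
            rfl
          obtain ⟨w, hw1, hw2⟩ := ihc _ hz'1 hz'2 hz'3 hz'4
          refine ⟨w + (z σ * bdCube ρ σ) • Finsupp.single ρ 1, ?_, ?_⟩
          · intro Q hQ
            by_cases h2 : w Q = 0
            · have h3 : Q = ρ := by
                by_contra h3
                apply Finsupp.mem_support_iff.1 hQ
                rw [Finsupp.add_apply, Finsupp.smul_apply, h2, Finsupp.single_apply,
                  if_neg (fun h => h3 h.symm), smul_zero, add_zero]
              rw [h3]
              exact ⟨hρ1, hρj⟩
            · exact hw1 Q (Finsupp.mem_support_iff.2 h2)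
          · rw [hbd] at hw2 ⊢
            rw [map_add, map_smul, hw2, Finsupp.linearCombination_single, one_smul]
            abel
        · obtain ⟨σ', h2, h3, i', hi', ε', h4⟩ := other_coface hz2 hσ1 hi ε
          have h5 := h1 σ' (hz1 σ' h2).1 i' hi' ε' h4 h3
          rw [hσ2] at h5
          exact absurd (hz3 σ' h2) (not_le.2 h5)
    intro z hz1 hz2 hz3
    exact inner _ z hz1 hz2 hz3 rfl
  obtain ⟨z, hz1, hz2, hz3⟩ := h
  apply hz3
  by_cases hne : z.support.Nonempty
  · obtain ⟨σ0, h1, h2⟩ := Finset.exists_max_image z.support f hne
    exact key (f σ0) z hz1 hz2 h2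
  · have h1 : z = 0 := by
      rw [← Finsupp.support_eq_empty]
      exact Finset.not_nonempty_iff_eq_empty.1 hne
    refine ⟨0, fun Q hQ => absurd hQ (by simp), ?_⟩
    rw [h1, hbd0]

end Pool.Agent.H14.SQ
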