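import Pool.Agent.H14.SQ.G4
import Pool.Agent.H14.SQ.V3
import Pool.Agent.H14.SQ.N
import Pool.Agent.H14.SQ.NR

/-!
# G5: Q1 for the rectangles of height 2
-/

set_option autoImplicit false

namespace Pool.Agent.H14.SQ

variable {n p : ℕ}

theorem card_col {σ : Cube n} (hσ : Pk p 2 σ) {c : ℕ} (h1 : 1 ≤ c) (h2 : c ≤ p) :
    (Finset.univ.filter fun k => (σ.a (k, false)).toNat = c).card =
      (if stt p σ c = .D then 1 else 0) + (if stt p σ c = .L ∨ stt p σ c = .U then 1 else 0) +
        2 * (if stt p σ c = .B then 1 else 0) := by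
  have hiff : ∀ k, (σ.a (k, false)).toNat = c ↔ σ.a (k, false) = c := by
    intro k
    obtain ⟨x, hx, -, -⟩ := col_nat hσ k
    rw [hx, Int.toNat_natCast]
    exact_mod_cast Iff.rfl
  simp only [hiff]
  have one : (stt p σ c = .L ∨ stt p σ c = .U ∨ stt p σ c = .D) →
      (Finset.univ.filter fun k => σ.a (k, false) = c).card = 1 := by
    intro h
    obtain ⟨k, hk, hu⟩ := single_of hσ h1 h2 h
    rw [Finset.card_eq_one]
    refine ⟨k, ?_⟩
    ext l
    simp only [Finset.mem_filter, Finset.mem_univ, true_and, Finset.mem_singleton]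
    exact ⟨fun h => hu l h, fun h => by rw [h, hk]⟩
  rcases hs : stt p σ c with _ | _ | _ | _ | _
  · rw [stt_E hσ h1 h2] at hs
    rw [Finset.card_eq_zero.2]
    · simp
    · rw [Finset.filter_eq_empty_iff]
      intro k _ hk
      exact hs k hk
  · rw [one (Or.inl hs)]; simp
  · rw [one (Or.inr (Or.inl hs))]; simp
  · rw [one (Or.inr (Or.inr hs))]; simp
  · rw [stt_B h1 h2] at hs
    obtain ⟨a1, ⟨k1, b1, b2⟩, ⟨k2, b3, b4⟩⟩ := hs
    have hne : k1 ≠ k2 := by
      rintro rfl
      omega
    have : (Finset.univ.filter fun k => σ.a (k, false) = c) = {k1, k2} := by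
      ext l
      simp only [Finset.mem_filter, Finset.mem_univ, true_and, Finset.mem_insert, Finset.mem_singleton]
      constructor
      · intro hl
        have w1 := w_nonneg σ (k1, true)
        have w2 := w_nonneg σ (l, true)
        have w3 := w_nonneg σ (k2, true)
        rcases row12 hσ l with h4 | h4
        · left
          exact col_eq hσ (by rw [hl, b1]) 1 (by omega) (by omega) (by omega) (by omega)
        · right
          exact col_eq hσ (by rw [hl, b3]) 2 (by omega) (by omega) (by omega) (by omega)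
      · rintro (rfl | rfl)
        · exact b1
        · exact b3
    rw [this, Finset.card_pair hne]
    simp

/-- Q1 for the cubical complex of the rectangles of height `2` -/
theorem width_two {n p j : ℕ} (hp : 0 < p) (h : HomologyNonzero n p 2 j) :
    (j : ℝ) / (p * 2) ≤ min ((n : ℝ) / (p * 2) - 8 / 9 * ((n : ℝ) / (p * 2)) ^ 2)
      (min (1 - (n : ℝ) / (p * 2)) (1 / 4)) := by
  classical
  obtain ⟨σ, hσ, hj, hbad⟩ := exists_bad (key p (K4 p)) h
  rw [inX_iff] at hσ
  have hE : ∀ k, ¬ Ef p σ k := fun k hk => hbad (good_of_ef _ hσ ⟨k, hk⟩)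
  have htg : ∀ c, 1 ≤ c → c ≤ p → ¬ tg (stt p σ) c := fun c h1 h2 h3 =>
    hbad (good_of_tg hσ hE ⟨c, h1, h2, h3⟩)
  have hH : ∀ m, (m, false) ∉ σ.s := fun m hm => hE m (hσ.ef hm)
  have h3 := card_D (sk_of hσ hE) htg
  -- the number of pieces
  have hn : n = ((Finset.Icc 1 p).filter fun c => stt p σ c = .L ∨ stt p σ c = .U).card +
      ((Finset.Icc 1 p).filter fun c => stt p σ c = .D).card +
      2 * ((Finset.Icc 1 p).filter fun c => stt p σ c = .B).card := by
    have h1 : n = (Finset.univ : Finset (Fin n)).card := by simp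
    have h2 := Finset.card_eq_sum_card_fiberwise (s := (Finset.univ : Finset (Fin n)))
      (t := Finset.Icc 1 p) (f := fun k => (σ.a (k, false)).toNat) (by
        intro k _
        obtain ⟨x, hx, x1, x2⟩ := col_nat hσ k
        simp only [hx, Int.toNat_natCast, Finset.coe_Icc, Set.mem_Icc]
        exact ⟨x1, x2⟩)
    have h4 : ∀ c ∈ Finset.Icc 1 p, (Finset.univ.filter fun k => (σ.a (k, false)).toNat = c).card =
      (if stt p σ c = .D then 1 else 0) + (if stt p σ c = .L ∨ stt p σ c = .U then 1 else 0) +
        2 * (if stt p σ c = .B then 1 else 0) := fun c hc =>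
      card_col hσ (Finset.mem_Icc.1 hc).1 (Finset.mem_Icc.1 hc).2
    rw [Finset.sum_congr rfl h4, Finset.sum_add_distrib, Finset.sum_add_distrib, ← Finset.mul_sum,
      ← Finset.card_filter, ← Finset.card_filter, ← Finset.card_filter] at h2
    omega
  have hjD : j = ((Finset.Icc 1 p).filter fun c => stt p σ c = .D).card := by
    have h1 : σ.s.card = (Finset.univ.filter fun k => (k, true) ∈ σ.s).card := by
      have h1 := card_s σ
      have h2 : ∀ k, σ.w (k, false) = 0 := fun k => Cube.w_of_notMem (hH k)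
      simp only [h2, zero_add] at h1
      have h3 : ∑ k, σ.w (k, true) = ((Finset.univ.filter fun k => (k, true) ∈ σ.s).card : ℤ) := by
        rw [Finset.card_filter]
        push_cast
        rfl
      rw [h3] at h1
      exact_mod_cast h1
    rw [← hj, h1]
    refine Finset.card_bij (fun k _ => (σ.a (k, false)).toNat) ?_ ?_ ?_
    · intro k hk
      obtain ⟨x, hx, x1, x2⟩ := col_nat hσ k
      rw [hx, Int.toNat_natCast]
      exact Finset.mem_filter.2 ⟨Finset.mem_Icc.2 ⟨x1, x2⟩, (stt_D x1 x2).2 ⟨k, hx, (Finset.mem_filter.1 hk).2⟩⟩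
    · intro k hk l hl hkl
      obtain ⟨x, hx, x1, x2⟩ := col_nat hσ k
      obtain ⟨y, hy, y1, y2⟩ := col_nat hσ l
      simp only [hx, hy, Int.toNat_natCast] at hkl
      exact col_dom hσ (Finset.mem_filter.1 hl).2 (by rw [hx, hy, hkl])
    · intro c hc
      obtain ⟨h5, h6⟩ := Finset.mem_filter.1 hc
      obtain ⟨h7, h8⟩ := Finset.mem_Icc.1 h5
      obtain ⟨k, hk, hks⟩ := (stt_D h7 h8).1 h6
      exact ⟨k, Finset.mem_filter.2 ⟨Finset.mem_univ _, hks⟩, by rw [hk, Int.toNat_natCast]⟩
  have hsum : ((Finset.Icc 1 p).filter fun c => stt p σ c = .L ∨ stt p σ c = .U).card +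
      ((Finset.Icc 1 p).filter fun c => stt p σ c = .D).card +
      ((Finset.Icc 1 p).filter fun c => stt p σ c = .B).card ≤ p := by
    have h1 : (Finset.Icc 1 p).card = p := by simp
    rw [← Finset.card_union_of_disjoint, ← Finset.card_union_of_disjoint]
    · exact (Finset.card_le_card (by
        intro c hc
        rcases Finset.mem_union.1 hc with hc | hc
        · rcases Finset.mem_union.1 hc with hc | hc
          · exact (Finset.mem_filter.1 hc).1
          · exact (Finset.mem_filter.1 hc).1
        · exact (Finset.mem_filter.1 hc).1)).trans h1.le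
    · rw [Finset.disjoint_left]
      intro c hc hc'
      have h5 := (Finset.mem_filter.1 hc').2
      rcases Finset.mem_union.1 hc with hc | hc
      · have h6 := (Finset.mem_filter.1 hc).2
        rw [h5] at h6
        simp at h6
      · have h6 := (Finset.mem_filter.1 hc).2
        rw [h5] at h6
        simp at h6
    · rw [Finset.disjoint_left]
      intro c hc hc'
      have h5 := (Finset.mem_filter.1 hc').2
      have h6 := (Finset.mem_filter.1 hc).2
      rw [h5] at h6
      simp at h6
  rw [← hjD] at hn h3 hsum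
  exact real_bound2 hp hn hsum h3

end Pool.Agent.H14.SQ
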