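import Pool.Agent.H14.SQ.G2
import Pool.Agent.H14.SQ.V3

/-!
# P1: the homology of the cubical complex vanishes in the degrees `j ≥ n`
-/

set_option autoImplicit false

namespace Pool.Agent.H14.SQ

variable {n p q : ℕ}

/-- the left end of the piece `k` shrunk to its lower row is blocked on the right -/
def RB (p : ℕ) (Q : Cube n) (k : Fin n) : Prop :=
  (p : ℤ) < Q.a (k, false) + 1 ∨
    ∃ l, Q.a (l, false) = Q.a (k, false) + 1 ∧ Q.a (l, true) ≤ Q.a (k, true) ∧ Q.a (k, true) ≤ Q.a (l, true) + 1

theorem exists_slide {σ : Cube n} (hn : 0 < n) (hE : ∀ k, ¬ Ef p σ k) (hD : ∀ k, (k, true) ∈ σ.s) :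
    ∃ k, ∀ m, ¬ Ef p (σ.face (k, true) false) m := by
  classical
  have hw : ∀ k, σ.w (k, true) = 1 := fun k => Cube.w_of_mem (hD k)
  have : Nonempty (Fin n) := ⟨⟨0, hn⟩⟩
  have hne : (Finset.univ.filter fun k : Fin n => RB p σ k).Nonempty := by
    obtain ⟨k, -, hk⟩ := Finset.exists_max_image (Finset.univ : Finset (Fin n)) (fun k => σ.a (k, false))
      Finset.univ_nonempty
    refine ⟨k, Finset.mem_filter.2 ⟨Finset.mem_univ _, ?_⟩⟩
    left
    by_contra hcon
    apply hE k
    refine ⟨by omega, fun l hl _ => ?_⟩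
    have := hk l (Finset.mem_univ _)
    omega
  obtain ⟨k, hk, hmin⟩ := Finset.exists_min_image _ (fun k => σ.a (k, false)) hne
  have hRB : RB p σ k := (Finset.mem_filter.1 hk).2
  have haf : ∀ m, (σ.face (k, true) false).a (m, false) = σ.a (m, false) := fun m => by
    rw [face_a]; simp
  have hat : ∀ m, (σ.face (k, true) false).a (m, true) = σ.a (m, true) := fun m => by
    rw [face_a]; simp
  have hwk : (σ.face (k, true) false).w (k, true) = 0 := by
    apply Cube.w_of_notMem
    rw [face_s]
    simp
  have hwm : ∀ m, m ≠ k → (σ.face (k, true) false).w (m, true) = 1 := by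
    intro m hm
    apply Cube.w_of_mem
    rw [face_s]
    exact Finset.mem_erase.2 ⟨by simpa using hm, hD m⟩
  refine ⟨k, fun m hm => ?_⟩
  obtain ⟨hm1, hm2⟩ := hm
  rw [haf] at hm1
  by_cases hmk : m = k
  · subst hmk
    rcases hRB with h1 | ⟨l, l1, l2, l3⟩
    · omega
    · have hlm : l ≠ m := by
        rintro rfl
        omega
      apply hm2 l (by rw [haf, haf]; exact l1)
      unfold VO
      rw [hat, hat, hwk, hwm l hlm]
      constructor <;> omega
  · have h1 : ∃ l, σ.a (l, false) = σ.a (m, false) + 1 ∧ VO σ m l := by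
      by_contra hcon
      push Not at hcon
      exact hE m ⟨hm1, hcon⟩
    obtain ⟨l, l1, l2⟩ := h1
    have h2 := hm2 l (by rw [haf, haf]; exact l1)
    unfold VO at h2 l2
    rw [hw, hw] at l2
    rw [hat, hat, hwm m hmk] at h2
    by_cases hlk : l = k
    · subst hlk
      rw [hwk] at h2
      have h3 : RB p σ m := Or.inr ⟨l, l1, by omega, by omega⟩
      have h4 := hmin m (Finset.mem_filter.2 ⟨Finset.mem_univ _, h3⟩)
      omega
    · rw [hwm l hlk] at h2
      exact h2 l2

/-- fourth key -/
def K4h (q : ℕ) (Q : Cube n) : ℕ := ∑ k, ((q : ℤ) - Q.a (k, true)).toNat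

theorem good_of_full {σ : Cube n} (hn : 0 < n) (hσ : Pk p q σ) (hE : ∀ k, ¬ Ef p σ k)
    (hD : ∀ k, (k, true) ∈ σ.s) : Good p q (key p (K4h q)) σ := by
  obtain ⟨k, hτ⟩ := exists_slide hn hE hD
  have hss : ∀ m, (m, false) ∉ σ.s := fun m hm => hE m (hσ.ef hm)
  right
  refine ⟨(k, true), hD k, false, ?_⟩
  rintro σ' hσ' ⟨l, d⟩ hl ε' hf hne
  rw [inX_iff] at hσ'
  have e1 : K1 p (σ'.face (l, d) ε') = K1 p σ := by rw [hf, K1_face_t]
  have e2 : K2 (σ'.face (l, d) ε') + 1 = K2 σ := by rw [hf]; exact K2_face_t (hD k) false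
  cases d
  · cases ε'
    · exfalso
      have h1 : Ef p σ' l := hσ'.ef hl
      apply hτ l
      rw [← hf]
      refine (ef_congr ?_ ?_ l).2 h1
      · funext j
        rw [face_a]
        simp
      · intro m
        rw [face_s]
        simp
    · refine key_lt1 ?_
      rw [← e1]
      exact K1_face_lt hσ' hl
  · rw [K1_face_t] at e1
    have e2' := K2_face_t hl ε'
    have hs' : σ'.s.erase (l, true) = σ.s.erase (k, true) := congrArg Cube.s hf
    have hlk : l = k := by
      by_contra hlk
      have h1 : (l, true) ∈ σ.s.erase (k, true) := Finset.mem_erase.2 ⟨by simpa using hlk, hD l⟩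
      rw [← hs'] at h1
      exact (Finset.mem_erase.1 h1).1 rfl
    subst hlk
    have hs : σ'.s = σ.s := by rw [← Finset.insert_erase hl, hs', Finset.insert_erase (hD l)]
    cases ε'
    · exfalso
      apply hne
      apply Cube.ext _ hs
      funext j
      have := congrFun (congrArg Cube.a hf) j
      rw [face_a, face_a] at this
      simpa using this
    · have hfa : ∀ j, σ'.a j + (if j = (l, true) then 1 else 0) = σ.a j := by
        intro j
        have := congrFun (congrArg Cube.a hf) j
        rw [face_a, face_a] at this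
        simpa using this
      have haf : ∀ m, σ'.a (m, false) = σ.a (m, false) := fun m => by
        have := hfa (m, false)
        simpa using this
      have hal : σ'.a (l, true) + 1 = σ.a (l, true) := by
        have := hfa (l, true)
        simpa using this
      have hat : ∀ m, m ≠ l → σ'.a (m, true) = σ.a (m, true) := fun m hm => by
        have := hfa (m, true)
        rw [if_neg (by simpa using hm), add_zero] at this
        exact this
      have hw' : ∀ m, σ'.w (m, true) = 1 := fun m => Cube.w_of_mem (by rw [hs]; exact hD m)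
      have hτa : ∀ j, (σ.face (l, true) false).a j = σ.a j := fun j => by rw [face_a]; simp
      have hτk : (σ.face (l, true) false).w (l, true) = 0 := by
        apply Cube.w_of_notMem
        rw [face_s]
        simp
      have hτw : ∀ m, m ≠ l → (σ.face (l, true) false).w (m, true) = 1 := by
        intro m hm
        apply Cube.w_of_mem
        rw [face_s]
        exact Finset.mem_erase.2 ⟨by simpa using hm, hD m⟩
      have hE' : ∀ m, ¬ Ef p σ' m := by
        rintro m ⟨m1, m2⟩
        apply hτ m
        refine ⟨by rw [hτa, ← haf]; exact m1, fun x hx hvo => ?_⟩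
        rw [hτa, hτa] at hx
        refine m2 x (by rw [haf, haf]; exact hx) ?_
        unfold VO at hvo ⊢
        rw [hτa, hτa] at hvo
        rw [hw', hw']
        have hmx : m ≠ x := by
          rintro rfl
          omega
        by_cases hm : m = l
        · subst hm
          rw [hτk, hτw x (Ne.symm hmx)] at hvo
          rw [hat x (Ne.symm hmx)]
          omega
        · by_cases hxl : x = l
          · subst hxl
            rw [hτk, hτw m hm] at hvo
            rw [hat m hm]
            omega
          · rw [hτw m hm, hτw x hxl] at hvo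
            rw [hat m hm, hat x hxl]
            exact hvo
      refine key_lt4 e1.symm (by omega) (by rw [K3_two hE, K3_two hE']) ?_
      unfold K4h
      apply Finset.sum_lt_sum
      · intro m _
        by_cases hm : m = l
        · subst hm; omega
        · rw [hat m hm]
      · refine ⟨l, Finset.mem_univ _, ?_⟩
        have h1 := (hσ.rng l).2.2.2
        have h2 : σ.w (l, true) = 1 := Cube.w_of_mem (hD l)
        omega

/-- the homology vanishes in the degrees `j ≥ n` -/
theorem deg_lt {j : ℕ} (hn : 0 < n) (h : HomologyNonzero n p q j) : j < n := by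
  by_contra hcon
  obtain ⟨σ, hσ, hj, hbad⟩ := exists_bad (key p (K4h q)) h
  rw [inX_iff] at hσ
  have hE : ∀ k, ¬ Ef p σ k := fun k hk => hbad (good_of_ef _ hσ ⟨k, hk⟩)
  have hss : ∀ m, (m, false) ∉ σ.s := fun m hm => hE m (hσ.ef hm)
  apply hbad
  refine good_of_full hn hσ hE fun k => ?_
  by_contra hk
  have h1 : σ.s ⊆ ((Finset.univ : Finset (Fin n)).erase k).image fun m => (m, true) := by
    rintro ⟨m, d⟩ hm
    cases d
    · exact absurd hm (hss m)
    · refine Finset.mem_image.2 ⟨m, Finset.mem_erase.2 ⟨?_, Finset.mem_univ _⟩, rfl⟩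
      rintro rfl
      exact hk hm
  have h2 := (Finset.card_le_card h1).trans Finset.card_image_le
  rw [Finset.card_erase_of_mem (Finset.mem_univ _), Finset.card_univ, Fintype.card_fin] at h2
  omega

/-- the inequality of Q1 for `8 n ^ 2 ≤ 9 p q` and `j < n` -/
theorem real_bound3 {n p q j : ℕ} (hn : 0 < n) (hp : 0 < p) (hq : 0 < q) (h : 8 * n ^ 2 ≤ 9 * (p * q))
    (hj : j < n) :
    (j : ℝ) / (p * q) ≤ min ((n : ℝ) / (p * q) - 8 / 9 * ((n : ℝ) / (p * q)) ^ 2)
      (min (1 - (n : ℝ) / (p * q)) (1 / 4)) := by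
  obtain ⟨A, hA⟩ : ∃ A : ℕ, A = p * q := ⟨_, rfl⟩
  have hA0 : 0 < A := by rw [hA]; positivity
  have hAr : ((p : ℝ) * q) = A := by rw [hA]; push_cast; ring
  rw [hAr]
  rw [← hA] at h
  have hA0' : (0 : ℝ) < A := by exact_mod_cast hA0
  have h' : 8 * (n : ℝ) ^ 2 ≤ 9 * A := by exact_mod_cast h
  have hj' : (j : ℝ) + 1 ≤ n := by exact_mod_cast hj
  have h1 : n + j ≤ A := by
    rcases Nat.lt_or_ge n 2 with h2 | h2
    · have : n = 1 := by omega
      subst this
      omega
    · nlinarith
  have h4 : 4 * j ≤ A := by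
    rcases Nat.lt_or_ge n 3 with h2 | h2
    · interval_cases n
      · omega
      · omega
    · have h3 : 9 * (4 * j) ≤ 9 * A := by nlinarith
      omega
  have h1' : (n : ℝ) + j ≤ A := by exact_mod_cast h1
  have h4' : 4 * (j : ℝ) ≤ A := by exact_mod_cast h4
  refine le_min ?_ (le_min ?_ ?_)
  · have h9 : (n : ℝ) / A - 8 / 9 * ((n : ℝ) / A) ^ 2 - (j : ℝ) / A =
        (9 * A * ((n : ℝ) - j) - 8 * (n : ℝ) ^ 2) / (9 * (A : ℝ) ^ 2) := by
      field_simp
      ring
    have h10 : 0 ≤ (9 * A * ((n : ℝ) - j) - 8 * (n : ℝ) ^ 2) / (9 * (A : ℝ) ^ 2) := by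
      apply div_nonneg _ (by positivity)
      nlinarith
    linarith
  · rw [div_le_iff₀ hA0', sub_mul, one_mul, div_mul_cancel₀ _ hA0'.ne']
    linarith
  · rw [div_le_iff₀ hA0']
    linarith

end Pool.Agent.H14.SQ
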