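import Pool.Agent.H14.SQ.QD

/-!
# Q1: a cycle whose highest cubes are not matched
-/

set_option autoImplicit false

namespace Pool.Agent.H14.SQ

variable {n p q : ℕ} {α : Type} [LinearOrder α]

/-- ROW Q1. Copy the proof of `exists_bad` (V3.lean).  By contradiction; the claim `key` there (`∀ M z`, a cycle `z` with
`f ≤ M` on its support is a boundary) is proved in the same way: in the step `c + 1`, if no cube of the support with
`f σ = M` is `Good`, then `z`, `M` contradict the assumption; else take such a `Good` cube `σ` and go on as there. -/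
theorem exists_top [WellFoundedLT α] (f : Cube n → α) {j : ℕ} (h : HomologyNonzero n p q j) :
    ∃ z : Cube n →₀ ℤ, IsChain p q j z ∧ bd z = 0 ∧ ∃ m : α, (∀ σ ∈ z.support, f σ ≤ m) ∧
      (∃ σ ∈ z.support, f σ = m) ∧ ∀ σ ∈ z.support, f σ = m → ¬ Good p q f σ := by
  classical
  by_contra hcon
  have hbd : ∀ z : Cube n →₀ ℤ, bd z = Finsupp.linearCombination ℤ bdCube z := fun z => by
    rw [Finsupp.linearCombination_apply]; rfl
  have hbd0 : bd (0 : Cube n →₀ ℤ) = 0 := by rw [hbd, map_zero]
  have key : ∀ M : α, ∀ z : Cube n →₀ ℤ, IsChain p q j z → bd z = 0 → (∀ σ ∈ z.support, f σ ≤ M) →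
      ∃ w : Cube n →₀ ℤ, IsChain p q (j + 1) w ∧ bd w = z := by
    intro M
    induction M using WellFoundedLT.induction with
    | ind M ih =>
    have inner : ∀ c : ℕ, ∀ z : Cube n →₀ ℤ, IsChain p q j z → bd z = 0 →
        (∀ σ ∈ z.support, f σ ≤ M) → (z.support.filter fun σ => f σ = M).card = c →
        ∃ w : Cube n →₀ ℤ, IsChain p q (j + 1) w ∧ bd w = z := by
      intro c
      induction c with
      | zero =>
        intro z hz1 hz2 hz3 hz4
        by_cases hne : z.support.Nonempty
        · obtain ⟨σ0, h1, h2⟩ := Finset.exists_max_image z.support f hne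
          have h3 : f σ0 ≠ M := by
            intro h3
            have h5 := Finset.card_eq_zero.1 hz4
            have h6 : σ0 ∈ z.support.filter fun σ => f σ = M := Finset.mem_filter.2 ⟨h1, h3⟩
            rw [h5] at h6
            exact absurd h6 (Finset.notMem_empty _)
          exact ih (f σ0) (lt_of_le_of_ne (hz3 σ0 h1) h3) z hz1 hz2 h2
        · have h1 : z = 0 := by
            rw [← Finsupp.support_eq_empty]
            exact Finset.not_nonempty_iff_eq_empty.1 hne
          refine ⟨0, fun Q hQ => absurd hQ (by simp), ?_⟩
          rw [h1, hbd0]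
      | succ c ihc =>
        intro z hz1 hz2 hz3 hz4
        have hpos : 0 < (z.support.filter fun σ => f σ = M).card := by omega
        obtain ⟨σa, hσa⟩ := Finset.card_pos.1 hpos
        obtain ⟨hσa1, hσa2⟩ := Finset.mem_filter.1 hσa
        have hex : ∃ σ ∈ z.support, f σ = M ∧ Good p q f σ := by
          by_contra hno
          push Not at hno
          exact hcon ⟨z, hz1, hz2, M, hz3, ⟨σa, hσa1, hσa2⟩, hno⟩
        obtain ⟨σ, hσ1, hσ2, hσG⟩ := hex
        have hσ : σ ∈ z.support.filter fun σ => f σ = M := Finset.mem_filter.2 ⟨hσ1, hσ2⟩
        obtain ⟨hσ3, hσ4⟩ := hz1 σ hσ1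
        rcases hσG with ⟨ρ, hρ1, ⟨i, hi, ε, hiε⟩, hρ2⟩ | ⟨i, hi, ε, h1⟩
        · have hu : bdCube ρ σ * bdCube ρ σ = 1 := by
            have := bdCube_face hi ε
            rwa [hiε] at this
          have hρc : ∀ i' ∈ ρ.s, ∀ ε', (ρ.face i' ε').s.card = j := by
            intro i' hi' ε'
            have h2 : (ρ.s.erase i).card = j := by
              rw [← hσ4, ← hiε]
              rfl
            have h3 : (ρ.face i' ε').s = ρ.s.erase i' := rfl
            rw [h3, Finset.card_erase_of_mem hi']
            rw [Finset.card_erase_of_mem hi] at h2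
            exact h2
          have hρj : ρ.s.card = j + 1 := by
            have h2 : (ρ.s.erase i).card = j := by
              rw [← hσ4, ← hiε]
              rfl
            have h3 := Finset.card_erase_add_one hi
            omega
          have hz'1 : IsChain p q j (z - (z σ * bdCube ρ σ) • bdCube ρ) := by
            intro Q hQ
            by_cases h2 : z Q = 0
            · have h3 : bdCube ρ Q ≠ 0 := by
                intro h3
                apply Finsupp.mem_support_iff.1 hQ
                rw [Finsupp.sub_apply, Finsupp.smul_apply, h2, h3, smul_zero, sub_zero]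
              obtain ⟨i', hi', ε', rfl⟩ := bdCube_ne h3
              exact ⟨(face_set_subset ρ hi' ε').trans hρ1, hρc i' hi' ε'⟩
            · exact hz1 Q (Finsupp.mem_support_iff.2 h2)
          have hz'2 : bd (z - (z σ * bdCube ρ σ) • bdCube ρ) = 0 := by
            have h2 := bd_bdCube ρ
            rw [hbd] at h2 hz2 ⊢
            rw [map_sub, map_smul, h2, hz2, smul_zero, sub_zero]
          have hz'3 : ∀ Q ∈ (z - (z σ * bdCube ρ σ) • bdCube ρ).support, f Q ≤ M := by
            intro Q hQ
            by_cases h2 : z Q = 0
            · have h3 : bdCube ρ Q ≠ 0 := by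
                intro h3
                apply Finsupp.mem_support_iff.1 hQ
                rw [Finsupp.sub_apply, Finsupp.smul_apply, h2, h3, smul_zero, sub_zero]
              obtain ⟨i', hi', ε', rfl⟩ := bdCube_ne h3
              by_cases h4 : ρ.face i' ε' = σ
              · rw [h4, hσ2]
              · exact (hρ2 i' hi' ε' h4).le.trans hσ2.le
            · exact hz3 Q (Finsupp.mem_support_iff.2 h2)
          have hz'4 : ((z - (z σ * bdCube ρ σ) • bdCube ρ).support.filter fun τ => f τ = M).card = c := by
            have h5 : ((z - (z σ * bdCube ρ σ) • bdCube ρ).support.filter fun τ => f τ = M) =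
                (z.support.filter fun τ => f τ = M).erase σ := by
              ext Q
              rw [Finset.mem_filter, Finset.mem_erase, Finset.mem_filter, Finsupp.mem_support_iff,
                Finsupp.mem_support_iff, Finsupp.sub_apply, Finsupp.smul_apply, smul_eq_mul]
              by_cases hQσ : Q = σ
              · subst hQσ
                have h6 : z Q - z Q * bdCube ρ Q * bdCube ρ Q = 0 := by
                  rw [mul_assoc, hu, mul_one, sub_self]
                simp [h6]
              · by_cases hQM : f Q = M
                · have h7 : bdCube ρ Q = 0 := by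
                    by_contra h7
                    obtain ⟨i', hi', ε', h8⟩ := bdCube_ne h7
                    have h9 := hρ2 i' hi' ε' (by rw [h8]; exact hQσ)
                    rw [h8, hQM, hσ2] at h9
                    exact lt_irrefl _ h9
                  rw [h7, mul_zero, sub_zero]
                  tauto
                · simp [hQM]
            rw [h5, Finset.card_erase_of_mem hσ, hz4]
            rfl
          obtain ⟨w, hw1, hw2⟩ := ihc _ hz'1 hz'2 hz'3 hz'4
          refine ⟨w + (z σ * bdCube ρ σ) • Finsupp.single ρ 1, ?_, ?_⟩
          · intro Q hQ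
            by_cases h2 : w Q = 0
            · have h3 : Q = ρ := by
                by_contra h3
                apply Finsupp.mem_support_iff.1 hQ
                rw [Finsupp.add_apply, Finsupp.smul_apply, h2, Finsupp.single_apply,
                  if_neg (fun h => h3 h.symm), smul_zero, add_zero]
              rw [h3]
              exact ⟨hρ1, hρj⟩
            · exact hw1 Q (Finsupp.mem_support_iff.2 h2)
          · rw [hbd] at hw2 ⊢
            rw [map_add, map_smul, hw2, Finsupp.linearCombination_single, one_smul]
            abel
        · obtain ⟨σ', h2, h3, i', hi', ε', h4⟩ := other_coface hz2 hσ1 hi ε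
          have h5 := h1 σ' (hz1 σ' h2).1 i' hi' ε' h4 h3
          rw [hσ2] at h5
          exact absurd (hz3 σ' h2) (not_le.2 h5)
    intro z hz1 hz2 hz3
    exact inner _ z hz1 hz2 hz3 rfl
  obtain ⟨z, hz1, hz2, hz3⟩ := h
  apply hz3
  by_cases hne : z.support.Nonempty
  · obtain ⟨σ0, h1, h2⟩ := Finset.exists_max_image z.support f hne
    exact key (f σ0) z hz1 hz2 h2
  · have h1 : z = 0 := by
      rw [← Finsupp.support_eq_empty]
      exact Finset.not_nonempty_iff_eq_empty.1 hne
    refine ⟨0, fun Q hQ => absurd hQ (by simp), ?_⟩
    rw [h1, hbd0]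

end Pool.Agent.H14.SQ
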