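import Pool.Agent.H14.SQ.QD

/-!
# Q2: configurations which do not touch the upper row are matched
-/

set_option autoImplicit false

namespace Pool.Agent.H14.SQ

variable {n p q : ℕ}

theorem exists_TP (hn : 0 < n) (Q : Cube n) : ∃ k, TP Q k := by
  classical
  obtain ⟨k₀, -, hk₀⟩ := Finset.exists_max_image (Finset.univ : Finset (Fin n)) (fun k => Q.a (k, true))
    ⟨⟨0, hn⟩, Finset.mem_univ _⟩
  obtain ⟨k, hk, hmin⟩ := Finset.exists_min_image
    (Finset.univ.filter fun k : Fin n => Q.a (k, true) = Q.a (k₀, true)) id ⟨k₀, Finset.mem_filter.2 ⟨Finset.mem_univ _, rfl⟩⟩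
  have hk' := (Finset.mem_filter.1 hk).2
  refine ⟨k, fun l => ?_⟩
  have h1 := hk₀ l (Finset.mem_univ _)
  rcases lt_or_eq_of_le h1 with h2 | h2
  · left; rw [hk']; exact h2
  · right
    exact ⟨by rw [hk']; exact h2, hmin l (Finset.mem_filter.2 ⟨Finset.mem_univ _, h2⟩)⟩

theorem TP.unique {Q : Cube n} {k l : Fin n} (hk : TP Q k) (hl : TP Q l) : k = l := by
  rcases hk l with h1 | ⟨h1, h2⟩
  · rcases hl k with h3 | ⟨h3, h4⟩
    · omega
    · omega
  · rcases hl k with h3 | ⟨h3, h4⟩
    · omega
    · exact le_antisymm h2 h4

theorem TP.congr {Q Q' : Cube n} (h : ∀ k, Q'.a (k, true) = Q.a (k, true)) {k : Fin n} (hk : TP Q k) : TP Q' k := by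
  intro l
  rw [h, h]
  exact hk l

theorem K4t_of_not {Q : Cube n} (h : ¬ ∃ M, Top p q Q M) {k : Fin n} (hk : TP Q k) :
    K4t p q Q = 1 + 2 * K4h q Q + (if (k, true) ∈ Q.s then 0 else 1) := by
  classical
  unfold K4t
  rw [if_neg h]
  congr 1
  by_cases h1 : (k, true) ∈ Q.s
  · rw [if_pos h1, if_neg]
    rintro ⟨l, hl, h2⟩
    rw [hl.unique hk] at h2
    exact h2 h1
  · rw [if_neg h1, if_pos ⟨k, hk, h1⟩]

theorem K4h_congr {Q Q' : Cube n} (h : ∀ k, Q'.a (k, true) = Q.a (k, true)) : K4h q Q' = K4h q Q := by
  unfold K4h
  simp only [h]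

theorem K4h_step {Q Q' : Cube n} {l : Fin n} (h : ∀ k, k ≠ l → Q'.a (k, true) = Q.a (k, true))
    (hl : Q'.a (l, true) + 1 = Q.a (l, true)) (hq : Q.a (l, true) ≤ q) : K4h q Q' = K4h q Q + 1 := by
  classical
  unfold K4h
  rw [← Finset.add_sum_erase _ _ (Finset.mem_univ l), ← Finset.add_sum_erase Finset.univ (fun k => ((q : ℤ) - Q.a (k, true)).toNat) (Finset.mem_univ l)]
  have h1 : ∑ x ∈ Finset.univ.erase l, ((q : ℤ) - Q'.a (x, true)).toNat =
      ∑ x ∈ Finset.univ.erase l, ((q : ℤ) - Q.a (x, true)).toNat :=
    Finset.sum_congr rfl fun x hx => by rw [h x (Finset.mem_erase.1 hx).1]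
  rw [h1]
  have h2 : ((q : ℤ) - Q'.a (l, true)).toNat = ((q : ℤ) - Q.a (l, true)).toNat + 1 := by omega
  simp only [h2]
  omega

theorem good_low {σ : Cube n} (hn : 0 < n) (hσ : Pk p q σ) (hE : ∀ k, ¬ Ef p σ k)
    (hq : ∀ k, σ.a (k, true) < q) : Good p q (key p (K4t p q)) σ := by
  classical
  obtain ⟨k, hk⟩ := exists_TP hn σ
  have hss : ∀ m, (m, false) ∉ σ.s := fun m hm => hE m (hσ.ef hm)
  have hwf : ∀ m, σ.w (m, false) = 0 := fun m => Cube.w_of_notMem (hss m)
  have hle : ∀ m, σ.a (m, true) ≤ σ.a (k, true) := fun m => by
    rcases hk m with h | h <;> omega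
  have hnT : ¬ ∃ M, Top p q σ M := by
    rintro ⟨M, hM⟩
    have h1 := hq M
    rw [hM.row] at h1
    omega
  by_cases hks : (k, true) ∈ σ.s
  · -- matched down
    have hwk : σ.w (k, true) = 1 := Cube.w_of_mem hks
    obtain ⟨τ, hτ⟩ : ∃ τ, τ = σ.face (k, true) false := ⟨_, rfl⟩
    have hτa : ∀ j, τ.a j = σ.a j := fun j => by rw [hτ, face_a]; simp
    have hτk : τ.w (k, true) = 0 := by
      apply Cube.w_of_notMem
      rw [hτ, face_s]
      simp
    have hτw : ∀ m, m ≠ k → τ.w (m, true) = σ.w (m, true) := by
      intro m hm
      rw [hτ]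
      unfold Cube.w
      rw [face_s]
      simp [hm]
    have hτE : ∀ m, ¬ Ef p τ m := by
      rintro m ⟨m1, m2⟩
      rw [hτa] at m1
      apply hE m
      refine ⟨m1, fun x hx hvo => ?_⟩
      refine m2 x (by rw [hτa, hτa]; exact hx) ?_
      unfold VO at hvo ⊢
      rw [hτa, hτa]
      have g1 := hle m
      have g2 := hle x
      have g3 := w_nonneg σ (m, true)
      have g4 := w_nonneg σ (x, true)
      have hmx : m ≠ x := by
        rintro rfl
        omega
      by_cases hmk : m = k
      · subst hmk
        rw [hτk, hτw x (Ne.symm hmx)]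
        omega
      · by_cases hxk : x = k
        · subst hxk
          rw [hτk, hτw m hmk]
          omega
        · rw [hτw m hmk, hτw x hxk]
          exact hvo
    right
    refine ⟨(k, true), hks, false, ?_⟩
    rintro σ' hσ' ⟨l, d⟩ hl ε' hf hne
    rw [inX_iff] at hσ'
    have e1 : K1 p (σ'.face (l, d) ε') = K1 p σ := by rw [hf, K1_face_t]
    have e2 : K2 (σ'.face (l, d) ε') + 1 = K2 σ := by rw [hf]; exact K2_face_t hks false
    rw [← hτ] at hf
    cases d
    · cases ε'
      · exfalso
        have h1 : Ef p σ' l := hσ'.ef hl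
        apply hτE l
        rw [← hf]
        refine (ef_congr ?_ ?_ l).2 h1
        · funext j
          rw [face_a]
          simp
        · intro m
          rw [face_s]
          simp
      · refine key_lt1 ?_
        rw [← e1]
        exact K1_face_lt hσ' hl
    · rw [K1_face_t] at e1
      have e2' := K2_face_t hl ε'
      have hsub : ∀ x, σ'.a (x, true) ≤ τ.a (x, true) ∧
          τ.a (x, true) + τ.w (x, true) ≤ σ'.a (x, true) + σ'.w (x, true) := by
        intro x
        rw [← hf]
        by_cases hx : x = l
        · subst hx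
          have h1 : (σ'.face (x, true) ε').w (x, true) = 0 := by
            apply Cube.w_of_notMem
            rw [face_s]
            simp
          have h2 : σ'.w (x, true) = 1 := Cube.w_of_mem hl
          rw [h1, h2, face_a]
          cases ε' <;> simp
        · have h1 : (σ'.face (l, true) ε').w (x, true) = σ'.w (x, true) := by
            unfold Cube.w
            rw [face_s]
            simp [hx]
          rw [h1, face_a]
          simp [hx]
      have haf : ∀ x, σ'.a (x, false) = τ.a (x, false) := fun x => by rw [← hf, face_a]; simp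
      have hE' : ∀ x, ¬ Ef p σ' x := by
        rintro x ⟨x1, x2⟩
        apply hτE x
        refine ⟨by rw [← haf]; exact x1, fun y hy hvo => x2 y (by rw [haf, hy, haf]) ?_⟩
        have e1 := hsub x
        have e2 := hsub y
        unfold VO at hvo ⊢
        constructor <;> omega
      have hnT' : ¬ ∃ M, Top p q σ' M := by
        rintro ⟨M, hM⟩
        have h1 := hq M
        have h2 := (hsub M).1
        rw [hτa, hM.row] at h2
        omega
      refine key_lt4 e1.symm (by omega) (by rw [K3_two hE, K3_two hE']) ?_
      rw [K4t_of_not hnT hk, if_pos hks]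
      cases ε'
      · have ha : ∀ x, σ'.a (x, true) = σ.a (x, true) := fun x => by
          have h1 := hτa (x, true)
          rw [← hf, face_a] at h1
          simpa using h1
        have hlk : l ≠ k := by
          rintro rfl
          apply hne
          apply Cube.ext
          · funext j
            have h1 := hτa j
            rw [← hf, face_a] at h1
            simpa using h1
          · have h1 : σ'.s.erase (l, true) = σ.s.erase (l, true) := by
              have := congrArg Cube.s hf
              rw [hτ] at this
              exact this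
            rw [← Finset.insert_erase hl, h1, Finset.insert_erase hks]
        have hk's : (k, true) ∉ σ'.s := by
          intro h1
          have h2 : (k, true) ∈ τ.s := by
            rw [← hf, face_s]
            exact Finset.mem_erase.2 ⟨by simpa using hlk.symm, h1⟩
          rw [hτ, face_s] at h2
          exact (Finset.mem_erase.1 h2).1 rfl
        rw [K4t_of_not hnT' (hk.congr ha), if_neg hk's, K4h_congr ha]
        omega
      · obtain ⟨k', hk'⟩ := exists_TP hn σ'
        have ha : ∀ x, x ≠ l → σ'.a (x, true) = σ.a (x, true) := fun x hx => by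
          have h1 := hτa (x, true)
          rw [← hf, face_a] at h1
          simpa [hx] using h1
        have hal : σ'.a (l, true) + 1 = σ.a (l, true) := by
          have h1 := hτa (l, true)
          rw [← hf, face_a] at h1
          simpa using h1
        rw [K4t_of_not hnT' hk', K4h_step ha hal (hq l).le]
        split_ifs <;> omega
  · -- matched up
    have hwk : σ.w (k, true) = 0 := Cube.w_of_notMem hks
    obtain ⟨ρ, hρ⟩ : ∃ ρ : Cube n, ρ = ⟨σ.a, insert (k, true) σ.s⟩ := ⟨_, rfl⟩
    have hρa : ρ.a = σ.a := by rw [hρ]
    have hρs : ρ.s = insert (k, true) σ.s := by rw [hρ]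
    have hρf : ∀ m, ρ.w (m, false) = 0 := fun m => by
      apply Cube.w_of_notMem
      rw [hρs]
      simpa using hss m
    have hρk : ρ.w (k, true) = 1 := Cube.w_of_mem (by rw [hρs]; exact Finset.mem_insert_self _ _)
    have hρw : ∀ m, m ≠ k → ρ.w (m, true) = σ.w (m, true) := fun m hm => by
      unfold Cube.w
      rw [hρs]
      simp [hm]
    have hface : ρ.face (k, true) false = σ := by
      apply Cube.ext
      · funext j
        rw [face_a, hρa]
        simp
      · rw [face_s, hρs]
        exact Finset.erase_insert hks
    have hρP : Pk p q ρ := by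
      have key1 : ∀ m u v, m ≠ k → Cov ρ m u v → Cov ρ k u v → False := by
        rintro m u v hm ⟨c1, c2, c3, c4⟩ ⟨d1, d2, d3, d4⟩
        rw [hρa] at c1 c2 c3 c4 d1 d2 d3 d4
        rw [hρf] at c2 d2
        rw [hρw m hm] at c4
        rw [hρk] at d4
        have g1 := hle m
        have g2 := w_le σ (m, true)
        have g3 := hwf m
        have g4 := hwf k
        by_cases hb : σ.a (m, true) = σ.a (k, true)
        · exact hm (hσ.disj m k u (σ.a (k, true)) ⟨by omega, by omega, by omega, by
            have := w_nonneg σ (m, true); omega⟩ ⟨by omega, by omega, by omega, by omega⟩)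
        · exact hm (hσ.disj m k u (σ.a (k, true)) ⟨by omega, by omega, by omega, by omega⟩
            ⟨by omega, by omega, by omega, by omega⟩)
      constructor
      · intro m
        obtain ⟨r1, r2, r3, r4⟩ := hσ.rng m
        rw [hρa, hρf]
        rw [hwf] at r2
        by_cases hm : m = k
        · subst hm
          rw [hρk]
          have := hq m
          exact ⟨r1, r2, r3, by omega⟩
        · rw [hρw m hm]
          exact ⟨r1, r2, r3, r4⟩
      · intro m l u v h1 h2
        by_cases hm : m = k
        · by_cases hl : l = k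
          · rw [hm, hl]
          · subst hm
            exact absurd (key1 l u v hl h2 h1) id
        · by_cases hl : l = k
          · subst hl
            exact absurd (key1 m u v hm h1 h2) id
          · obtain ⟨c1, c2, c3, c4⟩ := h1
            obtain ⟨d1, d2, d3, d4⟩ := h2
            rw [hρa] at c1 c2 c3 c4 d1 d2 d3 d4
            rw [hρf] at c2 d2
            rw [hρw m hm] at c4
            rw [hρw l hl] at d4
            have g3 := hwf m
            have g4 := hwf l
            exact hσ.disj m l u v ⟨c1, by omega, c3, c4⟩ ⟨d1, by omega, d3, d4⟩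
    left
    refine ⟨ρ, inX_iff.2 hρP, ⟨(k, true), by rw [hρs]; exact Finset.mem_insert_self _ _, false, hface⟩, ?_⟩
    rintro ⟨l, d⟩ hl ε hne
    have hd : d = true := by
      cases d
      · exfalso
        rw [hρs] at hl
        simp at hl
        exact hss l hl
      · rfl
    subst hd
    have e1 : K1 p (ρ.face (l, true) ε) = K1 p σ := by
      rw [K1_face_t]
      exact K1_congr fun _ => by rw [hρa]
    have e2 : K2 (ρ.face (l, true) ε) = K2 σ := by
      have h1 := K2_face_t hl ε
      have h2 := K2_face_t (Q := ρ) (l := k) (by rw [hρs]; exact Finset.mem_insert_self _ _) false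
      rw [hface] at h2
      omega
    by_cases hst : ∃ m, Ef p (ρ.face (l, true) ε) m
    · obtain ⟨m, hm⟩ := hst
      refine key_lt3 e1 e2 ?_
      rw [K3_two hE]
      exact K3_lt_two hm
    · push Not at hst
      refine key_lt4 e1 e2 (by rw [K3_two hE, K3_two hst]) ?_
      rw [K4t_of_not hnT hk, if_neg hks]
      by_cases hTop : ∃ M, Top p q (ρ.face (l, true) ε) M
      · unfold K4t
        rw [if_pos hTop]
        omega
      · obtain ⟨k', hk'⟩ := exists_TP hn (ρ.face (l, true) ε)
        cases ε
        · have ha : ∀ x, (ρ.face (l, true) false).a (x, true) = σ.a (x, true) := fun x => by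
            rw [face_a, hρa]; simp
          have hlk : l ≠ k := by
            rintro rfl
            exact hne hface
          have hks' : (k, true) ∈ (ρ.face (l, true) false).s := by
            rw [face_s, hρs]
            exact Finset.mem_erase.2 ⟨by simpa using hlk.symm, Finset.mem_insert_self _ _⟩
          rw [K4t_of_not hTop (hk.congr ha), if_pos hks', K4h_congr ha]
          omega
        · have ha : ∀ x, x ≠ l → σ.a (x, true) = (ρ.face (l, true) true).a (x, true) := fun x hx => by
            rw [face_a, hρa]; simp [hx]
          have hal : σ.a (l, true) + 1 = (ρ.face (l, true) true).a (l, true) := by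
            rw [face_a, hρa]; simp
          have hb : (ρ.face (l, true) true).a (l, true) ≤ q := by
            rw [← hal]
            have := hq l
            omega
          have h1 := K4h_step ha hal hb
          rw [K4t_of_not hTop hk', h1]
          split_ifs <;> omega

end Pool.Agent.H14.SQ
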