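import Pool.Agent.H14.SQ.Q1
import Pool.Agent.H14.SQ.Q2

/-!
# Q3: the closed system of configurations given by a cycle which is not a boundary
-/

set_option autoImplicit false

namespace Pool.Agent.H14.SQ

variable {n p q : ℕ}

theorem face_sub (Q : Cube n) {l : Fin n} (hl : (l, true) ∈ Q.s) (ε : Bool) (x : Fin n) :
    Q.a (x, true) ≤ (Q.face (l, true) ε).a (x, true) ∧
      (Q.face (l, true) ε).a (x, true) + (Q.face (l, true) ε).w (x, true) ≤ Q.a (x, true) + Q.w (x, true) := by
  by_cases hx : x = l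
  · subst hx
    have h1 : (Q.face (x, true) ε).w (x, true) = 0 := by
      apply Cube.w_of_notMem
      rw [face_s]
      simp
    have h2 : Q.w (x, true) = 1 := Cube.w_of_mem hl
    rw [h1, h2, face_a]
    cases ε <;> simp
  · have h1 : (Q.face (l, true) ε).w (x, true) = Q.w (x, true) := by
      unfold Cube.w
      rw [face_s]
      simp [hx]
    rw [h1, face_a]
    simp [hx]

theorem ef_of_face {Q : Cube n} {l : Fin n} (hl : (l, true) ∈ Q.s) (ε : Bool) {m : Fin n} (h : Ef p Q m) :
    Ef p (Q.face (l, true) ε) m := by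
  obtain ⟨h1, h2⟩ := h
  have haf : ∀ x, (Q.face (l, true) ε).a (x, false) = Q.a (x, false) := fun x => by rw [face_a]; simp
  refine ⟨by rw [haf]; exact h1, fun x hx hvo => h2 x (by rw [← haf, hx, haf]) ?_⟩
  have e1 := face_sub Q hl ε m
  have e2 := face_sub Q hl ε x
  unfold VO at hvo ⊢
  constructor <;> omega

theorem exists_sys (hn : 0 < n) (h : HomologyNonzero n p q (n - 1)) :
    ∃ S : Finset (Cube n), S.Nonempty ∧ Sys p q S := by
  classical
  obtain ⟨z, hz1, hz2, m, hm1, ⟨σ₀, hσ₀, hσ₀m⟩, hm3⟩ := exists_top (key p (K4t p q)) h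
  have htop : ∀ σ ∈ z.support, key p (K4t p q) σ = m → ∃ M, Top p q σ M := by
    intro σ hσ hf
    obtain ⟨hX, hc⟩ := hz1 σ hσ
    rw [inX_iff] at hX
    have hbad := hm3 σ hσ hf
    have hE : ∀ k, ¬ Ef p σ k := fun k hk => hbad (good_of_ef _ hX ⟨k, hk⟩)
    have hss : ∀ k, (k, false) ∉ σ.s := fun k hk => hE k (hX.ef hk)
    have h1 : ∃ k, (q : ℤ) ≤ σ.a (k, true) := by
      by_contra hcon
      push Not at hcon
      exact hbad (good_low hn hX hE hcon)
    obtain ⟨M, hM⟩ := h1
    have hr := (hX.rng M).2.2.2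
    have hw := w_nonneg σ (M, true)
    have hMs : (M, true) ∉ σ.s := by
      intro h2
      have h3 : σ.w (M, true) = 1 := Cube.w_of_mem h2
      omega
    refine ⟨M, hX, hE, ?_, hMs, by omega⟩
    intro k hk
    by_contra hks
    have h2 : σ.s ⊆ (((Finset.univ : Finset (Fin n)).erase M).erase k).image fun m => (m, true) := by
      rintro ⟨x, d⟩ hx
      cases d
      · exact absurd hx (hss x)
      · refine Finset.mem_image.2 ⟨x, Finset.mem_erase.2 ⟨?_, Finset.mem_erase.2 ⟨?_, Finset.mem_univ _⟩⟩, rfl⟩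
        · rintro rfl
          exact hks hx
        · rintro rfl
          exact hMs hx
    have h3 := (Finset.card_le_card h2).trans Finset.card_image_le
    have h4 : k ∈ (Finset.univ : Finset (Fin n)).erase M := Finset.mem_erase.2 ⟨hk, Finset.mem_univ _⟩
    have h5 := Finset.card_erase_add_one h4
    rw [Finset.card_erase_of_mem (Finset.mem_univ M), Finset.card_univ, Fintype.card_fin] at h5
    omega
  refine ⟨z.support.filter fun σ => key p (K4t p q) σ = m, ⟨σ₀, Finset.mem_filter.2 ⟨hσ₀, hσ₀m⟩⟩, ?_, ?_⟩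
  · intro σ hσ
    obtain ⟨h1, h2⟩ := Finset.mem_filter.1 hσ
    exact htop σ h1 h2
  · intro σ hσ k hk ε hτ
    obtain ⟨h1, h2⟩ := Finset.mem_filter.1 hσ
    obtain ⟨M, hM⟩ := htop σ h1 h2
    obtain ⟨σ', h3, h4, ⟨l, d⟩, hl, ε', hf⟩ := other_coface hz2 h1 hk ε
    have hX' := (hz1 σ' h3).1
    rw [inX_iff] at hX'
    have e1 : K1 p (σ'.face (l, d) ε') = K1 p σ := by rw [hf, K1_face_t]
    have e2 : K2 (σ'.face (l, d) ε') + 1 = K2 σ := by rw [hf]; exact K2_face_t hk ε
    have hle : key p (K4t p q) σ' ≤ key p (K4t p q) σ := by rw [h2]; exact hm1 σ' h3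
    cases d
    · exfalso
      cases ε'
      · have h5 : Ef p σ' l := hX'.ef hl
        apply hτ l
        rw [← hf]
        refine (ef_congr ?_ ?_ l).2 h5
        · funext j
          rw [face_a]
          simp
        · intro x
          rw [face_s]
          simp
      · refine absurd hle (not_le.2 (key_lt1 ?_))
        rw [← e1]
        exact K1_face_lt hX' hl
    · rw [K1_face_t] at e1
      have e2' := K2_face_t hl ε'
      have hE' : ∀ x, ¬ Ef p σ' x := by
        intro x hx
        apply hτ x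
        rw [← hf]
        exact ef_of_face hl ε' hx
      have e3 : K3 p σ' = K3 p σ := by rw [K3_two hE', K3_two hM.ef]
      have e4 : K4t p q σ = 0 := by
        unfold K4t
        rw [if_pos ⟨M, hM⟩]
      have e5 : K4t p q σ' = 0 := by
        by_contra h6
        exact absurd hle (not_le.2 (key_lt4 e1.symm (by omega) e3.symm (by omega)))
      refine ⟨σ', Finset.mem_filter.2 ⟨h3, ?_⟩, h4, l, hl, ε', hf⟩
      rw [← h2]
      unfold key
      rw [e1, show K2 σ' = K2 σ by omega, e3, e4, e5]

end Pool.Agent.H14.SQ
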