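import Pool.Agent.H14.SQ.QD

/-!
# Q4b: the moves
-/

set_option autoImplicit false

namespace Pool.Agent.H14.SQ

variable {n p q : ℕ} {S : Finset (Cube n)}

/-- ROW Q4b. The same with `τ = σ.face (k, true) true`, in which the base of `k` is `σ.a (k, true) + 1 < q`. -/
theorem Sys.up (h : Sys p q S) {σ : Cube n} (hσ : σ ∈ S) {M k : Fin n} (hM : Top p q σ M) (hk : k ≠ M)
    (hb : σ.a (k, true) + 1 < q) (hτ : ∀ x, ¬ Ef p (σ.face (k, true) true) x) :
    ∃ σ' ∈ S, Top p q σ' M ∧ (∀ x, σ'.a (x, false) = σ.a (x, false)) ∧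
      (∀ x, x ≠ k → σ'.a (x, true) = σ.a (x, true)) ∧ σ'.a (k, true) = σ.a (k, true) + 1 := by
  obtain ⟨σ', hσ', hne, l, hl, ε', hf⟩ := h.cl σ hσ k (hM.dom k hk) true hτ
  obtain ⟨M', hM'⟩ := h.top σ' hσ'
  have hkd := hM.dom k hk
  have hs' : σ'.s.erase (l, true) = σ.s.erase (k, true) := congrArg Cube.s hf
  have hfa : ∀ j, (σ'.face (l, true) ε').a j = (σ.face (k, true) true).a j := fun j => congrFun (congrArg Cube.a hf) j
  have hlk : l = k := by
    by_contra hlk
    have h1 : (k, true) ∉ σ'.s := by
      intro h1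
      have h2 : (k, true) ∈ σ'.s.erase (l, true) := Finset.mem_erase.2 ⟨by simpa using Ne.symm hlk, h1⟩
      rw [hs'] at h2
      exact (Finset.mem_erase.1 h2).1 rfl
    have h2 : k = M' := by
      by_contra h3
      exact h1 (hM'.dom k h3)
    have h3 := hM'.row
    rw [← h2] at h3
    have h4 := hfa (k, true)
    rw [face_a, face_a] at h4
    have h5 : ¬ ((k, true) = (l, true)) := by simpa using Ne.symm hlk
    simp [Ne.symm hlk] at h4
    omega
  subst hlk
  have hs : σ'.s = σ.s := by rw [← Finset.insert_erase hl, hs', Finset.insert_erase hkd]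
  have hMM : M' = M := by
    by_contra h1
    have h2 := hM'.dom M (Ne.symm h1)
    rw [hs] at h2
    exact hM.mono h2
  subst hMM
  cases ε'
  · have hfa' : ∀ j, σ'.a j = σ.a j + (if j = (l, true) then 1 else 0) := by
      intro j
      have := hfa j
      rw [face_a, face_a] at this
      simpa using this
    refine ⟨σ', hσ', hM', fun x => ?_, fun x hx => ?_, ?_⟩
    · have := hfa' (x, false)
      simpa using this
    · have := hfa' (x, true)
      rw [if_neg (by simpa using hx), add_zero] at this
      exact this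
    · have := hfa' (l, true)
      simpa using this
  · exfalso
    apply hne
    apply Cube.ext _ hs
    funext j
    have := hfa j
    rw [face_a, face_a] at this
    simpa using this

end Pool.Agent.H14.SQ
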