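import Pool.Agent.H14.SQ.QD

/-!
# Q4c: the moves
-/

set_option autoImplicit false

namespace Pool.Agent.H14.SQ

variable {n p q : ℕ} {S : Finset (Cube n)}

/-- ROW Q4c. Now the base of `k` in `τ` is `q`. If `l = k` in `Sys.cl`: `ε' = true` gives `σ' = σ`, and `ε' = false` gives a
domino `k` with base `q` in `σ'`, out of the range.  So `l = M`, `ε' = true` (`ε' = false` is out of the range), `σ'` is `Top` with `k`. -/
theorem Sys.swap (h : Sys p q S) {σ : Cube n} (hσ : σ ∈ S) {M k : Fin n} (hM : Top p q σ M) (hk : k ≠ M)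
    (hb : σ.a (k, true) + 1 = q) (hτ : ∀ x, ¬ Ef p (σ.face (k, true) true) x) :
    ∃ σ' ∈ S, Top p q σ' k ∧ (∀ x, σ'.a (x, false) = σ.a (x, false)) := by
  obtain ⟨σ', hσ', hne, l, hl, ε', hf⟩ := h.cl σ hσ k (hM.dom k hk) true hτ
  obtain ⟨M', hM'⟩ := h.top σ' hσ'
  have hkd := hM.dom k hk
  have hs' : σ'.s.erase (l, true) = σ.s.erase (k, true) := congrArg Cube.s hf
  have ha : ∀ j, (σ'.face (l, true) ε').a j = (σ.face (k, true) true).a j := fun j => congrFun (congrArg Cube.a hf) j
  have hax : ∀ x, σ'.a (x, false) = σ.a (x, false) := by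
    intro x
    have := ha (x, false)
    rw [face_a, face_a] at this
    simpa using this
  have hlk : l ≠ k := by
    rintro rfl
    have hs : σ'.s = σ.s := by rw [← Finset.insert_erase hl, hs', Finset.insert_erase hkd]
    cases ε'
    · have h1 := ha (l, true)
      rw [face_a, face_a] at h1
      simp at h1
      have h2 := (hM'.pk.rng l).2.2.2
      rw [Cube.w_of_mem hl] at h2
      omega
    · apply hne
      apply Cube.ext _ hs
      funext j
      have h1 := ha j
      rw [face_a, face_a] at h1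
      simpa using h1
  have h1 : (k, true) ∉ σ'.s := by
    intro h1
    have h2 : (k, true) ∈ σ'.s.erase (l, true) := Finset.mem_erase.2 ⟨by simpa using hlk.symm, h1⟩
    rw [hs'] at h2
    exact (Finset.mem_erase.1 h2).1 rfl
  have h2 : k = M' := by
    by_contra hc
    exact h1 (hM'.dom k hc)
  subst h2
  exact ⟨σ', hσ', hM', hax⟩

end Pool.Agent.H14.SQ
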