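import Pool.Agent.H14.SQ.Q4a
import Pool.Agent.H14.SQ.Q4b
import Pool.Agent.H14.SQ.Q4c

/-!
# Q4: the moves
-/
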