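import Pool.Agent.H14.SQ.QD

/-!
# Q4a: the moves
-/

set_option autoImplicit false

namespace Pool.Agent.H14.SQ

variable {n p q : ℕ} {S : Finset (Cube n)}

/-- ROW Q4a. The monominoes of `τ = σ.face (k, true) false` are `k` and `M`, so `σ'` of `Sys.cl` has `l = k` or `l = M`
(`σ'.s.erase (l, true) = σ.s.erase (k, true)`).  `l = M` is impossible: `σ'` is `Top` for some `M'`, its monomino is `k`, so
`M' = k` has its base in the row `q`, but the base of `k` in `τ` (hence in `σ'`) is that of `σ`, where `k` is a domino, `< q`.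
So `l = k` and (as `σ' ≠ σ`) `ε' = true`. -/
theorem Sys.down (h : Sys p q S) {σ : Cube n} (hσ : σ ∈ S) {M k : Fin n} (hM : Top p q σ M) (hk : k ≠ M)
    (hτ : ∀ x, ¬ Ef p (σ.face (k, true) false) x) :
    ∃ σ' ∈ S, Top p q σ' M ∧ (∀ x, σ'.a (x, false) = σ.a (x, false)) ∧
      (∀ x, x ≠ k → σ'.a (x, true) = σ.a (x, true)) ∧ σ'.a (k, true) + 1 = σ.a (k, true) := by
  have hkσ : (k, true) ∈ σ.s := hM.dom k hk
  obtain ⟨σ', hσ', hne, l, hl, ε', hf⟩ := h.cl σ hσ k hkσ false hτ
  obtain ⟨M', hM'⟩ := h.top σ' hσ'
  have hs' : σ'.s.erase (l, true) = σ.s.erase (k, true) := congrArg Cube.s hf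
  have hlk : l = k := by
    by_contra hlk
    have hk' : (k, true) ∉ σ'.s := by
      intro h1
      have h2 : (k, true) ∈ σ'.s.erase (l, true) := by
        refine Finset.mem_erase.2 ⟨?_, h1⟩
        intro h3
        exact hlk (congrArg Prod.fst h3).symm
      rw [hs'] at h2
      exact (Finset.mem_erase.1 h2).1 rfl
    have hkM' : k = M' := by
      by_contra h1
      exact hk' (hM'.dom k h1)
    have h1 := hM'.row
    rw [← hkM'] at h1
    have h2 := congrFun (congrArg Cube.a hf) (k, true)
    rw [face_a, face_a] at h2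
    have h3 : ¬ ((k, true) = (l, true) ∧ ε' = true) := by
      rintro ⟨h4, -⟩
      exact hlk (congrArg Prod.fst h4).symm
    have h5 : σ'.a (k, true) = σ.a (k, true) := by
      simpa [Ne.symm hlk] using h2
    have h6 := (hM.pk.rng k).2.2.2
    have h7 : σ.w (k, true) = 1 := Cube.w_of_mem hkσ
    omega
  subst hlk
  have hMl : M ≠ l := Ne.symm hk
  have hMσ' : (M, true) ∉ σ'.s := by
    intro h1
    have h2 : (M, true) ∈ σ'.s.erase (l, true) := by
      refine Finset.mem_erase.2 ⟨?_, h1⟩
      intro h3
      exact hMl (congrArg Prod.fst h3)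
    rw [hs'] at h2
    exact hM.mono (Finset.mem_erase.1 h2).2
  have hMM' : M = M' := by
    by_contra h1
    exact hMσ' (hM'.dom M h1)
  subst hMM'
  have hs : σ'.s = σ.s := by rw [← Finset.insert_erase hl, hs', Finset.insert_erase hkσ]
  refine ⟨σ', hσ', hM', ?_⟩
  cases ε'
  · exfalso
    apply hne
    apply Cube.ext _ hs
    funext j
    have := congrFun (congrArg Cube.a hf) j
    rw [face_a, face_a] at this
    simpa using this
  · have hfa : ∀ j, σ'.a j + (if j = (l, true) then 1 else 0) = σ.a j := by
      intro j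
      have := congrFun (congrArg Cube.a hf) j
      rw [face_a, face_a] at this
      simpa using this
    refine ⟨fun m => ?_, fun m hm => ?_, ?_⟩
    · have := hfa (m, false)
      simpa using this
    · have := hfa (m, true)
      rw [if_neg (by simpa using hm), add_zero] at this
      exact this
    · have := hfa (l, true)
      simpa using this

end Pool.Agent.H14.SQ
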