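import Pool.Agent.H14.SQ.QD

/-!
# Q5a: a domino which can be shrunk to its upper half
-/

set_option autoImplicit false

namespace Pool.Agent.H14.SQ

variable {n p q : ℕ} {S : Finset (Cube n)}

/-- the upper half of the domino `k` is blocked on the right -/
def RBu (p : ℕ) (Q : Cube n) (k : Fin n) : Prop :=
  (p : ℤ) < Q.a (k, false) + 1 ∨
    ∃ l, Q.a (l, false) = Q.a (k, false) + 1 ∧ Q.a (l, true) ≤ Q.a (k, true) + 1 ∧
      Q.a (k, true) + 1 ≤ Q.a (l, true) + Q.w (l, true)

/-- ROW Q5a. Like `exists_slide` in P1.lean. If `Ef p τ m` for `τ = σ.face (k, true) true`: `m = k` contradicts `RBu`; for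
`m ≠ k`, `m` was blocked by `k` only through the lower row of `k`, so `σ.a (m, true) + σ.w (m, true) = σ.a (k, true)`; `m ≠ M`
as the base of a domino is `< q`; so `σ.w (m, true) = 1`. -/
theorem slide_up {σ : Cube n} {M k : Fin n} (hM : Top p q σ M) (hk : k ≠ M) (hR : RBu p σ k)
    (hm : ∀ m, m ≠ M → σ.a (m, false) + 1 = σ.a (k, false) → σ.a (m, true) + 1 ≠ σ.a (k, true)) :
    ∀ x, ¬ Ef p (σ.face (k, true) true) x := by
  have haf : ∀ m, (σ.face (k, true) true).a (m, false) = σ.a (m, false) := fun m => by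
    rw [face_a]; simp
  have hat : ∀ m, m ≠ k → (σ.face (k, true) true).a (m, true) = σ.a (m, true) := fun m hmk => by
    rw [face_a]; simp [hmk]
  have hak : (σ.face (k, true) true).a (k, true) = σ.a (k, true) + 1 := by
    rw [face_a]; simp
  have hwk : (σ.face (k, true) true).w (k, true) = 0 := by
    apply Cube.w_of_notMem
    rw [face_s]
    simp
  have hwm : ∀ m, m ≠ k → (σ.face (k, true) true).w (m, true) = σ.w (m, true) := by
    intro m hmk
    unfold Cube.w
    rw [face_s]
    simp [hmk]
  have hkw : σ.w (k, true) = 1 := Cube.w_of_mem (hM.dom k hk)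
  intro m hmE
  obtain ⟨hm1, hm2⟩ := hmE
  rw [haf] at hm1
  by_cases hmk : m = k
  · subst hmk
    rcases hR with h1 | ⟨l, l1, l2, l3⟩
    · omega
    · have hlm : l ≠ m := by
        rintro rfl
        omega
      apply hm2 l (by rw [haf, haf]; exact l1)
      unfold VO
      rw [hak, hat l hlm, hwk, hwm l hlm]
      constructor <;> omega
  · have h1 : ∃ l, σ.a (l, false) = σ.a (m, false) + 1 ∧ VO σ m l := by
      by_contra hcon
      push Not at hcon
      exact hM.ef m ⟨hm1, hcon⟩
    obtain ⟨l, l1, l2⟩ := h1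
    have h2 := hm2 l (by rw [haf, haf]; exact l1)
    unfold VO at h2 l2
    rw [hat m hmk, hwm m hmk] at h2
    by_cases hlk : l = k
    · subst hlk
      rw [hak, hwk] at h2
      rw [hkw] at l2
      have h3 : σ.a (l, true) = σ.a (m, true) + σ.w (m, true) := by
        by_contra h4
        exact h2 ⟨by omega, by omega⟩
      by_cases hmM : m = M
      · subst hmM
        have h4 : σ.w (m, true) = 0 := Cube.w_of_notMem hM.mono
        have h5 := hM.row
        have h6 := (hM.pk.rng l).2.2.2
        omega
      · have h4 : σ.w (m, true) = 1 := Cube.w_of_mem (hM.dom m hmM)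
        exact hm m hmM l1.symm (by omega)
    · rw [hat l hlk, hwm l hlk] at h2
      exact h2 l2

end Pool.Agent.H14.SQ
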