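import Pool.Agent.H14.SQ.Q4
import Pool.Agent.H14.SQ.Q5a

/-!
# Q5: a configuration of the system with one piece in each column
-/

set_option autoImplicit false

namespace Pool.Agent.H14.SQ

variable {n p q : ℕ} {S : Finset (Cube n)}

/-- ROW Q5b. Take the pairs `(σ, M)` with `σ ∈ S`, `Top p q σ M` and `σ.a (M, false)` minimal, and among them the sum of the
`σ.a (k, true)` maximal. (1) Each domino `r ≠ M` with `RBu p σ r` has `σ.a (r, true) + 1 = q` and `σ.a (M, false) < σ.a (r, false)`: if not
take such an `r` with `σ.a (r, false)` minimal.  If the hypothesis `hm` of `slide_up` holds for `r`: if `σ.a (r, true) + 1 < q` then `Sys.up`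
increases the sum; if `= q` then `Sys.swap` and minimality give `σ.a (M, false) ≤ σ.a (r, false)`, and equality is impossible (two pieces
cover the same cell in the row `q`).  Otherwise there is `m ≠ M` with `σ.a (m, false) + 1 = σ.a (r, false)`,
`σ.a (m, true) + 1 = σ.a (r, true)`: then `RBu p σ m` (by `r`) and `σ.a (m, true) + 1 < q`, and `m` is further left.
(2) Each domino has `σ.a (r, true) + 1 = q`: if not take such an `r` with `σ.a (r, false)` maximal. It is not `RBu` by (1), so (not `Ef`)
it is blocked by a piece `l` of the next column with `σ.a (l, true) + σ.w (l, true) = σ.a (r, true)`, `l ≠ M`, so `l` is further right.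
(3) So all pieces cover the row `q`, two of them in one column are equal. (4) A piece `k` with `σ.a (k, false) < σ.a (M, false)` is a
domino, and `RBu p σ k` as it is blocked by a piece of the next column, which covers the row `q`; contradiction to (1). -/
theorem ext1 (h : Sys p q S) (hS : S.Nonempty) :
    ∃ σ ∈ S, ∃ M, Top p q σ M ∧ (∀ k l, σ.a (k, false) = σ.a (l, false) → k = l) ∧
      ∀ k, σ.a (M, false) ≤ σ.a (k, false) := by
  classical
  set T : Finset (Cube n × Fin n) := (S ×ˢ Finset.univ).filter (fun x => Top p q x.1 x.2) with hTdef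
  have memT : ∀ x : Cube n × Fin n, x ∈ T ↔ x.1 ∈ S ∧ Top p q x.1 x.2 := by
    intro x
    rw [hTdef, Finset.mem_filter, Finset.mem_product]
    exact ⟨fun h => ⟨h.1.1, h.2⟩, fun h => ⟨⟨h.1, Finset.mem_univ _⟩, h.2⟩⟩
  have hT : T.Nonempty := by
    obtain ⟨σ, hσ⟩ := hS
    obtain ⟨M, hM⟩ := h.top σ hσ
    exact ⟨(σ, M), (memT _).2 ⟨hσ, hM⟩⟩
  obtain ⟨x0, hx0, hmin0⟩ := T.exists_min_image (fun x => x.1.a (x.2, false)) hT
  obtain ⟨⟨σ, M⟩, hx, hmax⟩ := (T.filter (fun x => x.1.a (x.2, false) = x0.1.a (x0.2, false))).exists_max_image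
    (fun x => ∑ k, x.1.a (k, true)) ⟨x0, Finset.mem_filter.2 ⟨hx0, rfl⟩⟩
  obtain ⟨hx1, hx2⟩ := Finset.mem_filter.1 hx
  obtain ⟨hσ, hM⟩ := (memT _).1 hx1
  dsimp only at hσ hM hx2 hmax hmin0
  have hmin : ∀ σ' ∈ S, ∀ M', Top p q σ' M' → σ.a (M, false) ≤ σ'.a (M', false) := by
    intro σ' hσ' M' hM'
    rw [hx2]
    exact hmin0 (σ', M') ((memT _).2 ⟨hσ', hM'⟩)
  have hmax' : ∀ σ' ∈ S, ∀ M', Top p q σ' M' → σ'.a (M', false) = σ.a (M, false) →
      ∑ k, σ'.a (k, true) ≤ ∑ k, σ.a (k, true) := by
    intro σ' hσ' M' hM' he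
    exact hmax (σ', M') (Finset.mem_filter.2 ⟨(memT _).2 ⟨hσ', hM'⟩, he.trans hx2⟩)
  have wt : ∀ k, k ≠ M → σ.w (k, true) = 1 := fun k hk => Cube.w_of_mem (hM.dom k hk)
  have wM : σ.w (M, true) = 0 := Cube.w_of_notMem hM.mono
  have hrow := hM.row
  have hrg := hM.pk.rng
  have wf : ∀ k, σ.w (k, false) = 0 := fun k => Cube.w_of_notMem (fun hk => hM.ef k (hM.pk.ef hk))
  -- (1)
  have c1 : ∀ N : ℕ, ∀ r, r ≠ M → RBu p σ r → σ.a (r, false) ≤ N →
      σ.a (r, true) + 1 = q ∧ σ.a (M, false) < σ.a (r, false) := by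
    intro N
    induction N with
    | zero =>
      intro r hr hR hN
      obtain ⟨r1, -, -, -⟩ := hrg r
      push_cast at hN
      omega
    | succ N ih =>
      intro r hr hR hN
      obtain ⟨r1, r2, r3, r4⟩ := hrg r
      have wr := wt r hr
      by_cases hm : ∀ m, m ≠ M → σ.a (m, false) + 1 = σ.a (r, false) → σ.a (m, true) + 1 ≠ σ.a (r, true)
      · have hτ := slide_up hM hr hR hm
        rcases lt_or_eq_of_le (show σ.a (r, true) + 1 ≤ q by omega) with hlt | heq
        · exfalso
          obtain ⟨σ', hσ', hM', h1, h2, h3⟩ := h.up hσ hM hr hlt hτ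
          have h4 := hmax' σ' hσ' M hM' (h1 M)
          have h5 : ∑ k, σ.a (k, true) < ∑ k, σ'.a (k, true) := by
            refine Finset.sum_lt_sum (fun k _ => ?_) ⟨r, Finset.mem_univ _, ?_⟩
            · by_cases hkr : k = r
              · subst hkr
                omega
              · rw [h2 k hkr]
            · omega
          omega
        · refine ⟨heq, ?_⟩
          obtain ⟨σ', hσ', hM', h1⟩ := h.swap hσ hM hr heq hτ
          have h4 := hmin σ' hσ' r hM'
          rw [h1 r] at h4
          rcases lt_or_eq_of_le h4 with h5 | h5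
          · exact h5
          · exfalso
            apply hr
            have wfr := wf r
            have wfM := wf M
            refine hM.pk.disj r M (σ.a (r, false)) q ?_ ?_
            · refine ⟨le_rfl, by omega, by omega, by omega⟩
            · refine ⟨by omega, by omega, by omega, by omega⟩
      · exfalso
        push Not at hm
        obtain ⟨m, hmM, hm1, hm2⟩ := hm
        have hRm : RBu p σ m := by
          right
          exact ⟨r, by omega, by omega, by omega⟩
        obtain ⟨h3, h4⟩ := ih m hmM hRm (by push_cast at hN ⊢; omega)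
        omega
  have c1' : ∀ r, r ≠ M → RBu p σ r → σ.a (r, true) + 1 = q ∧ σ.a (M, false) < σ.a (r, false) := by
    intro r hr hR
    exact c1 (σ.a (r, false)).toNat r hr hR (Int.self_le_toNat _)
  -- blocked
  have blk : ∀ k, σ.a (k, false) + 1 ≤ p → ∃ l, σ.a (l, false) = σ.a (k, false) + 1 ∧
      σ.a (k, true) ≤ σ.a (l, true) + σ.w (l, true) ∧ σ.a (l, true) ≤ σ.a (k, true) + σ.w (k, true) := by
    intro k hk
    by_contra hc
    apply hM.ef k
    refine ⟨hk, fun l hl hv => hc ⟨l, hl, hv.1, hv.2⟩⟩
  -- (2)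
  have c2 : ∀ N : ℕ, ∀ r, r ≠ M → (p : ℤ) - σ.a (r, false) ≤ N → σ.a (r, true) + 1 = q := by
    intro N
    induction N with
    | zero =>
      intro r hr hN
      push_cast at hN
      exact (c1' r hr (Or.inl (by omega))).1
    | succ N ih =>
      intro r hr hN
      obtain ⟨r1, r2, r3, r4⟩ := hrg r
      have wr := wt r hr
      by_contra hne
      have hnR : ¬ RBu p σ r := fun hR => hne (c1' r hr hR).1
      have hp : σ.a (r, false) + 1 ≤ p := by
        by_contra hc
        exact hnR (Or.inl (by omega))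
      obtain ⟨l, hl1, hl2, hl3⟩ := blk r hp
      have hl4 : σ.a (l, true) + σ.w (l, true) < σ.a (r, true) + 1 := by
        by_contra hc
        exact hnR (Or.inr ⟨l, hl1, by omega, by omega⟩)
      have hlM : l ≠ M := by
        rintro rfl
        omega
      have h5 := ih l hlM (by push_cast at hN ⊢; omega)
      have wl := wt l hlM
      omega
  have c2' : ∀ r, r ≠ M → σ.a (r, true) + 1 = q := by
    intro r hr
    exact c2 ((p : ℤ) - σ.a (r, false)).toNat r hr (Int.self_le_toNat _)
  have c3 : ∀ k, σ.a (k, true) + σ.w (k, true) = q := by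
    intro k
    by_cases hk : k = M
    · subst hk
      omega
    · have := c2' k hk
      have := wt k hk
      omega
  refine ⟨σ, hσ, M, hM, fun k l hkl => ?_, fun k => ?_⟩
  · have e1 := c3 k
    have e2 := c3 l
    have e3 := wf k
    have e4 := wf l
    have e5 := w_nonneg σ (k, true)
    have e6 := w_nonneg σ (l, true)
    refine hM.pk.disj k l (σ.a (k, false)) q ?_ ?_
    · exact ⟨le_rfl, by omega, by omega, by omega⟩
    · exact ⟨by omega, by omega, by omega, by omega⟩
  · by_contra hc
    have hkM : k ≠ M := by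
      rintro rfl
      exact hc le_rfl
    have e1 := c2' k hkM
    have hR : RBu p σ k := by
      by_cases hp : σ.a (k, false) + 1 ≤ p
      · obtain ⟨l, hl1, hl2, hl3⟩ := blk k hp
        have e2 := c3 l
        have e6 := w_nonneg σ (l, true)
        exact Or.inr ⟨l, hl1, by omega, by omega⟩
      · exact Or.inl (by omega)
    have := (c1' k hkM hR).2
    omega

end Pool.Agent.H14.SQ
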