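import Pool.Agent.H14.SQ.QD

/-!
# Q6a: a domino which can be shrunk to its lower half
-/

set_option autoImplicit false

namespace Pool.Agent.H14.SQ

variable {n p q : ℕ} {S : Finset (Cube n)}

/-- ROW Q6a. Like `exists_slide` in P1.lean (`RB` is defined there): if `Ef p τ m` for `τ = σ.face (k, true) false`: `m = k`
contradicts `RB`; for `m ≠ k`, `m` was blocked by `k` only through the upper row of `k`, so `σ.a (m, true) = σ.a (k, true) + 1`. -/
theorem slide_down {σ : Cube n} {M k : Fin n} (hM : Top p q σ M) (hk : k ≠ M) (hR : RB p σ k)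
    (hm : ∀ m, σ.a (m, false) + 1 = σ.a (k, false) → σ.a (m, true) ≠ σ.a (k, true) + 1) :
    ∀ x, ¬ Ef p (σ.face (k, true) false) x := by
  have haf : ∀ m, (σ.face (k, true) false).a (m, false) = σ.a (m, false) := fun m => by
    rw [face_a]; simp
  have hat : ∀ m, (σ.face (k, true) false).a (m, true) = σ.a (m, true) := fun m => by
    rw [face_a]; simp
  have hwk : (σ.face (k, true) false).w (k, true) = 0 := by
    apply Cube.w_of_notMem
    rw [face_s]
    simp
  have hwm : ∀ m, m ≠ k → (σ.face (k, true) false).w (m, true) = σ.w (m, true) := by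
    intro m hmk
    have hne : (m, true) ≠ (k, true) := by simpa using hmk
    by_cases h : (m, true) ∈ σ.s
    · rw [Cube.w_of_mem h]
      apply Cube.w_of_mem
      rw [face_s]
      exact Finset.mem_erase.2 ⟨hne, h⟩
    · rw [Cube.w_of_notMem h]
      apply Cube.w_of_notMem
      rw [face_s]
      exact fun h' => h (Finset.mem_erase.1 h').2
  have hwk1 : σ.w (k, true) = 1 := Cube.w_of_mem (hM.dom k hk)
  have hrk := (hM.pk.rng k).2.2.2
  rintro m ⟨hm1, hm2⟩
  rw [haf] at hm1
  by_cases hmk : m = k
  · subst hmk
    rcases hR with h1 | ⟨l, l1, l2, l3⟩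
    · omega
    · have hlm : l ≠ m := by
        rintro rfl
        omega
      have hlM : l ≠ M := by
        rintro rfl
        have := hM.row
        omega
      apply hm2 l (by rw [haf, haf]; exact l1)
      unfold VO
      rw [hat, hat, hwk, hwm l hlm, Cube.w_of_mem (hM.dom l hlM)]
      constructor <;> omega
  · have h1 : ∃ l, σ.a (l, false) = σ.a (m, false) + 1 ∧ VO σ m l := by
      by_contra hcon
      push Not at hcon
      exact hM.ef m ⟨hm1, hcon⟩
    obtain ⟨l, l1, l2⟩ := h1
    have h2 := hm2 l (by rw [haf, haf]; exact l1)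
    unfold VO at h2 l2
    rw [hat, hat, hwm m hmk] at h2
    by_cases hlk : l = k
    · subst hlk
      rw [hwk] at h2
      exact hm m l1.symm (by omega)
    · rw [hwm l hlk] at h2
      exact h2 l2

end Pool.Agent.H14.SQ
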