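import Pool.Agent.H14.SQ.Q4
import Pool.Agent.H14.SQ.Q6a

/-!
# Q6: the number of pieces is at most the height
-/

set_option autoImplicit false

namespace Pool.Agent.H14.SQ

variable {n p q : ℕ} {S : Finset (Cube n)}

/-- ROW Q6b. Among the `σ ∈ S` with `Top p q σ M` and `σ.a (x, false) = σ₀.a (x, false)` for all `x` take one with the least sum of the
`σ.a (k, true)`.  By `slide_down` and `Sys.down` each domino `k ≠ M` with `RB p σ k` has a piece `m` with
`σ.a (m, false) + 1 = σ.a (k, false)`, `σ.a (m, true) = σ.a (k, true) + 1`; and `RB p σ m` (by `k`) if `m ≠ M`.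
Claim: for each `i : ℕ`, either there is a piece `k` with `σ.a (k, false) = p - i`, `σ.a (k, true) ≥ 1 + i`, `(k ≠ M → RB p σ k)`, or
`σ.a (M, false) > p - i`. (`i = 0`: the piece with the largest column is not `Ef`, so it is in column `p`.) With
`i = p - σ.a (M, false)`: the piece `k` is in the column of `M`, so `k = M` by `hinj`, and `q ≥ 1 + i`.  By `hinj`, `hleft` the `n`
columns are different elements of `[σ.a (M, false), p]`, so `n ≤ i + 1`. -/
theorem ext2 (h : Sys p q S) {σ₀ : Cube n} (hσ₀ : σ₀ ∈ S) {M : Fin n} (hM : Top p q σ₀ M)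
    (hinj : ∀ k l, σ₀.a (k, false) = σ₀.a (l, false) → k = l) (hleft : ∀ k, σ₀.a (M, false) ≤ σ₀.a (k, false)) :
    n ≤ q := by
  classical
  obtain ⟨σ, hσm, hmin⟩ := Finset.exists_min_image
    (S.filter fun σ : Cube n => Top p q σ M ∧ ∀ x, σ.a (x, false) = σ₀.a (x, false)) (fun σ => ∑ k, σ.a (k, true))
    ⟨σ₀, Finset.mem_filter.2 ⟨hσ₀, hM, fun _ => rfl⟩⟩
  obtain ⟨hσ, hT, hcol⟩ := Finset.mem_filter.1 hσm
  have hstep : ∀ k, k ≠ M → RB p σ k → ∃ m, σ.a (m, false) + 1 = σ.a (k, false) ∧ σ.a (m, true) = σ.a (k, true) + 1 := by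
    intro k hk hR
    by_contra hcon
    push Not at hcon
    have h1 := slide_down hT hk hR hcon
    obtain ⟨σ', hσ', hT', hf, ht, hkk⟩ := Sys.down h hσ hT hk h1
    have h2 := hmin σ' (Finset.mem_filter.2 ⟨hσ', hT', fun x => (hf x).trans (hcol x)⟩)
    have h3 : ∑ x, σ'.a (x, true) < ∑ x, σ.a (x, true) := by
      apply Finset.sum_lt_sum
      · intro x _
        by_cases hx : x = k
        · subst hx; omega
        · rw [ht x hx]
      · exact ⟨k, Finset.mem_univ _, by omega⟩
    exact absurd h3 (not_lt.2 h2)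
  have hP : ∀ i : ℕ, (∃ k, σ.a (k, false) = p - i ∧ 1 + (i : ℤ) ≤ σ.a (k, true) ∧ RB p σ k) ∨ (p : ℤ) - i < σ.a (M, false) := by
    intro i
    induction i with
    | zero =>
      left
      have : Nonempty (Fin n) := ⟨M⟩
      obtain ⟨k, -, hk⟩ := Finset.exists_max_image (Finset.univ : Finset (Fin n)) (fun k => σ.a (k, false))
        Finset.univ_nonempty
      obtain ⟨r1, r2, r3, r4⟩ := hT.pk.rng k
      have w0 := w_nonneg σ (k, false)
      have hgt : (p : ℤ) < σ.a (k, false) + 1 := by
        by_contra hcon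
        apply hT.ef k
        refine ⟨by omega, fun l hl _ => ?_⟩
        have := hk l (Finset.mem_univ _)
        omega
      refine ⟨k, by push_cast; omega, by push_cast; omega, Or.inl hgt⟩
    | succ i ih =>
      rcases ih with ⟨k, k1, k2, k3⟩ | h1
      · by_cases hkM : k = M
        · right
          rw [← hkM, k1]
          push_cast
          omega
        · left
          obtain ⟨m, m1, m2⟩ := hstep k hkM k3
          exact ⟨m, by push_cast; omega, by push_cast; omega, Or.inr ⟨k, by omega, by omega, by omega⟩⟩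
      · right
        push_cast
        omega
  obtain ⟨r1, r2, r3, r4⟩ := hT.pk.rng M
  have w0 := w_nonneg σ (M, false)
  obtain ⟨i, hi⟩ : ∃ i : ℕ, (i : ℤ) = p - σ.a (M, false) := ⟨((p : ℤ) - σ.a (M, false)).toNat, by
    rw [Int.toNat_of_nonneg (by omega)]⟩
  have hq : 1 + (i : ℤ) ≤ q := by
    rcases hP i with ⟨k, k1, k2, k3⟩ | h1
    · have hkM : k = M := by
        apply hinj
        rw [← hcol, ← hcol]
        omega
      subst hkM
      rw [← hT.row]
      exact k2
    · omega
  have hn : n ≤ i + 1 := by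
    have h1 : (Finset.univ.image fun k : Fin n => σ.a (k, false)) ⊆ Finset.Icc (σ.a (M, false)) (p : ℤ) := by
      intro c hc
      obtain ⟨k, -, rfl⟩ := Finset.mem_image.1 hc
      obtain ⟨s1, s2, s3, s4⟩ := hT.pk.rng k
      have w1 := w_nonneg σ (k, false)
      rw [Finset.mem_Icc]
      refine ⟨?_, by omega⟩
      rw [hcol, hcol]
      exact hleft k
    have h2 := Finset.card_le_card h1
    rw [Finset.card_image_of_injective _ (fun k l hkl => hinj k l (by
      have : σ.a (k, false) = σ.a (l, false) := hkl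
      rwa [hcol, hcol] at this)), Finset.card_univ, Fintype.card_fin, Int.card_Icc] at h2
    omega
  omega

end Pool.Agent.H14.SQ
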