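import Mathlib

/-!
# Q9: the inequality
-/

set_option autoImplicit false

namespace Pool.Agent.H14.SQ

/-- ROW Q9. Like `real_bound3` in P1.lean. Show first in `ℕ` with `A = p * q`: `n + j ≤ A`, `4 * j ≤ A`,
`8 * n ^ 2 ≤ 9 * A * (n - j)`.  Case `j + 2 ≤ n`: `9 A ≥ 4 n²` and (for `n ≤ 5` `interval_cases n`, `omega`) `4 (n - 2) ≤ 4 n² / 9` for
`n ≥ 6`. Case `j + 1 = n`: `n ≤ p`, `n ≤ q`, so `n² ≤ A`. -/
theorem real_bound4 {n p q j : ℕ} (hn : 0 < n) (hp : 0 < p) (hq : 0 < q) (h : 4 * n ^ 2 ≤ 9 * (p * q))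
    (hj : j < n) (hj' : j + 1 = n → n ≤ p ∧ n ≤ q) :
    (j : ℝ) / (p * q) ≤ min ((n : ℝ) / (p * q) - 8 / 9 * ((n : ℝ) / (p * q)) ^ 2)
      (min (1 - (n : ℝ) / (p * q)) (1 / 4)) := by
  obtain ⟨m, rfl⟩ : ∃ m, n = j + m + 1 := ⟨n - j - 1, by omega⟩
  obtain ⟨A, hA⟩ : ∃ A, p * q = A := ⟨_, rfl⟩
  have hA0 : 0 < A := by rw [← hA]; exact Nat.mul_pos hp hq
  have key : (j + m + 1) + j ≤ A ∧ 4 * j ≤ A ∧ 8 * (j + m + 1) ^ 2 ≤ 9 * A * (m + 1) := by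
    rw [hA] at h
    rcases Nat.eq_zero_or_pos m with rfl | hm
    · obtain ⟨h1, h2⟩ := hj' rfl
      have h3 : (j + 0 + 1) * (j + 0 + 1) ≤ A := by rw [← hA]; exact Nat.mul_le_mul h1 h2
      simp only [add_zero] at h3 ⊢
      refine ⟨by nlinarith, ?_, by nlinarith⟩
      rcases Nat.lt_or_ge j 1 with h4 | h4
      · omega
      · obtain ⟨i, rfl⟩ : ∃ i, j = i + 1 := ⟨j - 1, by omega⟩
        nlinarith [Nat.zero_le (i * i)]
    · obtain ⟨i, rfl⟩ : ∃ i, m = i + 1 := ⟨m - 1, by omega⟩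
      have h9 : 8 * (j + (i + 1) + 1) ^ 2 ≤ 9 * A * (i + 1 + 1) := by
        have : 9 * A * 2 ≤ 9 * A * (i + 1 + 1) := Nat.mul_le_mul_left _ (by omega)
        omega
      rcases Nat.lt_or_ge (j + (i + 1) + 1) 6 with h4 | h4
      · have h5 : j ≤ 4 := by omega
        have h6 : i ≤ 4 := by omega
        refine ⟨?_, ?_, h9⟩
        · interval_cases j <;> interval_cases i <;> omega
        · interval_cases j <;> interval_cases i <;> omega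
      · obtain ⟨N, hN⟩ : ∃ N, j + (i + 1) + 1 = N + 6 := ⟨j + (i + 1) + 1 - 6, by omega⟩
        have hj2 : j ≤ N + 4 := by omega
        rw [hN] at h h9 ⊢
        have h7 : 9 * (4 * (N + 4)) ≤ 4 * (N + 6) ^ 2 := by nlinarith [Nat.zero_le (N * N)]
        have h8 : 9 * (N + 6 + (N + 4)) ≤ 4 * (N + 6) ^ 2 := by nlinarith [Nat.zero_le (N * N)]
        refine ⟨by omega, by omega, h9⟩
  obtain ⟨k1, k2, k3⟩ := key
  have hAR : (p : ℝ) * q = A := by rw [← hA]; push_cast; ring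
  have hAp : (0 : ℝ) < A := by exact_mod_cast hA0
  rw [hAR]
  have r1 : ((j : ℝ) + m + 1) + j ≤ A := by exact_mod_cast k1
  have r2 : 4 * (j : ℝ) ≤ A := by exact_mod_cast k2
  have r3 : 8 * ((j : ℝ) + m + 1) ^ 2 ≤ 9 * A * (m + 1) := by exact_mod_cast k3
  push_cast
  refine le_min ?_ (le_min ?_ ?_)
  · have e : ((j : ℝ) + m + 1) / A - 8 / 9 * (((j : ℝ) + m + 1) / A) ^ 2 - j / A =
        (9 * A * (m + 1) - 8 * ((j : ℝ) + m + 1) ^ 2) / (9 * A ^ 2) := by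
      field_simp
      ring
    have : 0 ≤ (9 * A * (m + 1) - 8 * ((j : ℝ) + m + 1) ^ 2) / (9 * (A : ℝ) ^ 2) :=
      div_nonneg (by linarith) (by positivity)
    linarith
  · rw [div_le_iff₀ hAp, sub_mul, div_mul_cancel₀ _ hAp.ne']
    linarith
  · rw [div_le_iff₀ hAp]
    linarith

end Pool.Agent.H14.SQ
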