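import Pool.Agent.H14.SQ.G5

/-!
# S: exchange of the two coordinates
-/

set_option autoImplicit false

namespace Pool.Agent.H14.SQ

variable {n p q : ℕ}

/-- exchange of the coordinates of a piece -/
def sw (i : Fin n × Bool) : Fin n × Bool := (i.1, !i.2)

theorem sw_sw (i : Fin n × Bool) : sw (sw i) = i := by
  obtain ⟨k, b⟩ := i
  simp [sw]

theorem sw_inj {i j : Fin n × Bool} (h : sw i = sw j) : i = j := by
  rw [← sw_sw i, h, sw_sw]

/-- the transposed cube -/
def tr (Q : Cube n) : Cube n := ⟨fun i => Q.a (sw i), Q.s.image sw⟩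

theorem mem_tr {Q : Cube n} {i : Fin n × Bool} : i ∈ (tr Q).s ↔ sw i ∈ Q.s := by
  unfold tr
  simp only [Finset.mem_image]
  constructor
  · rintro ⟨j, hj, rfl⟩
    rwa [sw_sw]
  · intro h
    exact ⟨sw i, h, sw_sw i⟩

theorem tr_tr (Q : Cube n) : tr (tr Q) = Q := by
  apply Cube.ext
  · funext i
    unfold tr
    simp [sw_sw]
  · ext i
    rw [mem_tr, mem_tr, sw_sw]

theorem tr_w (Q : Cube n) (i : Fin n × Bool) : (tr Q).w i = Q.w (sw i) := by
  unfold Cube.w
  simp only [mem_tr]

theorem tr_card (Q : Cube n) : (tr Q).s.card = Q.s.card :=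
  Finset.card_image_of_injective _ fun _ _ h => sw_inj h

theorem Pk.tr {Q : Cube n} (h : Pk p q Q) : Pk q p (tr Q) := by
  have hc : ∀ k u v, Cov (SQ.tr Q) k u v → Cov Q k v u := by
    rintro k u v ⟨c1, c2, c3, c4⟩
    rw [tr_w] at c2 c4
    exact ⟨c3, c4, c1, c2⟩
  refine ⟨fun k => ?_, fun k l u v h1 h2 => h.disj k l v u (hc k u v h1) (hc l u v h2)⟩
  obtain ⟨r1, r2, r3, r4⟩ := h.rng k
  rw [tr_w, tr_w]
  exact ⟨r3, r4, r1, r2⟩

theorem tr_face (Q : Cube n) (i : Fin n × Bool) (ε : Bool) : (tr Q).face (sw i) ε = tr (Q.face i ε) := by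
  apply Cube.ext
  · funext j
    rw [face_a]
    change Q.a (sw j) + _ = (Q.face i ε).a (sw j)
    rw [face_a]
    congr 1
    have : j = sw i ↔ sw j = i := ⟨fun h => by rw [h, sw_sw], fun h => by rw [← h, sw_sw]⟩
    simp only [this]
  · ext j
    rw [face_s, Finset.mem_erase, mem_tr, mem_tr, face_s, Finset.mem_erase]
    have : j = sw i ↔ sw j = i := ⟨fun h => by rw [h, sw_sw], fun h => by rw [← h, sw_sw]⟩
    simp only [Ne, this]

/-- the number of the pieces which are squares -/
def nb (s : Finset (Fin n × Bool)) : ℕ := (Finset.univ.filter fun k : Fin n => (k, false) ∈ s ∧ (k, true) ∈ s).card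

theorem nb_tr (Q : Cube n) : nb (tr Q).s = nb Q.s := by
  unfold nb
  congr 1
  ext k
  simp only [Finset.mem_filter, Finset.mem_univ, true_and, mem_tr, sw]
  simp [and_comm]

theorem nb_erase {s : Finset (Fin n × Bool)} {i : Fin n × Bool} (hi : i ∈ s) :
    nb (s.erase i) + (if sw i ∈ s then 1 else 0) = nb s := by
  obtain ⟨k, b⟩ := i
  have hk : k ∉ (Finset.univ.filter fun m : Fin n => (m, false) ∈ s.erase (k, b) ∧ (m, true) ∈ s.erase (k, b)) := by
    cases b <;> simp
  split_ifs with h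
  · unfold nb
    rw [← Finset.card_insert_of_notMem hk]
    congr 1
    ext m
    simp only [Finset.mem_insert, Finset.mem_filter, Finset.mem_univ, true_and, Finset.mem_erase]
    by_cases hm : m = k
    · subst hm
      cases b <;> simp [sw] at h ⊢ <;> simp [h, hi]
    · simp [hm]
  · unfold nb
    rw [add_zero]
    congr 1
    ext m
    simp only [Finset.mem_filter, Finset.mem_univ, true_and, Finset.mem_erase]
    by_cases hm : m = k
    · subst hm
      cases b <;> simp [sw] at h ⊢ <;> simp [h]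
    · simp [hm]

theorem count {s : Finset (Fin n × Bool)} (k : Fin n) (b : Bool) :
    (s.filter fun j => ord j < ord (k, b)).card =
      (s.filter fun j => j.1 < k).card + (if b = true ∧ (k, !b) ∈ s then 1 else 0) := by
  cases b
  · rw [if_neg (by simp), add_zero]
    congr 1
    ext ⟨m, c⟩
    simp only [Finset.mem_filter, ord, Fin.lt_def]
    cases c <;> simp <;> omega
  · by_cases h : (k, false) ∈ s
    · rw [if_pos (by simpa using h)]
      have hn : (k, false) ∉ s.filter fun j => j.1 < k := by simp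
      rw [← Finset.card_insert_of_notMem hn]
      congr 1
      ext ⟨m, c⟩
      simp only [Finset.mem_filter, Finset.mem_insert, ord, Fin.lt_def, Prod.mk.injEq, Fin.ext_iff]
      by_cases hm : (m : ℕ) = k
      · have hmk : m = k := Fin.ext hm
        subst hmk
        cases c <;> simp [h]
      · cases c <;> simp [hm] <;> omega
    · rw [if_neg (by simpa using h), add_zero]
      congr 1
      ext ⟨m, c⟩
      simp only [Finset.mem_filter, ord, Fin.lt_def]
      by_cases hm : (m : ℕ) = k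
      · have hmk : m = k := Fin.ext hm
        subst hmk
        cases c <;> simp [h]
      · cases c <;> simp <;> omega

theorem sgn_tr {Q : Cube n} {i : Fin n × Bool} (hi : i ∈ Q.s) :
    (-1 : ℤ) ^ nb Q.s * sgn (tr Q).s (sw i) = sgn Q.s i * (-1) ^ nb (Q.s.erase i) := by
  obtain ⟨k, b⟩ := i
  have h1 := nb_erase hi
  have h0 : ((tr Q).s.filter fun j => j.1 < k).card = (Q.s.filter fun j => j.1 < k).card := by
    have : ((tr Q).s.filter fun j => j.1 < k) = (Q.s.filter fun j => j.1 < k).image sw := by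
      ext j
      simp only [Finset.mem_filter, mem_tr, Finset.mem_image]
      constructor
      · rintro ⟨h2, h3⟩
        exact ⟨sw j, ⟨h2, h3⟩, sw_sw j⟩
      · rintro ⟨x, ⟨h2, h3⟩, rfl⟩
        rw [sw_sw]
        exact ⟨h2, h3⟩
    rw [this]
    exact Finset.card_image_of_injective _ fun _ _ h => sw_inj h
  unfold sgn
  rw [show sw (k, b) = (k, !b) from rfl, count k b, count k (!b), h0]
  have hm : (k, !!b) ∈ (tr Q).s ↔ sw (k, b) ∈ Q.s := by
    rw [mem_tr]; simp [sw]
  have hm' : (k, !b) ∈ Q.s ↔ sw (k, b) ∈ Q.s := by simp [sw]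
  rw [← h1]
  simp only [hm, hm']
  by_cases h : sw (k, b) ∈ Q.s
  · cases b <;> simp [h] <;> ring
  · cases b <;> simp [h] <;> ring

/-- the transposition of chains -/
noncomputable def TF (z : Cube n →₀ ℤ) : Cube n →₀ ℤ :=
  Finsupp.linearCombination ℤ (fun Q : Cube n => (-1 : ℤ) ^ nb Q.s • Finsupp.single (tr Q) (1 : ℤ)) z

theorem TF_single (Q : Cube n) : TF (Finsupp.single Q 1) = (-1 : ℤ) ^ nb Q.s • Finsupp.single (tr Q) 1 := by
  unfold TF
  rw [Finsupp.linearCombination_single, one_smul]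

theorem bd_lin (z : Cube n →₀ ℤ) : bd z = Finsupp.linearCombination ℤ bdCube z := rfl

theorem bd_TF (z : Cube n →₀ ℤ) : bd (TF z) = TF (bd z) := by
  have h : ∀ Q : Cube n, bd (TF (Finsupp.single Q 1)) = TF (bd (Finsupp.single Q 1)) := by
    intro Q
    have h1 : bd (Finsupp.single Q 1) = bdCube Q := by
      rw [bd_lin, Finsupp.linearCombination_single, one_smul]
    rw [h1, TF_single, bd_lin, map_smul, Finsupp.linearCombination_single, one_smul]
    unfold bdCube
    have h2 : (tr Q).s = Q.s.image sw := rfl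
    have h3 : TF (∑ i ∈ Q.s, sgn Q.s i • (Finsupp.single (Q.face i true) (1 : ℤ) - Finsupp.single (Q.face i false) 1)) =
        ∑ i ∈ Q.s, sgn Q.s i • (TF (Finsupp.single (Q.face i true) 1) - TF (Finsupp.single (Q.face i false) 1)) := by
      unfold TF
      rw [map_sum]
      refine Finset.sum_congr rfl fun i _ => ?_
      rw [map_smul, map_sub]
    rw [h3]
    conv_lhs => rw [h2]
    rw [Finset.sum_image fun _ _ _ _ h => sw_inj h, Finset.smul_sum]
    refine Finset.sum_congr rfl fun i hi => ?_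
    rw [TF_single, TF_single, face_s, face_s, tr_face, tr_face, smul_smul, ← h2, sgn_tr hi, ← smul_sub, smul_smul]
  have h2 : (Finsupp.linearCombination ℤ (bdCube (n := n))).comp
        (Finsupp.linearCombination ℤ (fun Q : Cube n => (-1 : ℤ) ^ nb Q.s • Finsupp.single (tr Q) (1 : ℤ))) =
      (Finsupp.linearCombination ℤ (fun Q : Cube n => (-1 : ℤ) ^ nb Q.s • Finsupp.single (tr Q) (1 : ℤ))).comp
        (Finsupp.linearCombination ℤ (bdCube (n := n))) := by
    apply Finsupp.lhom_ext'
    intro Q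
    apply LinearMap.ext_ring
    exact h Q
  exact LinearMap.congr_fun h2 z

theorem TF_TF (z : Cube n →₀ ℤ) : TF (TF z) = z := by
  have h2 : (Finsupp.linearCombination ℤ (fun Q : Cube n => (-1 : ℤ) ^ nb Q.s • Finsupp.single (tr Q) (1 : ℤ))).comp
        (Finsupp.linearCombination ℤ (fun Q : Cube n => (-1 : ℤ) ^ nb Q.s • Finsupp.single (tr Q) (1 : ℤ))) =
      LinearMap.id := by
    apply Finsupp.lhom_ext'
    intro Q
    apply LinearMap.ext_ring
    change TF (TF (Finsupp.single Q 1)) = Finsupp.single Q 1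
    rw [TF_single]
    have : TF ((-1 : ℤ) ^ nb Q.s • Finsupp.single (tr Q) 1) = (-1 : ℤ) ^ nb Q.s • TF (Finsupp.single (tr Q) 1) := by
      unfold TF
      rw [map_smul]
    rw [this, TF_single, nb_tr, tr_tr, smul_smul, ← pow_add, ← two_mul, pow_mul]
    norm_num
  exact LinearMap.congr_fun h2 z

theorem TF_chain {j : ℕ} {z : Cube n →₀ ℤ} (h : IsChain p q j z) : IsChain q p j (TF z) := by
  intro Q hQ
  have h1 : ∃ R ∈ z.support, tr R = Q := by
    by_contra hcon
    push Not at hcon
    rw [Finsupp.mem_support_iff] at hQ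
    apply hQ
    unfold TF
    rw [Finsupp.linearCombination_apply, Finsupp.sum, Finsupp.finsetSum_apply]
    refine Finset.sum_eq_zero fun R hR => ?_
    rw [Finsupp.smul_apply, Finsupp.smul_apply, Finsupp.single_apply, if_neg (hcon R hR)]
    simp
  obtain ⟨R, hR, rfl⟩ := h1
  obtain ⟨h2, h3⟩ := h R hR
  exact ⟨inX_iff.2 (inX_iff.1 h2).tr, by rw [tr_card, h3]⟩

theorem nonzero_tr {j : ℕ} (h : HomologyNonzero n p q j) : HomologyNonzero n q p j := by
  obtain ⟨z, h1, h2, h3⟩ := h
  refine ⟨TF z, TF_chain h1, ?_, ?_⟩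
  · rw [bd_TF, h2]
    unfold TF
    rw [map_zero]
  · rintro ⟨w, hw, hw2⟩
    apply h3
    refine ⟨TF w, TF_chain hw, ?_⟩
    rw [bd_TF, hw2, TF_TF]

/-- Q1 for height 1 -/
theorem width_one {j : ℕ} (hp : 0 < p) (h : HomologyNonzero n p 1 j) : n ≤ p ∧ j = 0 := by
  obtain ⟨σ, hσ, hj, hbad⟩ := exists_bad (key p (K4 p)) h
  have hc := card_le hσ
  rw [inX_iff] at hσ
  have hE : ∀ k, ¬ Ef p σ k := fun k hk => hbad (good_of_ef _ hσ ⟨k, hk⟩)
  have hs : σ.s = ∅ := by
    apply Finset.eq_empty_of_forall_notMem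
    rintro ⟨k, b⟩ hk
    cases b
    · exact hE k (hσ.ef hk)
    · obtain ⟨-, -, r3, r4⟩ := hσ.rng k
      have : σ.w (k, true) = 1 := Cube.w_of_mem hk
      push_cast at r4
      omega
  rw [hs] at hj hc
  simp at hj hc
  exact ⟨hc, hj.symm⟩

/-- Q1 for the rectangles with a side of length at most `2` -/
theorem side_two {j : ℕ} (hp : 0 < p) (hq : 0 < q) (h2 : min p q ≤ 2) (h : HomologyNonzero n p q j) :
    (j : ℝ) / (p * q) ≤ min ((n : ℝ) / (p * q) - 8 / 9 * ((n : ℝ) / (p * q)) ^ 2)
      (min (1 - (n : ℝ) / (p * q)) (1 / 4)) := by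
  have key : ∀ p q : ℕ, 0 < p → 0 < q → q ≤ 2 → HomologyNonzero n p q j →
      (j : ℝ) / (p * q) ≤ min ((n : ℝ) / (p * q) - 8 / 9 * ((n : ℝ) / (p * q)) ^ 2)
      (min (1 - (n : ℝ) / (p * q)) (1 / 4)) := by
    intro p q hp hq h2 h
    obtain rfl | rfl : q = 1 ∨ q = 2 := by omega
    · obtain ⟨h3, rfl⟩ := width_one hp h
      have h4 : (n : ℝ) / (p * (1 : ℕ)) ≤ 1 := by
        rw [div_le_one (by positivity)]
        simpa using (by exact_mod_cast h3 : (n : ℝ) ≤ p)
      have h5 : 0 ≤ (n : ℝ) / (p * (1 : ℕ)) := by positivity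
      rw [Nat.cast_zero, zero_div]
      refine le_min ?_ (le_min ?_ (by norm_num))
      · nlinarith
      · linarith
    · simpa using width_two hp h
  rcases le_total p q with h3 | h3
  · rw [min_eq_left h3] at h2
    have := key q p hq hp h2 (nonzero_tr h)
    rwa [mul_comm (q : ℝ) p] at this
  · rw [min_eq_right h3] at h2
    exact key p q hp hq h2 h

end Pool.Agent.H14.SQ
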