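import Pool.Agent.H14.SQ.Q3
import Pool.Agent.H14.SQ.Q5
import Pool.Agent.H14.SQ.Q6
import Pool.Agent.H14.SQ.Q9
import Pool.Agent.H14.SQ.S

/-!
# Q7: the homology in the degree `n - 1`, and Q1 for `4 n ^ 2 ≤ 9 p q`
-/

set_option autoImplicit false

namespace Pool.Agent.H14.SQ

variable {n p q : ℕ}

theorem deg_pred (hn : 0 < n) (h : HomologyNonzero n p q (n - 1)) : n ≤ q := by
  obtain ⟨S, hS, hSys⟩ := exists_sys hn h
  obtain ⟨σ, hσ, M, hM, hinj, hleft⟩ := ext1 hSys hS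
  exact ext2 hSys hσ hM hinj hleft

theorem deg_pred' {j : ℕ} (hn : 0 < n) (h : HomologyNonzero n p q j) (hj : j + 1 = n) : n ≤ p ∧ n ≤ q := by
  have hj' : j = n - 1 := by omega
  rw [hj'] at h
  exact ⟨deg_pred hn (nonzero_tr h), deg_pred hn h⟩

end Pool.Agent.H14.SQ
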