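import Pool.Agent.H14.SQ.P1

/-!
# QD: configurations with one monomino, which lies in the upper row
-/

set_option autoImplicit false

namespace Pool.Agent.H14.SQ

variable {n p q : ℕ}

/-- no piece can move to the right, all pieces but `M` are vertical dominoes, `M` is a monomino in the row `q` -/
structure Top (p q : ℕ) (σ : Cube n) (M : Fin n) : Prop where
  pk : Pk p q σ
  ef : ∀ k, ¬ Ef p σ k
  dom : ∀ k, k ≠ M → (k, true) ∈ σ.s
  mono : (M, true) ∉ σ.s
  row : σ.a (M, true) = q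

/-- a set of such configurations which is closed under the moves -/
structure Sys (p q : ℕ) (S : Finset (Cube n)) : Prop where
  top : ∀ σ ∈ S, ∃ M, Top p q σ M
  cl : ∀ σ ∈ S, ∀ k, (k, true) ∈ σ.s → ∀ ε, (∀ x, ¬ Ef p (σ.face (k, true) ε) x) →
    ∃ σ' ∈ S, σ' ≠ σ ∧ ∃ l, (l, true) ∈ σ'.s ∧ ∃ ε', σ'.face (l, true) ε' = σ.face (k, true) ε

/-- the piece `k` is the highest one (the first one among the highest ones) -/
def TP (Q : Cube n) (k : Fin n) : Prop :=
  ∀ l, Q.a (l, true) < Q.a (k, true) ∨ (Q.a (l, true) = Q.a (k, true) ∧ k ≤ l)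

open Classical in
/-- fourth key -/
noncomputable def K4t (p q : ℕ) (Q : Cube n) : ℕ :=
  if ∃ M, Top p q Q M then 0
  else 1 + 2 * K4h q Q + if ∃ k, TP Q k ∧ (k, true) ∉ Q.s then 1 else 0

end Pool.Agent.H14.SQ
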