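import Pool.Agent.H14.SQ.A

/-!
# V: a matching principle for the cubical complex
-/

set_option autoImplicit false

namespace Pool.Agent.H14.SQ

variable {n p q : ℕ}

private theorem V_face_comm (Q : Cube n) {i j : Fin n × Bool} (hij : i ≠ j) (ε ε' : Bool) :
    (Q.face i ε).face j ε' = (Q.face j ε').face i ε := by
  apply Cube.ext
  · funext k
    cases ε <;> cases ε' <;>
      simp only [Cube.face, Bool.false_eq_true, if_false, if_true, Function.update_apply]
    by_cases h1 : k = j
    · subst h1
      simp [hij.symm]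
    · by_cases h2 : k = i
      · subst h2
        simp [hij]
      · simp [h1, h2]
  · simp only [Cube.face]
    exact Finset.erase_right_comm

private theorem V_ord_inj {i j : Fin n × Bool} (h : ord i = ord j) : i = j := by
  obtain ⟨⟨i, hi⟩, b⟩ := i
  obtain ⟨⟨j, hj⟩, b'⟩ := j
  unfold ord at h
  cases b <;> cases b' <;> simp at h ⊢ <;> omega

private theorem V_sgn1 {s : Finset (Fin n × Bool)} {i j : Fin n × Bool} (hi : i ∈ s)
    (h : ord i < ord j) : sgn s j = - sgn (s.erase i) j := by
  have h1 : (s.erase i).filter (fun k => ord k < ord j) = (s.filter fun k => ord k < ord j).erase i := by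
    ext k
    simp only [Finset.mem_filter, Finset.mem_erase]
    tauto
  have h2 := Finset.card_erase_add_one (Finset.mem_filter.2 ⟨hi, h⟩ : i ∈ s.filter fun k => ord k < ord j)
  unfold sgn
  rw [h1, ← h2, pow_succ, mul_neg_one]

private theorem V_sgn2 {s : Finset (Fin n × Bool)} {i j : Fin n × Bool}
    (h : ord i < ord j) : sgn (s.erase j) i = sgn s i := by
  have h1 : (s.erase j).filter (fun k => ord k < ord i) = s.filter fun k => ord k < ord i := by
    ext k
    simp only [Finset.mem_filter, Finset.mem_erase]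
    constructor
    · rintro ⟨⟨-, h1⟩, h2⟩
      exact ⟨h1, h2⟩
    · rintro ⟨h1, h2⟩
      refine ⟨⟨?_, h1⟩, h2⟩
      rintro rfl
      omega
  unfold sgn
  rw [h1]

private theorem V_sgn {s : Finset (Fin n × Bool)} {i j : Fin n × Bool} (hi : i ∈ s) (hj : j ∈ s)
    (hij : i ≠ j) : sgn s i * sgn (s.erase i) j = - (sgn s j * sgn (s.erase j) i) := by
  rcases lt_trichotomy (ord i) (ord j) with h | h | h
  · rw [V_sgn1 hi h, V_sgn2 h]
    ring
  · exact absurd (V_ord_inj h) hij
  · rw [V_sgn1 hj h, V_sgn2 h]
    ring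

/-- ROW V1 (`∂∂ = 0`).  `bd z = Finsupp.linearCombination ℤ bdCube z` (rfl, `Finsupp.linearCombination_apply`).  Expand:
`bd (bdCube Q) = ∑ i ∈ Q.s, ∑ j ∈ Q.s.erase i, sgn Q.s i * sgn (Q.s.erase i) j • (four terms (Q.face i ε).face j ε')`.
Write it as `∑ i ∈ Q.s, ∑ j ∈ Q.s, T i j` with `T i j = if i = j then 0 else …`; for `i ≠ j`:
`(Q.face i ε).face j ε' = (Q.face j ε').face i ε` and `sgn s i * sgn (s.erase i) j = - (sgn s j * sgn (s.erase j) i)`
(`ord` is injective; if `ord i < ord j` then the filter set of `j` loses exactly `i` and the filter set of `i` is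
unchanged). So `T i j = - T j i`, and with `Finset.sum_comm` the sum `S` satisfies `S = - S`, so `S = 0`. -/
theorem bd_bdCube (Q : Cube n) : bd (bdCube Q) = 0 := by
  classical
  let D : Fin n × Bool → Fin n × Bool → (Cube n →₀ ℤ) := fun i j =>
    (Finsupp.single ((Q.face i true).face j true) 1 - Finsupp.single ((Q.face i true).face j false) 1) -
    (Finsupp.single ((Q.face i false).face j true) 1 - Finsupp.single ((Q.face i false).face j false) 1)
  let T : Fin n × Bool → Fin n × Bool → (Cube n →₀ ℤ) := fun i j =>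
    if i = j then 0 else (sgn Q.s i * sgn (Q.s.erase i) j) • D i j
  have hbd : ∀ z : Cube n →₀ ℤ, bd z = Finsupp.linearCombination ℤ bdCube z := fun z => by
    rw [Finsupp.linearCombination_apply]; rfl
  have h1 : bd (bdCube Q) =
      ∑ i ∈ Q.s, sgn Q.s i • (bdCube (Q.face i true) - bdCube (Q.face i false)) := by
    rw [hbd, bdCube, map_sum]
    refine Finset.sum_congr rfl fun i _ => ?_
    rw [map_smul, map_sub, Finsupp.linearCombination_single, Finsupp.linearCombination_single,
      one_smul, one_smul]
  have h2 : ∀ i ∈ Q.s, sgn Q.s i • (bdCube (Q.face i true) - bdCube (Q.face i false)) =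
      ∑ j ∈ Q.s, T i j := by
    intro i hi
    have h3 : ∀ ε, bdCube (Q.face i ε) = ∑ j ∈ Q.s.erase i, sgn (Q.s.erase i) j •
        (Finsupp.single ((Q.face i ε).face j true) 1 -
          Finsupp.single ((Q.face i ε).face j false) 1) := fun ε => rfl
    rw [h3, h3, ← Finset.sum_sub_distrib, Finset.smul_sum]
    have h6 : T i i = 0 := if_pos rfl
    rw [← Finset.sum_erase Q.s h6]
    refine Finset.sum_congr rfl fun j hj => ?_
    have hij : i ≠ j := (Finset.mem_erase.1 hj).1.symm
    simp only [T, D]
    rw [if_neg hij, ← smul_sub, smul_smul]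
  have h4 : ∀ i ∈ Q.s, ∀ j ∈ Q.s, T i j = - T j i := by
    intro i hi j hj
    by_cases hij : i = j
    · subst hij
      simp [T]
    · have h5 : D i j = D j i := by
        simp only [D]
        rw [V_face_comm Q hij true true, V_face_comm Q hij true false, V_face_comm Q hij false true,
          V_face_comm Q hij false false]
        abel
      simp only [T]
      rw [if_neg hij, if_neg (fun h => hij h.symm), V_sgn hi hj hij, h5, neg_smul]
  have h5 : ∑ i ∈ Q.s, ∑ j ∈ Q.s, T i j = - ∑ i ∈ Q.s, ∑ j ∈ Q.s, T i j := by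
    conv_lhs => rw [Finset.sum_comm]
    rw [← Finset.sum_neg_distrib]
    refine Finset.sum_congr rfl fun i hi => ?_
    rw [← Finset.sum_neg_distrib]
    exact Finset.sum_congr rfl fun j hj => h4 j hj i hi
  rw [h1, Finset.sum_congr rfl h2]
  ext τ
  have h6 := DFunLike.congr_fun h5 τ
  rw [Finsupp.neg_apply] at h6
  rw [Finsupp.zero_apply]
  omega

end Pool.Agent.H14.SQ
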